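import Mathlib

/-!
`ω₁`-saturated `σ`-ideals and quasi-measurable cardinals.
-/

set_option autoImplicit false

open Set Cardinal Ordinal

universe u v

namespace Pool.Agent.Helper66.PF

/-- A cardinal `κ` is quasi-measurable if it is uncountable and some set `K` of cardinality `κ`
carries a proper ideal `I` that contains all singletons, is closed under unions of fewer than `κ`
members, and is `ω₁`-saturated: every family of pairwise disjoint sets outside `I` is countable. -/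
def QuasiMeasurable (κ : Cardinal.{u}) : Prop :=
  ℵ₀ < κ ∧ ∃ (K : Type u) (I : Set (Set K)), #K = κ ∧
    (∀ A ∈ I, ∀ B ⊆ A, B ∈ I) ∧ (∀ F ⊆ I, #F < κ → ⋃₀ F ∈ I) ∧ (∀ k, {k} ∈ I) ∧ Set.univ ∉ I ∧
    (∀ F : Set (Set K), (∀ A ∈ F, A ∉ I) → F.PairwiseDisjoint id → F.Countable)

/-- Proper `ω₁`-saturated `σ`-ideals containing the singletons. -/
structure SatIdeal {ι : Type u} (I : Set (Set ι)) : Prop where
  mono : ∀ A ∈ I, ∀ B ⊆ A, B ∈ I
  empty : ∅ ∈ I
  iUnion_nat : ∀ A : ℕ → Set ι, (∀ n, A n ∈ I) → (⋃ n, A n) ∈ I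
  single : ∀ i, {i} ∈ I
  univ : Set.univ ∉ I
  sat : ∀ F : Set (Set ι), (∀ A ∈ F, A ∉ I) → F.PairwiseDisjoint id → F.Countable

section

variable {ι : Type u} {I : Set (Set ι)}

theorem SatIdeal.iUnion (hI : SatIdeal I) {J : Sort*} [Countable J] {A : J → Set ι}
    (h : ∀ j, A j ∈ I) : (⋃ j, A j) ∈ I := by
  cases isEmpty_or_nonempty J with
  | inl hJ => rw [iUnion_of_empty]; exact hI.empty
  | inr hJ =>
    obtain ⟨g, hg⟩ := exists_surjective_nat J
    rw [← hg.iUnion_comp]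
    exact hI.iUnion_nat _ (fun n => h _)

theorem SatIdeal.union (hI : SatIdeal I) {A B : Set ι} (hA : A ∈ I) (hB : B ∈ I) :
    A ∪ B ∈ I := by
  rw [union_eq_iUnion]
  exact hI.iUnion (fun b => by cases b <;> assumption)

theorem SatIdeal.countable (hI : SatIdeal I) {A : Set ι} (hA : A.Countable) : A ∈ I := by
  have : Countable A := hA
  have h : A = ⋃ a : A, {(a : ι)} := by simp
  rw [h]
  exact hI.iUnion (fun a => hI.single _)

/-- A general form of saturation: pairwise disjoint positive sets are indexed by a countable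
type. -/
theorem SatIdeal.sat' (hI : SatIdeal I) {J : Type v} {A : J → Set ι} {s : Set J}
    (hA : ∀ j ∈ s, A j ∉ I) (hd : ∀ j ∈ s, ∀ k ∈ s, j ≠ k → Disjoint (A j) (A k)) :
    s.Countable := by
  have hinj : InjOn A s := by
    intro j hj k hk hjk
    by_contra hne
    have h1 := hd j hj k hk hne
    rw [← hjk] at h1
    have h2 : A j = ∅ := by simpa using h1
    exact hA j hj (h2 ▸ hI.empty)
  have h1 : (A '' s).Countable := by
    apply hI.sat
    · rintro _ ⟨j, hj, rfl⟩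
      exact hA j hj
    · rintro _ ⟨j, hj, rfl⟩ _ ⟨k, hk, rfl⟩ hne
      exact hd j hj k hk (fun h => hne (by rw [h]))
  exact (Set.countable_of_injective_of_countable_image hinj h1)

/-- The additivity of a saturated ideal is quasi-measurable. -/
theorem SatIdeal.exists_add (hI : SatIdeal I) : ∃ κ : Cardinal.{u}, QuasiMeasurable κ ∧ κ ≤ #ι ∧
    (∀ F ⊆ I, #F < κ → ⋃₀ F ∈ I) ∧ (∃ N ⊆ I, #N = κ ∧ ⋃₀ N ∉ I) := by
  set P : Set Cardinal.{u} := {c | ∃ N ⊆ I, #N = c ∧ ⋃₀ N ∉ I} with hP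
  have hmem : #(range (fun i : ι => ({i} : Set ι))) ∈ P := by
    refine ⟨_, ?_, rfl, ?_⟩
    · rintro _ ⟨i, rfl⟩
      exact hI.single i
    · have : ⋃₀ range (fun i : ι => ({i} : Set ι)) = Set.univ := by
        ext i; simp
      rw [this]
      exact hI.univ
  set κ := sInf P with hκ
  have hκP : κ ∈ P := csInf_mem ⟨_, hmem⟩
  have hmin : ∀ F ⊆ I, #F < κ → ⋃₀ F ∈ I := by
    intro F hF hlt
    by_contra hn
    exact absurd (csInf_le' (show #F ∈ P from ⟨F, hF, rfl, hn⟩)) (not_le.2 hlt)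
  have hle : κ ≤ #ι := (csInf_le' hmem).trans mk_range_le
  obtain ⟨N, hN, hNκ, hNI⟩ := hκP
  have hunc : ℵ₀ < κ := by
    by_contra hn
    rw [not_lt, ← hNκ, le_aleph0_iff_set_countable] at hn
    have : Countable N := hn
    rw [sUnion_eq_iUnion] at hNI
    exact hNI (hI.iUnion (fun A => hN A.2))
  refine ⟨κ, ⟨hunc, ?_⟩, hle, hmin, ⟨N, hN, hNκ, hNI⟩⟩
  -- push the ideal forward
  have hcard : #κ.ord.ToType = #N := by rw [mk_ord_toType, hNκ]
  obtain ⟨e⟩ := Cardinal.eq.1 hcard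
  let pre : Set κ.ord.ToType → Set ι := fun A =>
    {z | ∃ k ∈ A, z ∈ (e k : Set ι) ∧ ∀ l < k, z ∉ (e l : Set ι)}
  have hpred : ∀ A B : Set κ.ord.ToType, Disjoint A B → Disjoint (pre A) (pre B) := by
    intro A B hAB
    rw [disjoint_left]
    rintro z ⟨k, hk, hz, hz'⟩ ⟨l, hl, hw, hw'⟩
    rcases lt_trichotomy k l with h | h | h
    · exact hw' k h hz
    · subst h
      exact disjoint_left.1 hAB hk hl
    · exact hz' l h hw
  refine ⟨κ.ord.ToType, {A | pre A ∈ I}, mk_ord_toType κ, ?_, ?_, ?_, ?_, ?_⟩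
  · intro A hA B hBA
    refine hI.mono _ hA _ ?_
    rintro z ⟨k, hk, h⟩
    exact ⟨k, hBA hk, h⟩
  · intro F hF hlt
    have h1 : pre (⋃₀ F) = ⋃₀ (pre '' F) := by
      ext z
      constructor
      · rintro ⟨k, ⟨A, hA, hk⟩, h⟩
        exact ⟨pre A, ⟨A, hA, rfl⟩, k, hk, h⟩
      · rintro ⟨_, ⟨A, hA, rfl⟩, k, hk, h⟩
        exact ⟨k, ⟨A, hA, hk⟩, h⟩
    change pre (⋃₀ F) ∈ I
    rw [h1]
    refine hmin _ ?_ (mk_image_le.trans_lt hlt)
    rintro _ ⟨A, hA, rfl⟩
    exact hF hA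
  · intro k
    refine hI.mono _ (hN (e k).2) _ ?_
    rintro z ⟨l, hl, hz, -⟩
    rw [mem_singleton_iff.1 hl] at hz
    exact hz
  · intro hu
    apply hNI
    refine hI.mono _ hu _ ?_
    rintro z ⟨A, hA, hzA⟩
    have hne : {k | z ∈ (e k : Set ι)}.Nonempty := by
      obtain ⟨k, hk⟩ := e.surjective ⟨A, hA⟩
      exact ⟨k, by change z ∈ (e k : Set ι); rw [hk]; exact hzA⟩
    obtain ⟨k, hk, hk'⟩ := WellFounded.has_min (wellFounded_lt (α := κ.ord.ToType)) _ hne
    exact ⟨k, trivial, hk, fun l hl hzl => hk' l hzl hl⟩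
  · intro F hF hd
    exact hI.sat' (A := pre) (s := F) (fun A hA => hF A hA)
      (fun A hA B hB hAB => hpred A B (hd hA hB hAB))

end

section QM

theorem mk_Iic_lt' {κ : Cardinal.{u}} (hκ : ℵ₀ ≤ κ) (s : κ.ord.ToType) : #(Iic s) < κ := by
  have h1 : #(Iio s) < κ := by simpa using mk_Iio_lt s
  have h2 : Iic s = Iio s ∪ {s} := by
    ext a; simp [le_iff_lt_or_eq]
  rw [h2]
  refine (mk_union_le _ _).trans_lt (add_lt_of_lt hκ h1 ?_)
  rw [mk_singleton]
  exact one_lt_aleph0.trans_le hκ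

variable {κ : Cardinal.{u}}

theorem QuasiMeasurable.lt (h : QuasiMeasurable κ) : ℵ₀ < κ := h.1

/-- A quasi-measurable cardinal is regular. -/
theorem QuasiMeasurable.isRegular (h : QuasiMeasurable κ) : κ.IsRegular := by
  obtain ⟨hκ, K, I, hK, mono, add, single, univ', sat⟩ := h
  refine ⟨hκ.le, ?_⟩
  by_contra hcof
  rw [not_le] at hcof
  -- a small cofinal set
  obtain ⟨e⟩ : Nonempty (K ≃ κ.ord.ToType) := Cardinal.eq.1 (by rw [hK, mk_ord_toType])
  have hcof' : Order.cof κ.ord.ToType < κ := by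
    rw [Ordinal.cof_toType]; exact hcof
  obtain ⟨S, hS, hS'⟩ := Order.exists_cof_eq κ.ord.ToType
  have hsmall : ∀ A : Set K, #A < κ → A ∈ I := by
    intro A hA
    have : A = ⋃₀ ((fun a => ({a} : Set K)) '' A) := by
      ext a; simp
    rw [this]
    refine add _ ?_ (mk_image_le.trans_lt hA)
    rintro _ ⟨a, -, rfl⟩
    exact single a
  apply univ'
  have hu : (Set.univ : Set K) = ⋃₀ ((fun s => e ⁻¹' (Iic s)) '' S) := by
    ext a
    simp only [mem_univ, sUnion_image, mem_iUnion, mem_preimage, mem_Iic, exists_prop, true_iff]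
    exact hS (e a)
  rw [hu]
  refine add _ ?_ (mk_image_le.trans_lt (hS' ▸ hcof'))
  rintro _ ⟨s, -, rfl⟩
  apply hsmall
  rw [Cardinal.mk_preimage_equiv]
  exact mk_Iic_lt' hκ.le s

theorem satIdeal_of {κ : Cardinal.{u}} {K : Type u} {I : Set (Set K)} (hκ : ℵ₀ < κ)
    (mono : ∀ A ∈ I, ∀ B ⊆ A, B ∈ I) (add : ∀ F ⊆ I, #F < κ → ⋃₀ F ∈ I) (single : ∀ k, {k} ∈ I)
    (univ' : Set.univ ∉ I)
    (sat : ∀ F : Set (Set K), (∀ A ∈ F, A ∉ I) → F.PairwiseDisjoint id → F.Countable) :
    SatIdeal I := by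
  refine ⟨mono, ?_, ?_, single, univ', sat⟩
  · have := add ∅ (empty_subset _) (by rw [mk_eq_zero]; exact aleph0_pos.trans hκ)
    simpa using this
  · intro A hA
    rw [← sUnion_range]
    refine add _ ?_ (lt_of_le_of_lt ?_ hκ)
    · rintro _ ⟨n, rfl⟩
      exact hA n
    · rw [le_aleph0_iff_set_countable]
      exact countable_range A

/-- A quasi-measurable cardinal is not a successor (Ulam). -/
theorem QuasiMeasurable.not_succ (h : QuasiMeasurable κ) (μ : Cardinal.{u}) :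
    κ ≠ Order.succ μ := by
  rintro rfl
  obtain ⟨hκ, K, I, hK, mono, add, single, univ', sat⟩ := h
  have hI : SatIdeal I := satIdeal_of hκ mono add single univ' sat
  have hμ : ℵ₀ ≤ μ := Order.lt_succ_iff.1 hκ
  obtain ⟨e⟩ : Nonempty (K ≃ (Order.succ μ).ord.ToType) :=
    Cardinal.eq.1 (by rw [hK, mk_ord_toType])
  have hsmall : ∀ A : Set K, #A < Order.succ μ → A ∈ I := by
    intro A hA
    have : A = ⋃₀ ((fun a => ({a} : Set K)) '' A) := by
      ext a; simp
    rw [this]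
    refine add _ ?_ (mk_image_le.trans_lt hA)
    rintro _ ⟨a, -, rfl⟩
    exact single a
  have hne : Nonempty μ.out := by
    rw [← Cardinal.mk_ne_zero_iff, mk_out]
    exact (aleph0_pos.trans_le hμ).ne'
  have hf : ∀ k : K, ∃ f : K → μ.out, ∀ a b, e a < e k → e b < e k → f a = f b → a = b := by
    intro k
    have h1 : #{a // e a < e k} ≤ #μ.out := by
      rw [mk_out, ← Order.lt_succ_iff]
      have h2 : #(e ⁻¹' (Iio (e k))) < Order.succ μ := by
        rw [Cardinal.mk_preimage_equiv]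
        simpa using mk_Iio_lt (e k)
      exact h2
    obtain ⟨g⟩ := h1
    classical
    refine ⟨fun a => if h : e a < e k then g ⟨a, h⟩ else hne.some, fun a b ha hb hab => ?_⟩
    simp only [ha, hb, dif_pos] at hab
    have := g.injective hab
    exact congrArg Subtype.val this
  choose f hf using hf
  set A : μ.out → K → Set K := fun m β => {a | e β < e a ∧ f a β = m} with hA
  have hpos : ∀ β : K, ∃ m, A m β ∉ I := by
    intro β
    by_contra hcon
    push Not at hcon
    apply univ'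
    have h1 : (⋃₀ range (fun m => A m β)) ∈ I := by
      refine add _ ?_ (lt_of_le_of_lt mk_range_le ?_)
      · rintro _ ⟨m, rfl⟩
        exact hcon m
      · rw [mk_out]
        exact Order.lt_succ μ
    have h2 : e ⁻¹' (Iic (e β)) ∈ I := by
      apply hsmall
      rw [Cardinal.mk_preimage_equiv]
      exact mk_Iic_lt' hκ.le _
    have h3 : (Set.univ : Set K) = (⋃₀ range (fun m => A m β)) ∪ e ⁻¹' (Iic (e β)) := by
      ext a
      simp only [mem_univ, sUnion_range, mem_union, mem_iUnion, mem_preimage, mem_Iic, true_iff]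
      rcases lt_or_ge (e β) (e a) with h | h
      · exact Or.inl ⟨f a β, h, rfl⟩
      · exact Or.inr h
    rw [h3]
    exact hI.union h1 h2
  have hcount : ∀ m, {β | A m β ∉ I}.Countable := by
    intro m
    apply hI.sat' (A := fun β => A m β) (s := {β | A m β ∉ I}) (fun β hβ => hβ)
    intro β _ β' _ hne
    rw [disjoint_left]
    rintro a ⟨ha1, ha2⟩ ⟨ha3, ha4⟩
    exact hne (hf a β β' ha1 ha3 (ha2.trans ha4.symm))
  have hcover : (Set.univ : Set K) = ⋃ m, {β | A m β ∉ I} := by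
    ext β
    simp only [mem_univ, mem_iUnion, true_iff]
    exact hpos β
  have h1 : #K ≤ μ := by
    rw [← mk_univ, hcover]
    refine (mk_iUnion_le_sum_mk).trans ?_
    refine (Cardinal.sum_le_sum _ (fun _ => ℵ₀) (fun m => (hcount m).le_aleph0)).trans ?_
    rw [Cardinal.sum_const', mk_out]
    exact (mul_le_max_of_aleph0_le_left hμ).trans (max_le le_rfl hμ)
  rw [hK] at h1
  exact absurd h1 (not_le.2 (Order.lt_succ μ))

theorem QuasiMeasurable.aleph_one_lt (h : QuasiMeasurable κ) : ℵ₁ < κ := by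
  refine lt_of_le_of_ne ?_ ?_
  · rw [← succ_aleph0]
    exact Order.succ_le_of_lt h.1
  · intro heq
    exact h.not_succ ℵ₀ (by rw [← heq, succ_aleph0])

theorem QuasiMeasurable.isSuccLimit (h : QuasiMeasurable κ) : Order.IsSuccLimit κ := by
  refine ⟨?_, ?_⟩
  · intro hmin
    have := hmin (show (0 : Cardinal) ≤ κ from zero_le)
    exact absurd (aleph0_pos.trans h.1) (not_lt.2 this)
  · intro μ hμ
    exact h.not_succ μ hμ.succ_eq.symm

end QM

end Pool.Agent.Helper66.PF
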