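import Mathlib

/-!
The additive classes of the Borel hierarchy of a metric space.
-/

set_option autoImplicit false

open Set Cardinal Ordinal

universe u v

namespace Pool.Agent.Helper66.PF

/-- `Sg α A`: the set `A` belongs to the additive class of level `α` of the Borel hierarchy:
level `1` consists of the open sets, and the sets of level `α > 1` are the countable unions of
complements of sets of lower level. -/
inductive Sg {X : Type u} [TopologicalSpace X] : Ordinal.{0} → Set X → Prop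
  | isOpen {U : Set X} (h : IsOpen U) : Sg 1 U
  | union {α : Ordinal.{0}} (f : ℕ → Set X) (β : ℕ → Ordinal.{0}) (h1 : ∀ n, β n < α)
      (h : ∀ n, Sg (β n) (f n)) : Sg α (⋃ n, (f n)ᶜ)

section Basic

variable {X : Type u} [TopologicalSpace X]

theorem Sg.one_le {α : Ordinal.{0}} {A : Set X} (h : Sg α A) : 1 ≤ α := by
  cases h with
  | isOpen h => exact le_rfl
  | union f β h1 h =>
    exact Order.one_le_iff_ne_zero.2 (fun h0 => by
      have := h1 0
      rw [h0] at this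
      exact absurd this not_lt_zero')

theorem sg_one {A : Set X} : Sg 1 A ↔ IsOpen A := by
  constructor
  · intro h
    generalize hα : (1 : Ordinal.{0}) = α at h
    cases h with
    | isOpen h => exact h
    | union f β h1 h =>
      subst hα
      have := (h 0).one_le
      exact absurd (h1 0) (not_lt.2 this)
  · exact Sg.isOpen

theorem sg_iff {α : Ordinal.{0}} (hα : 1 < α) {A : Set X} : Sg α A ↔
    ∃ f : ℕ → Set X, A = (⋃ n, f n) ∧ ∀ n, ∃ β : Ordinal.{0}, 1 ≤ β ∧ β < α ∧ Sg β (f n)ᶜ := by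
  constructor
  · intro h
    cases h with
    | isOpen h => exact absurd hα (lt_irrefl _)
    | union f β h1 h =>
      exact ⟨fun n => (f n)ᶜ, rfl, fun n => ⟨β n, (h n).one_le, h1 n, by
        rw [compl_compl]; exact h n⟩⟩
  · rintro ⟨f, rfl, hf⟩
    choose β hβ1 hβ2 hβ3 using hf
    have := Sg.union (α := α) (fun n => (f n)ᶜ) β hβ2 hβ3
    simpa using this

/-- Any hierarchy satisfying the defining equations is the hierarchy `Sg`. -/
theorem eq_sg (S : Ordinal.{0} → Set (Set X)) (h1 : S 1 = {U : Set X | IsOpen U})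
    (h2 : ∀ α : Ordinal.{0}, 1 < α → α < (Cardinal.aleph 1).ord →
        S α = {A : Set X | ∃ f : ℕ → Set X, A = (⋃ n, f n) ∧
          ∀ n, ∃ β : Ordinal.{0}, 1 ≤ β ∧ β < α ∧ (f n)ᶜ ∈ S β}) :
    ∀ α : Ordinal.{0}, 1 ≤ α → α < (Cardinal.aleph 1).ord → ∀ A : Set X, A ∈ S α ↔ Sg α A := by
  intro α
  induction α using WellFoundedLT.induction with
  | _ α ih =>
    intro hα1 hα2 A
    rcases hα1.eq_or_lt with rfl | hlt
    · rw [h1, sg_one]; rfl
    · rw [h2 α hlt hα2, sg_iff hlt]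
      constructor
      · rintro ⟨f, hf, h⟩
        refine ⟨f, hf, fun n => ?_⟩
        obtain ⟨β, hβ1, hβ2, hβ3⟩ := h n
        exact ⟨β, hβ1, hβ2, (ih β hβ2 hβ1 (hβ2.trans hα2) _).1 hβ3⟩
      · rintro ⟨f, hf, h⟩
        refine ⟨f, hf, fun n => ?_⟩
        obtain ⟨β, hβ1, hβ2, hβ3⟩ := h n
        exact ⟨β, hβ1, hβ2, (ih β hβ2 hβ1 (hβ2.trans hα2) _).2 hβ3⟩

theorem Sg.preimage {Y : Type v} [TopologicalSpace Y] {g : Y → X} (hg : Continuous g)
    {α : Ordinal.{0}} {A : Set X} (h : Sg α A) : Sg α (g ⁻¹' A) := by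
  induction h with
  | isOpen h => exact .isOpen (h.preimage hg)
  | union f β h1 h ih =>
    rw [preimage_iUnion]
    exact Sg.union (fun n => g ⁻¹' f n) β h1 ih

theorem Sg.compl {α : Ordinal.{0}} {A : Set X} (h : Sg α A) : Sg (α + 1) Aᶜ := by
  have := Sg.union (α := α + 1) (fun _ : ℕ => A) (fun _ => α)
    (fun _ => Order.lt_add_one_iff.2 le_rfl) (fun _ => h)
  rwa [iUnion_const] at this

end Basic

section Metric

variable {X : Type u} [MetricSpace X]

theorem Sg.mono {α β : Ordinal.{0}} {A : Set X} (h : Sg α A) (hαβ : α ≤ β) : Sg β A := by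
  rcases hαβ.eq_or_lt with rfl | hlt
  · exact h
  cases h with
  | isOpen h =>
    obtain ⟨F, hF1, -, hF2, -⟩ := IsOpen.exists_iUnion_isClosed h
    rw [← hF2]
    have := Sg.union (α := β) (fun n => (F n)ᶜ) (fun _ => 1) (fun _ => hlt)
      (fun n => Sg.isOpen (hF1 n).isOpen_compl)
    simpa using this
  | union f β' h1 h => exact Sg.union f β' (fun n => (h1 n).trans hlt) h

theorem Sg.iUnion_nat {α : Ordinal.{0}} {A : ℕ → Set X} (h : ∀ n, Sg α (A n)) :
    Sg α (⋃ n, A n) := by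
  rcases (h 0).one_le.eq_or_lt with rfl | hlt
  · exact .isOpen (isOpen_iUnion fun n => sg_one.1 (h n))
  · have h' := fun n => (sg_iff hlt).1 (h n)
    choose f hf1 hf2 using h'
    rw [sg_iff hlt]
    refine ⟨fun k => f (Nat.unpair k).1 (Nat.unpair k).2, ?_, fun k => hf2 _ _⟩
    ext x
    simp only [mem_iUnion]
    constructor
    · rintro ⟨n, hn⟩
      rw [hf1 n, mem_iUnion] at hn
      obtain ⟨m, hm⟩ := hn
      exact ⟨Nat.pair n m, by simpa using hm⟩
    · rintro ⟨k, hk⟩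
      exact ⟨(Nat.unpair k).1, by rw [hf1, mem_iUnion]; exact ⟨_, hk⟩⟩

theorem Sg.iUnion {ι : Sort*} [Countable ι] {α : Ordinal.{0}} (hα : 1 ≤ α) {A : ι → Set X}
    (h : ∀ n, Sg α (A n)) : Sg α (⋃ n, A n) := by
  cases isEmpty_or_nonempty ι with
  | inl hι =>
    rw [iUnion_of_empty]
    exact (Sg.isOpen isOpen_empty).mono hα
  | inr hι =>
    obtain ⟨g, hg⟩ := exists_surjective_nat ι
    rw [← hg.iUnion_comp]
    exact Sg.iUnion_nat (fun n => h _)

theorem Sg.union' {α : Ordinal.{0}} {A B : Set X} (hA : Sg α A) (hB : Sg α B) :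
    Sg α (A ∪ B) := by
  rw [union_eq_iUnion]
  refine Sg.iUnion hA.one_le (fun b => ?_)
  cases b
  · exact hB
  · exact hA

theorem Sg.inter {α : Ordinal.{0}} {A B : Set X} (hA : Sg α A) (hB : Sg α B) :
    Sg α (A ∩ B) := by
  rcases hA.one_le.eq_or_lt with rfl | hlt
  · exact .isOpen ((sg_one.1 hA).inter (sg_one.1 hB))
  · obtain ⟨f, rfl, hf⟩ := (sg_iff hlt).1 hA
    obtain ⟨g, rfl, hg⟩ := (sg_iff hlt).1 hB
    rw [iUnion_inter_iUnion]
    refine Sg.iUnion_nat fun n => Sg.iUnion_nat fun m => ?_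
    obtain ⟨β, -, hβ2, hβ3⟩ := hf n
    obtain ⟨β', -, hβ2', hβ3'⟩ := hg m
    rw [sg_iff hlt]
    refine ⟨fun _ => f n ∩ g m, (iUnion_const _).symm, fun _ => ⟨max β β', le_max_of_le_left hβ3.one_le,
      max_lt hβ2 hβ2', ?_⟩⟩
    rw [compl_inter]
    exact (hβ3.mono (le_max_left _ _)).union' (hβ3'.mono (le_max_right _ _))

theorem Sg.iInter {ι : Sort*} [Countable ι] {α : Ordinal.{0}} (hα : 1 ≤ α) {A : ι → Set X}
    (h : ∀ n, Sg α (A n)) : Sg (α + 2) (⋂ n, A n) := by
  have h1 : Sg (α + 1) (⋃ n, (A n)ᶜ) := Sg.iUnion (hα.trans (by simp)) (fun n => (h n).compl)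
  have h2 := h1.compl
  rw [compl_iUnion] at h2
  simp only [compl_compl] at h2
  have h3 : α + 1 + 1 = α + 2 := by rw [add_assoc, one_add_one_eq_two]
  rwa [h3] at h2

theorem sg_univ {α : Ordinal.{0}} (hα : 1 ≤ α) : Sg α (univ : Set X) :=
  (Sg.isOpen isOpen_univ).mono hα

theorem sg_empty {α : Ordinal.{0}} (hα : 1 ≤ α) : Sg α (∅ : Set X) :=
  (Sg.isOpen isOpen_empty).mono hα

theorem Sg.measurableSet {α : Ordinal.{0}} {A : Set X} (h : Sg α A) :
    @MeasurableSet X (borel X) A := by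
  let _ := borel X
  have : BorelSpace X := ⟨rfl⟩
  induction h with
  | isOpen h => exact h.measurableSet
  | union f β h1 h ih => exact MeasurableSet.iUnion (fun n => (ih n).compl)

theorem iSup_lt_w1 {ι : Type*} [Countable ι] {f : ι → Ordinal.{0}} (h : ∀ i, f i < ω₁) :
    (⨆ i, f i) < ω₁ := Ordinal.iSup_lt_omega_one h

theorem le_iSup_w1 {ι : Type} (f : ι → Ordinal.{0}) (i : ι) : f i ≤ ⨆ i, f i :=
  le_ciSup (Ordinal.bddAbove_of_small) i

theorem one_lt_w1 : (1 : Ordinal.{0}) < ω₁ := Ordinal.one_lt_omega0.trans omega0_lt_omega_one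

theorem add_one_lt_w1 {α : Ordinal.{0}} (h : α < ω₁) : α + 1 < ω₁ := by
  have := (Cardinal.isSuccLimit_omega 1).add_one_lt h
  simpa using this

theorem exists_sg {A : Set X} (h : @MeasurableSet X (borel X) A) :
    ∃ α : Ordinal.{0}, α < ω₁ ∧ Sg α A := by
  rw [borel] at h
  induction h with
  | basic u hu => exact ⟨1, one_lt_w1, .isOpen hu⟩
  | empty => exact ⟨1, one_lt_w1, sg_empty le_rfl⟩
  | compl t _ ih =>
    obtain ⟨α, hα, h⟩ := ih
    exact ⟨α + 1, add_one_lt_w1 hα, h.compl⟩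
  | iUnion f _ ih =>
    choose α hα h using ih
    exact ⟨⨆ n, α n, iSup_lt_w1 hα, Sg.iUnion_nat (fun n => (h n).mono (le_iSup_w1 α n))⟩

theorem countable_Iio_w1 {α : Ordinal.{0}} (h : α < ω₁) : (Iio α).Countable := by
  rw [← le_aleph0_iff_set_countable, Cardinal.mk_Iio_ordinal, Cardinal.lift_le_aleph0,
    ← lt_aleph_one_iff, ← Cardinal.lt_ord]
  simpa using h

/-- Unions over disjoint open sets. -/
theorem Sg.iUnion_disjoint {K : Type v} {O : K → Set X}
    (hO : ∀ k, IsOpen (O k)) (hd : Pairwise (fun k l => Disjoint (O k) (O l)))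
    {α : Ordinal.{0}} (hα : 1 ≤ α) (hα' : α < ω₁) {A : K → Set X} {s : Set K}
    (hA : ∀ k ∈ s, Sg α (A k)) :
    Sg α (⋃ k ∈ s, O k ∩ A k) := by
  induction α using WellFoundedLT.induction generalizing A s with
  | _ α ih =>
    rcases hα.eq_or_lt with rfl | hlt
    · exact .isOpen (isOpen_biUnion fun k hk => (hO k).inter (sg_one.1 (hA k hk)))
    · have h' : ∀ k, ∃ (f : ℕ → Set X) (β : ℕ → Ordinal.{0}), k ∈ s → A k = (⋃ n, f n) ∧
          ∀ n, 1 ≤ β n ∧ β n < α ∧ Sg (β n) (f n)ᶜ := by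
        intro k
        by_cases hk : k ∈ s
        · obtain ⟨f, hf1, hf2⟩ := (sg_iff hlt).1 (hA k hk)
          choose β hβ1 hβ2 hβ3 using hf2
          exact ⟨f, β, fun _ => ⟨hf1, fun n => ⟨hβ1 n, hβ2 n, hβ3 n⟩⟩⟩
        · exact ⟨fun _ => ∅, fun _ => 0, fun h => absurd h hk⟩
      choose f β hfβ using h'
      have : Countable (Iio α) := countable_Iio_w1 hα'
      have key : (⋃ k ∈ s, O k ∩ A k) = ⋃ n : ℕ, ⋃ b : Iio α,
          ((⋃ k ∈ {k | k ∈ s ∧ β k n = b}, O k) ∩
            (⋃ k ∈ {k | k ∈ s ∧ β k n = b}, O k ∩ (f k n)ᶜ)ᶜ) := by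
        ext x
        simp only [mem_iUnion, mem_inter_iff, mem_compl_iff, exists_prop, mem_setOf_eq, not_exists,
          not_and, not_not]
        constructor
        · rintro ⟨k, hk, hxO, hxA⟩
          rw [(hfβ k hk).1, mem_iUnion] at hxA
          obtain ⟨n, hn⟩ := hxA
          refine ⟨n, ⟨β k n, ((hfβ k hk).2 n).2.1⟩, ⟨k, ⟨hk, rfl⟩, hxO⟩, ?_⟩
          intro l hl hxl
          have hkl : l = k := by
            by_contra hne
            exact (disjoint_left.1 (hd hne)) hxl hxO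
          rw [hkl]
          exact hn
        · rintro ⟨n, b, ⟨k, ⟨hk, hb⟩, hxO⟩, h⟩
          refine ⟨k, hk, hxO, ?_⟩
          rw [(hfβ k hk).1, mem_iUnion]
          exact ⟨n, h k ⟨hk, hb⟩ hxO⟩
      rw [key]
      refine Sg.iUnion_nat fun n => Sg.iUnion hα fun b => ?_
      by_cases hne : ∃ k, k ∈ s ∧ β k n = b
      · obtain ⟨k₀, hk₀, hb₀⟩ := hne
        have hb1 : 1 ≤ (b : Ordinal.{0}) := hb₀ ▸ ((hfβ k₀ hk₀).2 n).1
        refine Sg.inter ((Sg.isOpen (isOpen_biUnion fun k _ => hO k)).mono hα) ?_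
        have h1 := ih b b.2 hb1 (b.2.trans hα') (A := fun k => (f k n)ᶜ)
          (s := {k | k ∈ s ∧ β k n = b}) (fun k hk => by
            have := ((hfβ k hk.1).2 n).2.2
            rwa [hk.2] at this)
        exact h1.compl.mono (Order.add_one_le_of_lt b.2)
      · have : {k | k ∈ s ∧ β k n = b} = ∅ := by
          ext k
          simp only [mem_setOf_eq, mem_empty_iff_false, iff_false]
          exact fun hk => hne ⟨k, hk⟩
        rw [this]
        simpa using sg_empty hα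

end Metric

end Pool.Agent.Helper66.PF
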