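import Mathlib
import Pool.Agent.Helper66.PFSigma
import Pool.Agent.Helper66.PFIdeal

/-!
Point-finite Borel-additive families and the ideal of subfamilies of bounded class.
-/

set_option autoImplicit false

open Set Cardinal Ordinal

universe u v

namespace Pool.Agent.Helper66.PF

variable {X : Type u} [MetricSpace X] {ι : Type v}

/-- Point-finite Borel-additive indexed families. -/
structure PFB (F : ι → Set X) : Prop where
  fin : ∀ x, {i | x ∈ F i}.Finite
  meas : ∀ T : Set ι, @MeasurableSet X (borel X) (⋃ i ∈ T, F i)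

/-- The subfamilies `T` all of whose subfamilies have a union of class `α`, for some countable
`α`. -/
def Nul (F : ι → Set X) : Set (Set ι) :=
  {T | ∃ α : Ordinal.{0}, α < ω₁ ∧ ∀ T' ⊆ T, Sg α (⋃ i ∈ T', F i)}

theorem Nul.mono {F : ι → Set X} {A : Set ι} (hA : A ∈ Nul F) {B : Set ι} (hB : B ⊆ A) :
    B ∈ Nul F := by
  obtain ⟨α, hα, h⟩ := hA
  exact ⟨α, hα, fun T hT => h T (hT.trans hB)⟩

theorem Nul.iUnion_nat {F : ι → Set X} {A : ℕ → Set ι} (hA : ∀ n, A n ∈ Nul F) :
    (⋃ n, A n) ∈ Nul F := by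
  choose α hα h using hA
  refine ⟨⨆ n, α n, iSup_lt_w1 hα, fun T hT => ?_⟩
  have : (⋃ i ∈ T, F i) = ⋃ n, ⋃ i ∈ T ∩ A n, F i := by
    ext x
    simp only [mem_iUnion, mem_inter_iff, exists_prop]
    constructor
    · rintro ⟨i, hi, hx⟩
      obtain ⟨n, hn⟩ := mem_iUnion.1 (hT hi)
      exact ⟨n, i, ⟨hi, hn⟩, hx⟩
    · rintro ⟨n, i, ⟨hi, -⟩, hx⟩
      exact ⟨i, hi, hx⟩
  rw [this]
  exact Sg.iUnion_nat (fun n => (h n _ inter_subset_right).mono (le_iSup_w1 α n))

theorem Nul.empty (F : ι → Set X) : ∅ ∈ Nul F :=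
  ⟨1, one_lt_w1, fun T hT => by
    rw [subset_empty_iff.1 hT]
    simpa using sg_empty le_rfl⟩

theorem Nul.single {F : ι → Set X} (hF : PFB F) (i : ι) : {i} ∈ Nul F := by
  obtain ⟨α, hα, h⟩ := exists_sg (hF.meas {i})
  refine ⟨α, hα, fun T hT => ?_⟩
  rcases subset_singleton_iff_eq.1 hT with rfl | rfl
  · simpa using sg_empty h.one_le
  · exact h

/-- An uncountable set contains the range of an injection from an uncountable well-ordered set
with countable initial segments. -/
theorem exists_w1_embedding {α : Type v} {s : Set α} (hs : ¬ s.Countable) :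
    ∃ f : (ω₁ : Ordinal.{0}).ToType → α, Function.Injective f ∧ ∀ j, f j ∈ s := by
  rw [countable_iff_lt_aleph_one, not_lt] at hs
  have h1 : Cardinal.lift.{v} #(ω₁ : Ordinal.{0}).ToType ≤ Cardinal.lift.{0} #s := by
    rw [mk_toType, card_omega]
    simpa using hs
  obtain ⟨g⟩ := Cardinal.lift_mk_le'.1 h1
  exact ⟨fun j => (g j : α), fun a b h => g.injective (Subtype.ext h), fun j => (g j).2⟩

theorem exists_w1_real : ∃ r : (ω₁ : Ordinal.{0}).ToType → (ℕ → Bool), Function.Injective r := by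
  have h1 : #(ω₁ : Ordinal.{0}).ToType ≤ #(ℕ → Bool) := by
    rw [mk_toType, card_omega]
    simpa using aleph_one_le_continuum
  obtain ⟨g⟩ := h1
  exact ⟨g, g.injective⟩

/-- The initial segment of length `n` of a point of the Cantor space. -/
def ini (x : ℕ → Bool) (n : ℕ) : Σ n : ℕ, (Fin n → Bool) := ⟨n, fun i => x i⟩

theorem ini_eq {x y : ℕ → Bool} {n m : ℕ} : ini x n = ini y m ↔ n = m ∧ ∀ i < n, x i = y i := by
  unfold ini
  constructor
  · intro h
    obtain ⟨rfl, h2⟩ := Sigma.mk.inj_iff.1 h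
    refine ⟨rfl, fun i hi => ?_⟩
    exact congrFun (eq_of_heq h2) ⟨i, hi⟩
  · rintro ⟨rfl, h⟩
    congr 1
    funext i
    exact h i i.2

/-- The key lemma: an uncountable disjoint family of subfamilies cannot consist of sets outside the
ideal. -/
theorem Nul.sat {F : ι → Set X} (hF : PFB F) (𝒜 : Set (Set ι)) (h1 : ∀ A ∈ 𝒜, A ∉ Nul F)
    (hd : 𝒜.PairwiseDisjoint id) : 𝒜.Countable := by
  by_contra hunc
  obtain ⟨T, hTinj, hT⟩ := exists_w1_embedding hunc
  obtain ⟨r, hr⟩ := exists_w1_real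
  -- choose subfamilies of large class
  have h2 : ∀ j : (ω₁ : Ordinal.{0}).ToType, ∃ A ⊆ T j,
      ¬ Sg (ToType.toOrd j : Ordinal.{0}) (⋃ i ∈ A, F i) := by
    intro j
    by_contra hcon
    push Not at hcon
    exact h1 _ (hT j) ⟨_, (ToType.toOrd j).2, hcon⟩
  choose A hA1 hA2 using h2
  have hdis : ∀ j k, j ≠ k → Disjoint (A j) (A k) := fun j k hjk =>
    (hd (hT j) (hT k) (fun h => hjk (hTinj h))).mono (hA1 j) (hA1 k)
  let C : (Σ n : ℕ, (Fin n → Bool)) → Set ι := fun σ => ⋃ j ∈ {j | ini (r j) σ.1 = σ}, A j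
  have h3 : ∀ σ, ∃ α : Ordinal.{0}, α < ω₁ ∧ Sg α (⋃ i ∈ C σ, F i) := fun σ =>
    exists_sg (hF.meas _)
  choose α hα1 hα2 using h3
  set γ := ⨆ σ, α σ with hγ
  have hγ1 : γ < ω₁ := iSup_lt_w1 hα1
  have h4 : ∀ σ, Sg γ (⋃ i ∈ C σ, F i) := fun σ => (hα2 σ).mono (le_iSup_w1 α σ)
  have h5 : ∀ j, Sg (γ + 2) (⋃ i ∈ A j, F i) := by
    intro j
    have h6 : (⋃ i ∈ A j, F i) = ⋂ n : ℕ, ⋃ i ∈ C (ini (r j) n), F i := by
      ext x
      simp only [mem_iInter, mem_iUnion, exists_prop]
      constructor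
      · rintro ⟨i, hi, hx⟩ n
        exact ⟨i, mem_iUnion₂.2 ⟨j, rfl, hi⟩, hx⟩
      · intro h
        have h7 : ∀ n, ∃ i ∈ {i | x ∈ F i}, ∃ k, i ∈ A k ∧ ini (r k) n = ini (r j) n := by
          intro n
          obtain ⟨i, hi, hx⟩ := h n
          obtain ⟨k, hk, hik⟩ := mem_iUnion₂.1 hi
          exact ⟨i, hx, k, hik, hk⟩
        choose f hf g hg1 hg2 using h7
        have hfin : (range f).Finite := (hF.fin x).subset (range_subset_iff.2 hf)
        have : Finite (range f) := hfin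
        obtain ⟨⟨i, hi⟩, hinf⟩ := Finite.exists_infinite_fiber (rangeFactorization f)
        have hinf' : {n | f n = i}.Infinite := by
          rw [← Set.infinite_coe_iff]
          convert hinf using 3
          ext n
          simp [rangeFactorization, Subtype.ext_iff]
        obtain ⟨n₀, hn₀⟩ := hinf'.nonempty
        have hk : ∀ n, f n = i → g n = g n₀ := by
          intro n hn
          by_contra hne
          have := disjoint_left.1 (hdis _ _ hne) (hg1 n)
          rw [hn, ← hn₀] at this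
          exact this (hg1 n₀)
        have heq : r (g n₀) = r j := by
          funext m
          obtain ⟨n, hn, hmn⟩ := hinf'.exists_gt m
          have h8 := hg2 n
          rw [hk n hn, ini_eq] at h8
          exact h8.2 m hmn
        refine ⟨i, ?_, ?_⟩
        · have := hg1 n₀
          rw [hn₀, hr heq] at this
          exact this
        · have := hf n₀
          rw [hn₀] at this
          exact this
    rw [h6]
    exact Sg.iInter (h4 ⟨0, fun i => i.elim0⟩).one_le (fun n => h4 _)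
  have hγ2 : γ + 2 < ω₁ := by
    have := add_one_lt_w1 (add_one_lt_w1 hγ1)
    rwa [add_assoc, one_add_one_eq_two] at this
  have h9 := hA2 (ToType.mk ⟨γ + 2, hγ2⟩)
  apply h9
  have := h5 (ToType.mk ⟨γ + 2, hγ2⟩)
  simpa using this

theorem Nul.satIdeal {ι : Type u} {F : ι → Set X} (hF : PFB F) (h : Set.univ ∉ Nul F) :
    SatIdeal (Nul F) :=
  ⟨fun _ hA _ hB => Nul.mono hA hB, Nul.empty F, fun _ hA => Nul.iUnion_nat hA, Nul.single hF, h,
    Nul.sat hF⟩

end Pool.Agent.Helper66.PF
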