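import Mathlib
import Pool.Agent.Helper66.PFFam

/-!
The tree argument: the additivity of the ideal is at most the continuum.
-/

set_option autoImplicit false

open Set Cardinal Ordinal

universe u v

namespace Pool.Agent.Helper66.PF

theorem exists_bound {κ : Cardinal.{u}} (hκ : κ.IsRegular) {s : Set κ.ord.ToType} (hs : #s < κ) :
    ∃ b, ∀ a ∈ s, a < b := by
  by_contra h
  push Not at h
  have h1 : IsCofinal s := fun a => h a
  have h2 := Order.cof_le h1
  rw [Ordinal.cof_toType, hκ.cof_ord] at h2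
  exact absurd hs (not_lt.2 h2)

theorem exists_bound_w1 {s : Set (ω₁ : Ordinal.{0}).ToType} (hs : s.Countable) :
    ∃ b, ∀ a ∈ s, a < b := by
  by_contra h
  push Not at h
  have h1 : IsCofinal s := fun a => h a
  have h2 := Order.cof_le h1
  rw [Ordinal.cof_toType, Cardinal.cof_omega_one] at h2
  exact absurd (lt_aleph_one_iff.2 hs.le_aleph0) (not_lt.2 h2)

theorem countable_Iic_w1 (j : (ω₁ : Ordinal.{0}).ToType) : (Iic j).Countable := by
  have h1 : #(Iio j) < ℵ₁ := by
    have := mk_Iio_lt j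
    simpa using this
  have h2 : Iic j = Iio j ∪ {j} := by
    ext a; simp [le_iff_lt_or_eq]
  rw [h2]
  exact (le_aleph0_iff_set_countable.1 (lt_aleph_one_iff.1 h1)).union (countable_singleton _)

theorem tree {ι : Type u} {I : Set (Set ι)} (hI : SatIdeal I)
    (T : (ω₁ : Ordinal.{0}).ToType → Set ι)
    (hT : ∀ a b, (∀ j, a ∈ T j ↔ b ∈ T j) → a = b)
    (hadd : ∀ F ⊆ I, #F ≤ 𝔠 → ⋃₀ F ∈ I) : False := by
  let cls : (ω₁ : Ordinal.{0}).ToType → ι → Set ι := fun j z =>
    {z' | ∀ k ≤ j, (z ∈ T k ↔ z' ∈ T k)}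
  let N : Set (Set ι) := {C | C ∈ I ∧ ∃ j z, C = cls j z}
  have hN : #N ≤ 𝔠 := by
    let G : (Σ j : (ω₁ : Ordinal.{0}).ToType, (Iic j → Prop)) → Set ι := fun p =>
      {z' | ∀ k : Iic p.1, (p.2 k ↔ z' ∈ T k)}
    have h1 : N ⊆ range G := by
      rintro C ⟨-, j, z, rfl⟩
      refine ⟨⟨j, fun k => z ∈ T k⟩, ?_⟩
      ext z'
      exact ⟨fun h k hk => h ⟨k, hk⟩, fun h k => h k k.2⟩
    have h2 : #(Σ j : (ω₁ : Ordinal.{0}).ToType, (Iic j → Prop)) ≤ 𝔠 := by
      rw [mk_sigma]
      refine (Cardinal.sum_le_sum _ (fun _ => 𝔠) (fun j => ?_)).trans ?_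
      · rw [← two_power_aleph0, mk_pi, Cardinal.prod_const']
        have h3 : #Prop = 2 := by simp
        rw [h3]
        exact Cardinal.power_le_power_left two_ne_zero (countable_Iic_w1 j).le_aleph0
      · rw [Cardinal.sum_const', mk_toType, card_omega]
        refine (mul_le_max_of_aleph0_le_right aleph0_le_continuum).trans (max_le ?_ le_rfl)
        exact aleph_one_le_continuum
    have h4 : #(range G) ≤ 𝔠 := by
      have h5 := Cardinal.mk_range_le_lift (f := G)
      have h6 := h5.trans (Cardinal.lift_le.2 h2)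
      simpa using h6
    exact (mk_le_mk_of_subset h1).trans h4
  have hN' : ⋃₀ N ∈ I := hadd N (fun C hC => hC.1) hN
  set P : Set ι := (⋃₀ N)ᶜ with hP
  have hPI : P ∉ I := by
    intro h
    apply hI.univ
    rw [← compl_union_self (⋃₀ N)]
    exact hI.union h hN'
  have hpos : ∀ z ∈ P, ∀ j, cls j z ∉ I := by
    intro z hz j hj
    apply hz
    exact ⟨cls j z, ⟨hj, j, z, rfl⟩, fun k _ => Iff.rfl⟩
  -- the splitting levels of a point
  let D : ι → Set (ω₁ : Ordinal.{0}).ToType := fun z =>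
    {j | ∃ z' ∈ P, (∀ k < j, (z ∈ T k ↔ z' ∈ T k)) ∧ ¬ (z ∈ T j ↔ z' ∈ T j)}
  have hD : ∀ z, (D z).Countable := by
    intro z
    have h1 : ∀ j, ∃ z', j ∈ D z → z' ∈ P ∧ (∀ k < j, (z ∈ T k ↔ z' ∈ T k)) ∧
        ¬ (z ∈ T j ↔ z' ∈ T j) := by
      intro j
      by_cases hj : j ∈ D z
      · obtain ⟨z', h⟩ := hj
        exact ⟨z', fun _ => h⟩
      · exact ⟨z, fun h => absurd h hj⟩
    choose w hw using h1
    apply hI.sat' (A := fun j => cls j (w j)) (s := D z)
    · intro j hj
      exact hpos _ (hw j hj).1 j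
    · have key : ∀ j ∈ D z, ∀ k ∈ D z, j < k → Disjoint (cls j (w j)) (cls k (w k)) := by
        intro j hj k hk hjk
        rw [disjoint_left]
        intro y hy hy'
        have e1 := hy j le_rfl
        have e2 := hy' j hjk.le
        have e3 := (hw k hk).2.1 j hjk
        have e4 := (hw j hj).2.2
        exact e4 (e3.trans (e2.trans e1.symm))
      intro j hj k hk hne
      rcases lt_or_gt_of_ne hne with h | h
      · exact key j hj k hk h
      · exact (key k hk j hj h).symm
  choose ξ hξ using fun z => exists_bound_w1 (hD z)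
  have hsep : ∀ z ∈ P, ∀ z' ∈ P, z ≠ z' → ∃ j < ξ z, ¬ (z ∈ T j ↔ z' ∈ T j) := by
    intro z hz z' hz' hne
    have hne' : {j | ¬ (z ∈ T j ↔ z' ∈ T j)}.Nonempty := by
      by_contra hcon
      rw [not_nonempty_iff_eq_empty] at hcon
      apply hne
      apply hT
      intro j
      by_contra hj
      have : j ∈ {j | ¬ (z ∈ T j ↔ z' ∈ T j)} := hj
      rw [hcon] at this
      exact this
    obtain ⟨j, hj, hj'⟩ := WellFounded.has_min (wellFounded_lt (α := (ω₁ : Ordinal.{0}).ToType))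
      _ hne'
    refine ⟨j, hξ z j ⟨z', hz', fun k hk => ?_, hj⟩, hj⟩
    by_contra hk'
    exact hj' k hk' hk
  apply hPI
  apply hI.countable
  apply hI.sat' (A := fun z => cls (ξ z) z) (s := P)
  · intro z hz
    exact hpos z hz _
  · have key : ∀ z ∈ P, ∀ z' ∈ P, z ≠ z' → ξ z ≤ ξ z' →
        Disjoint (cls (ξ z) z) (cls (ξ z') z') := by
      intro z hz z' hz' hne hle
      rw [disjoint_left]
      intro y hy hy'
      obtain ⟨j, hj, hj'⟩ := hsep z hz z' hz' hne
      exact hj' ((hy j hj.le).trans (hy' j (hj.le.trans hle)).symm)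
    intro z hz z' hz' hne
    rcases le_total (ξ z) (ξ z') with h | h
    · exact key z hz z' hz' hne h
    · exact (key z' hz' z hz hne.symm h).symm

end Pool.Agent.Helper66.PF
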