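import Mathlib
import Pool.Agent.Helper66.PFTree

/-!
The case of an uncountable separable metric space all of whose subsets are of bounded class.
-/

set_option autoImplicit false

open Set Cardinal Ordinal TopologicalSpace

universe u v

namespace Pool.Agent.Helper66.PF

theorem isolate {ι : Type u} {r : ι → (ℕ → Bool)} (hr : Function.Injective r) {E : Set ι}
    (hE : E.Finite) (i : ι) : ∃ n, ∀ i' ∈ E, ini (r i') n = ini (r i) n → i' = i := by
  have h1 : ∀ i' : ι, ∃ n, i' ≠ i → r i' n ≠ r i n := by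
    intro i'
    by_cases h : i' = i
    · exact ⟨0, fun h' => absurd h h'⟩
    · obtain ⟨n, hn⟩ := Function.ne_iff.1 (fun h2 => h (hr h2))
      exact ⟨n, fun _ => hn⟩
  choose m hm using h1
  obtain ⟨n, hn⟩ := (hE.image m).bddAbove
  refine ⟨n + 1, fun i' hi' h => ?_⟩
  by_contra hne
  rw [ini_eq] at h
  exact hm i' hne (h.2 (m i') (Nat.lt_succ_of_le (hn ⟨i', hi', rfl⟩)))

theorem case4 {X : Type u} [MetricSpace X] {ι : Type u} {G : ι → Set X} (hG : PFB G)
    (T : (ω₁ : Ordinal.{0}).ToType → Set ι)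
    (hsep : ∀ a b, (∀ j, a ∈ T j ↔ b ∈ T j) → a = b)
    (hT : ∀ j, ¬ Sg (ToType.toOrd j : Ordinal.{0}) (⋃ i ∈ T j, G i))
    {Y : Type u} [MetricSpace Y] [SecondCountableTopology Y]
    (w : (ω₁ : Ordinal.{0}).ToType → Y) (hw : Function.Injective w)
    {γ : Ordinal.{0}} (hγ : γ < ω₁) (hY : ∀ A : Set Y, Sg γ A) : False := by
  -- the index set has at most continuum many elements
  have hcard : #ι ≤ 𝔠 := by
    have h1 : #(Set Y) ≤ 𝔠 := by
      have h2 : borel Y = MeasurableSpace.generateFrom (countableBasis Y) :=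
        borel_eq_generateFrom_of_subbasis (eq_generateFrom_countableBasis Y)
      have h3 : #{t | @MeasurableSet Y (MeasurableSpace.generateFrom (countableBasis Y)) t} ≤ 𝔠 :=
        MeasurableSpace.cardinal_measurableSet_le_continuum
          ((countable_countableBasis Y).le_aleph0.trans aleph0_le_continuum)
      have h4 : {t | @MeasurableSet Y (MeasurableSpace.generateFrom (countableBasis Y)) t} =
          Set.univ := by
        ext t
        simp only [mem_univ, iff_true]
        have := (hY t).measurableSet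
        rw [h2] at this
        exact this
      rw [h4, mk_univ] at h3
      exact h3
    refine le_trans ?_ h1
    refine Cardinal.mk_le_of_injective (f := fun i => w '' {j | i ∈ T j}) ?_
    intro a b hab
    have := hw.image_injective hab
    apply hsep
    intro j
    exact Set.ext_iff.1 this j
  obtain ⟨r⟩ : Nonempty (ι ↪ (ℕ → Bool)) := by
    have h1 : Cardinal.lift.{0} #ι ≤ Cardinal.lift.{u} #(ℕ → Bool) := by
      simpa using hcard
    exact Cardinal.lift_mk_le'.1 h1
  have hr := r.injective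
  let C : (Σ n : ℕ, (Fin n → Bool)) → Set ι := fun σ => {i | ini (r i) σ.1 = σ}
  have hrect : ∀ (A : Set Y) (B : Set X), @MeasurableSet Y (borel Y) A →
      @MeasurableSet X (borel X) B → @MeasurableSet (Y × X) (borel (Y × X)) (A ×ˢ B) := by
    intro A B hA hB
    let _ := borel Y
    let _ := borel X
    let _ := borel (Y × X)
    have : BorelSpace Y := ⟨rfl⟩
    have : BorelSpace X := ⟨rfl⟩
    have : BorelSpace (Y × X) := ⟨rfl⟩
    have h1 : Measurable (Prod.fst : Y × X → Y) := continuous_fst.borel_measurable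
    have h2 : Measurable (Prod.snd : Y × X → X) := continuous_snd.borel_measurable
    exact (h1 hA).inter (h2 hB)
  have key : ∀ α : Ordinal.{0}, 1 ≤ α → α < ω₁ → ∀ (S : Set ι) (A : ι → Set Y),
      (∀ i ∈ S, Sg α (A i)) → @MeasurableSet (Y × X) (borel (Y × X)) (⋃ i ∈ S, A i ×ˢ G i) := by
    intro α
    induction α using WellFoundedLT.induction with
    | _ α ih =>
      intro hα hα' S A hA
      rcases hα.eq_or_lt with rfl | hlt
      · have h1 : (⋃ i ∈ S, A i ×ˢ G i) =
            ⋃ b ∈ countableBasis Y, b ×ˢ (⋃ i ∈ {i | i ∈ S ∧ b ⊆ A i}, G i) := by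
          ext ⟨y, x⟩
          simp only [mem_iUnion, mem_prod, exists_prop, mem_ofPred_eq]
          constructor
          · rintro ⟨i, hi, hy, hx⟩
            obtain ⟨b, hb, hyb, hbA⟩ := (isBasis_countableBasis Y).exists_subset_of_mem_open hy
              (sg_one.1 (hA i hi))
            exact ⟨b, hb, hyb, i, ⟨hi, hbA⟩, hx⟩
          · rintro ⟨b, hb, hyb, i, ⟨hi, hbA⟩, hx⟩
            exact ⟨i, hi, hbA hyb, hx⟩
        rw [h1]
        refine MeasurableSet.biUnion (countable_countableBasis Y) (fun b hb => ?_)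
        refine hrect _ _ ?_ (hG.meas _)
        exact (Sg.isOpen (isOpen_of_mem_countableBasis hb)).measurableSet
      · have h' : ∀ i, ∃ (f : ℕ → Set Y) (β : ℕ → Ordinal.{0}), i ∈ S → A i = (⋃ n, f n) ∧
            ∀ n, 1 ≤ β n ∧ β n < α ∧ Sg (β n) (f n)ᶜ := by
          intro i
          by_cases hi : i ∈ S
          · obtain ⟨f, hf1, hf2⟩ := (sg_iff hlt).1 (hA i hi)
            choose β hβ1 hβ2 hβ3 using hf2
            exact ⟨f, β, fun _ => ⟨hf1, fun n => ⟨hβ1 n, hβ2 n, hβ3 n⟩⟩⟩
          · exact ⟨fun _ => ∅, fun _ => 0, fun h => absurd h hi⟩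
        choose f β hfβ using h'
        have : Countable (Iio α) := countable_Iio_w1 hα'
        have h1 : (⋃ i ∈ S, A i ×ˢ G i) = ⋃ n : ℕ, ⋃ b : Iio α,
            ⋃ i ∈ {i | i ∈ S ∧ β i n = b}, (f i n) ×ˢ G i := by
          ext ⟨y, x⟩
          simp only [mem_iUnion, mem_prod, exists_prop, mem_ofPred_eq]
          constructor
          · rintro ⟨i, hi, hy, hx⟩
            rw [(hfβ i hi).1, mem_iUnion] at hy
            obtain ⟨n, hn⟩ := hy
            exact ⟨n, ⟨β i n, ((hfβ i hi).2 n).2.1⟩, i, ⟨hi, rfl⟩, hn, hx⟩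
          · rintro ⟨n, b, i, ⟨hi, -⟩, hy, hx⟩
            refine ⟨i, hi, ?_, hx⟩
            rw [(hfβ i hi).1, mem_iUnion]
            exact ⟨n, hy⟩
        rw [h1]
        refine MeasurableSet.iUnion fun n => MeasurableSet.iUnion fun b => ?_
        set S' : Set ι := {i | i ∈ S ∧ β i n = b} with hS'
        have h2 : (⋃ i ∈ S', (f i n) ×ˢ G i) = ⋃ σ : (Σ n : ℕ, (Fin n → Bool)),
            ((Set.univ : Set Y) ×ˢ (⋃ i ∈ S' ∩ C σ, G i)) \
              (⋃ i ∈ S' ∩ C σ, (f i n)ᶜ ×ˢ G i) := by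
          ext ⟨y, x⟩
          constructor
          · intro h
            obtain ⟨i, hi, hy, hx⟩ := mem_iUnion₂.1 h
            obtain ⟨m, hm⟩ := isolate hr (hG.fin x) i
            refine mem_iUnion.2 ⟨ini (r i) m, ⟨trivial, mem_iUnion₂.2 ⟨i, ⟨hi, rfl⟩, hx⟩⟩, ?_⟩
            intro h3
            obtain ⟨i', ⟨hi', hi''⟩, hy', hx'⟩ := mem_iUnion₂.1 h3
            have h4 : i' = i := hm i' hx' hi''
            rw [h4] at hy'
            exact hy' hy
          · intro h
            obtain ⟨σ, ⟨-, hx⟩, h3⟩ := mem_iUnion.1 h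
            obtain ⟨i, hi, hx⟩ := mem_iUnion₂.1 hx
            refine mem_iUnion₂.2 ⟨i, hi.1, ?_, hx⟩
            by_contra hy
            exact h3 (mem_iUnion₂.2 ⟨i, hi, hy, hx⟩)
        rw [h2]
        refine MeasurableSet.iUnion fun σ => MeasurableSet.diff
          (hrect _ _ MeasurableSet.univ (hG.meas _)) ?_
        by_cases hne : ∃ i, i ∈ S'
        · obtain ⟨i₀, hi₀, hb₀⟩ := hne
          have hb1 : 1 ≤ (b : Ordinal.{0}) := hb₀ ▸ ((hfβ i₀ hi₀).2 n).1
          exact ih b b.2 hb1 (b.2.trans hα') (S' ∩ C σ) (fun i => (f i n)ᶜ) (fun i hi => by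
            have := ((hfβ i hi.1.1).2 n).2.2
            rwa [hi.1.2] at this)
        · have h5 : S' ∩ C σ = ∅ := by
            ext i
            simp only [mem_inter_iff, mem_empty_iff_false, iff_false, not_and]
            exact fun hi => absurd ⟨i, hi⟩ hne
          rw [h5]
          simp
  have hγ1 : 1 ≤ γ := (hY ∅).one_le
  have hZ := key γ hγ1 hγ Set.univ (fun i => w '' {j | i ∈ T j}) (fun i _ => hY _)
  obtain ⟨δ, hδ, hδ'⟩ := exists_sg hZ
  set j : (ω₁ : Ordinal.{0}).ToType := ToType.mk ⟨δ, hδ⟩ with hj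
  have h1 : Continuous (fun x : X => (w j, x)) := by fun_prop
  have h2 := hδ'.preimage h1
  have h3 : (fun x : X => (w j, x)) ⁻¹' (⋃ i ∈ Set.univ, (w '' {j | i ∈ T j}) ×ˢ G i) =
      ⋃ i ∈ T j, G i := by
    ext x
    simp only [mem_univ, iUnion_true, mem_preimage, mem_iUnion, mem_prod, exists_prop]
    constructor
    · rintro ⟨i, ⟨k, hk, hkj⟩, hx⟩
      rw [hw hkj] at hk
      exact ⟨i, hk, hx⟩
    · rintro ⟨i, hi, hx⟩
      exact ⟨i, ⟨j, hi, rfl⟩, hx⟩
  rw [h3] at h2
  apply hT j
  have h4 : (ToType.toOrd j : Ordinal.{0}) = δ := by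
    rw [hj]; simp
  rw [h4]
  exact h2

end Pool.Agent.Helper66.PF
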