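import Mathlib
import Pool.Agent.Helper66.PFCase4

/-!
The dichotomy theorem for point-finite Borel-additive families.
-/

set_option autoImplicit false

open Set Cardinal Ordinal TopologicalSpace

universe u v

namespace Pool.Agent.Helper66.PF

/-- Collapsing the index set to types. -/
theorem collapse {X : Type u} [MetricSpace X] {ι : Type u} {F : ι → Set X} (hF : PFB F)
    (h : ¬ ∃ α : Ordinal.{0}, α < ω₁ ∧ ∀ T : Set ι, Sg α (⋃ i ∈ T, F i)) :
    ∃ (κι : Type u) (G : κι → Set X) (T : (ω₁ : Ordinal.{0}).ToType → Set κι),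
      #κι ≤ #ι ∧ PFB G ∧ (∀ a b, (∀ j, a ∈ T j ↔ b ∈ T j) → a = b) ∧
      (∀ j, ¬ Sg (ToType.toOrd j : Ordinal.{0}) (⋃ i ∈ T j, G i)) := by
  push Not at h
  choose! T₀ hT₀ using h
  let s : Setoid ι := ⟨fun a b => ∀ j : (ω₁ : Ordinal.{0}).ToType,
    a ∈ T₀ (ToType.toOrd j) ↔ b ∈ T₀ (ToType.toOrd j),
    fun a j => Iff.rfl, fun h j => (h j).symm, fun h h' j => (h j).trans (h' j)⟩
  let q : ι → Quotient s := Quotient.mk s
  have hU : ∀ T' : Set (Quotient s), (⋃ c ∈ T', ⋃ i ∈ {i | q i = c}, F i) =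
      ⋃ i ∈ q ⁻¹' T', F i := by
    intro T'
    ext x
    simp only [mem_iUnion, mem_ofPred_eq, exists_prop, mem_preimage]
    constructor
    · rintro ⟨c, hc, i, rfl, hx⟩
      exact ⟨i, hc, hx⟩
    · rintro ⟨i, hi, hx⟩
      exact ⟨q i, hi, i, rfl, hx⟩
  refine ⟨Quotient s, fun c => ⋃ i ∈ {i | q i = c}, F i,
    fun j => q '' T₀ (ToType.toOrd j), mk_quotient_le, ⟨?_, ?_⟩, ?_, ?_⟩
  · intro x
    refine ((hF.fin x).image q).subset ?_
    intro c hc
    obtain ⟨i, hi, hx⟩ := mem_iUnion₂.1 hc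
    exact ⟨i, hx, hi⟩
  · intro T'
    rw [hU]
    exact hF.meas _
  · intro a b
    refine Quotient.inductionOn₂ a b (fun i i' h => ?_)
    apply Quotient.sound
    intro j
    have key : ∀ i : ι, q i ∈ q '' T₀ (ToType.toOrd j) ↔ i ∈ T₀ (ToType.toOrd j) := by
      intro i
      constructor
      · rintro ⟨i', hi', hii'⟩
        exact ((Quotient.exact hii') j).1 hi'
      · intro hi
        exact ⟨i, hi, rfl⟩
    exact (key i).symm.trans ((h j).trans (key i'))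
  · intro j
    have : q ⁻¹' (q '' T₀ (ToType.toOrd j)) = T₀ (ToType.toOrd j) := by
      ext i
      constructor
      · rintro ⟨i', hi', hii'⟩
        exact ((Quotient.exact hii') j).1 hi'
      · intro hi
        exact ⟨i, hi, rfl⟩
    rw [hU, this]
    exact hT₀ _ (ToType.toOrd j).2

/-- The data obtained from a family that is not of bounded class. -/
theorem data {X : Type u} [MetricSpace X] {ι : Type u} {F : ι → Set X} (hF : PFB F)
    (h : ¬ ∃ α : Ordinal.{0}, α < ω₁ ∧ ∀ T : Set ι, Sg α (⋃ i ∈ T, F i)) :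
    ∃ (κι : Type u) (G : κι → Set X) (T : (ω₁ : Ordinal.{0}).ToType → Set κι) (κ : Cardinal.{u}),
      PFB G ∧ (∀ a b, (∀ j, a ∈ T j ↔ b ∈ T j) → a = b) ∧
      (∀ j, ¬ Sg (ToType.toOrd j : Ordinal.{0}) (⋃ i ∈ T j, G i)) ∧
      SatIdeal (Nul G) ∧ QuasiMeasurable κ ∧ κ ≤ #ι ∧ κ ≤ 𝔠 ∧
      (∀ N ⊆ Nul G, #N < κ → ⋃₀ N ∈ Nul G) := by
  obtain ⟨κι, G, T, hcard, hG, hsep, hT⟩ := collapse hF h
  have huniv : Set.univ ∉ Nul G := by
    rintro ⟨α, hα, h1⟩
    apply hT (ToType.mk ⟨α, hα⟩)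
    have := h1 (T (ToType.mk ⟨α, hα⟩)) (subset_univ _)
    simpa using this
  have hI : SatIdeal (Nul G) := Nul.satIdeal hG huniv
  obtain ⟨κ, hκ, hκι, hadd, -⟩ := hI.exists_add
  refine ⟨κι, G, T, κ, hG, hsep, hT, hI, hκ, hκι.trans hcard, ?_, hadd⟩
  by_contra hc
  rw [not_le] at hc
  exact tree hI T hsep (fun F hF hF' => hadd F hF (hF'.trans_lt hc))

/-- In a separable metric space of cardinality at most `ℵ₁` all of whose subsets are Borel, the
classes of the subsets are bounded. -/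
theorem bounded_of_card {Y : Type u} [MetricSpace Y] (hc : #Y ≤ ℵ₁)
    (hY : ∀ A : Set Y, @MeasurableSet Y (borel Y) A) :
    ∃ γ : Ordinal.{0}, γ < ω₁ ∧ ∀ A : Set Y, Sg γ A := by
  have hF : PFB (fun y : Y => ({y} : Set Y)) := by
    refine ⟨fun x => ?_, fun T => hY _⟩
    refine (finite_singleton x).subset ?_
    intro i hi
    exact (mem_singleton_iff.1 hi).symm
  by_contra hcon
  have h : ¬ ∃ α : Ordinal.{0}, α < ω₁ ∧ ∀ T : Set Y, Sg α (⋃ i ∈ T, ({i} : Set Y)) := by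
    rintro ⟨α, hα, h⟩
    apply hcon
    refine ⟨α, hα, fun A => ?_⟩
    have := h A
    rwa [biUnion_of_singleton] at this
  obtain ⟨-, -, -, κ, -, -, -, -, hκ, hκ', -, -⟩ := data hF h
  exact absurd (hκ'.trans hc) (not_le.2 hκ.aleph_one_lt)

end Pool.Agent.Helper66.PF
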