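import Mathlib
import Pool.Agent.Helper66.PFMain

/-!
The density of the space exceeds the quasi-measurable cardinal.
-/

set_option autoImplicit false

open Set Cardinal Ordinal TopologicalSpace

universe u v

namespace Pool.Agent.Helper66.PF

section

variable {X : Type u} [MetricSpace X] {ι : Type u} {G : ι → Set X} {κ : Cardinal.{u}}

theorem small_union (hadd : ∀ N ⊆ Nul G, #N < κ → ⋃₀ N ∈ Nul G) (b : κ.ord.ToType)
    {A : κ.ord.ToType → Set ι} (hA : ∀ k < b, A k ∈ Nul G) : (⋃ k ∈ Iio b, A k) ∈ Nul G := by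
  rw [← sUnion_image]
  refine hadd _ ?_ (mk_image_le.trans_lt (by simpa using mk_Iio_lt b))
  rintro _ ⟨k, hk, rfl⟩
  exact hA k hk

theorem claimC (hG : PFB G) (T : (ω₁ : Ordinal.{0}).ToType → Set ι)
    (hsep : ∀ a b, (∀ j, a ∈ T j ↔ b ∈ T j) → a = b)
    (hT : ∀ j, ¬ Sg (ToType.toOrd j : Ordinal.{0}) (⋃ i ∈ T j, G i))
    (hI : SatIdeal (Nul G)) (hadd : ∀ N ⊆ Nul G, #N < κ → ⋃₀ N ∈ Nul G)
    {d : κ.ord.ToType → X} (ρ : ℕ → X → κ.ord.ToType)
    (hρ : ∀ n x, dist x (d (ρ n x)) < 1 / ((n : ℝ) + 1))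
    (xz : ι → X) {Q : Set ι} (hxz : ∀ z ∈ Q, xz z ∈ G z) (β : κ.ord.ToType)
    (hQ : ∀ z ∈ Q, ∀ n, ρ n (xz z) < β) : Q ∈ Nul G := by
  by_contra hQI
  set V : ℕ → Set κ.ord.ToType := fun n => {k | {z | z ∈ Q ∧ ρ n (xz z) = k} ∉ Nul G} with hV
  have hVc : ∀ n, (V n).Countable := by
    intro n
    apply hI.sat' (A := fun k => {z | z ∈ Q ∧ ρ n (xz z) = k}) (s := V n) (fun k hk => hk)
    intro k _ l _ hkl
    rw [disjoint_left]
    rintro z ⟨-, h1⟩ ⟨-, h2⟩
    exact hkl (h1.symm.trans h2)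
  have h1 : ∀ n, {z | z ∈ Q ∧ ρ n (xz z) ∉ V n} ∈ Nul G := by
    intro n
    have h2 := small_union (G := G) hadd β (A := fun k => {z | (z ∈ Q ∧ ρ n (xz z) = k) ∧ k ∉ V n})
      (fun k _ => by
        by_cases hk : k ∈ V n
        · have : {z | (z ∈ Q ∧ ρ n (xz z) = k) ∧ k ∉ V n} = ∅ := by
            ext z; simp [hk]
          rw [this]
          exact hI.empty
        · have : {z | z ∈ Q ∧ ρ n (xz z) = k} ∈ Nul G := by
            by_contra h; exact hk h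
          exact hI.mono _ this _ (fun z hz => hz.1))
    refine hI.mono _ h2 _ ?_
    rintro z ⟨hz, hz'⟩
    exact mem_iUnion₂.2 ⟨ρ n (xz z), hQ z hz n, ⟨hz, rfl⟩, hz'⟩
  set Q' : Set ι := {z | z ∈ Q ∧ ∀ n, ρ n (xz z) ∈ V n} with hQ'
  have hQ'I : Q' ∉ Nul G := by
    intro h
    apply hQI
    refine hI.mono _ (hI.union h (hI.iUnion_nat _ h1)) _ ?_
    intro z hz
    by_cases h2 : ∀ n, ρ n (xz z) ∈ V n
    · exact Or.inl ⟨hz, h2⟩
    · push Not at h2
      obtain ⟨n, hn⟩ := h2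
      exact Or.inr (mem_iUnion.2 ⟨n, hz, hn⟩)
  have hQ'u : ¬ Q'.Countable := fun h => hQ'I (hI.countable h)
  obtain ⟨w₀, hw₀, hw₀'⟩ := exists_w1_embedding hQ'u
  obtain ⟨r, hr⟩ := exists_w1_real
  have h2 : ∀ j, ∃ n, ∀ i' ∈ {k | xz (w₀ j) ∈ G (w₀ k)}, ini (r i') n = ini (r j) n → i' = j := by
    intro j
    apply isolate hr
    exact (hG.fin (xz (w₀ j))).preimage hw₀.injOn
  choose m hm using h2
  obtain ⟨σ, hσ⟩ : ∃ σ : (Σ n : ℕ, (Fin n → Bool)), ¬ {j | ini (r j) (m j) = σ}.Countable := by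
    by_contra hcon
    push Not at hcon
    have h3 : (Set.univ : Set (ω₁ : Ordinal.{0}).ToType) = ⋃ σ, {j | ini (r j) (m j) = σ} := by
      ext j; simp
    have h4 : (Set.univ : Set (ω₁ : Ordinal.{0}).ToType).Countable := by
      rw [h3]; exact countable_iUnion hcon
    have h5 := h4.le_aleph0
    rw [mk_univ, mk_toType, card_omega] at h5
    exact absurd h5 (not_le.2 aleph0_lt_aleph_one)
  set J' : Set (ω₁ : Ordinal.{0}).ToType := {j | ini (r j) (m j) = σ} with hJ'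
  have hfree : ∀ j ∈ J', ∀ j' ∈ J', xz (w₀ j) ∈ G (w₀ j') → j' = j := by
    intro j hj j' hj' h
    apply hm j j' h
    have e1 : ini (r j) (m j) = σ := hj
    have e2 : ini (r j') (m j') = σ := hj'
    have e3 : m j = m j' := (ini_eq.1 (e1.trans e2.symm)).1
    rw [e1, e3, e2]
  set W : Set X := (fun j => xz (w₀ j)) '' J' with hW
  have hWsep : IsSeparable W := by
    refine ⟨d '' (⋃ n, V n), (countable_iUnion hVc).image d, ?_⟩
    rintro _ ⟨j, hj, rfl⟩
    rw [Metric.mem_closure_iff]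
    intro ε hε
    obtain ⟨n, hn⟩ := exists_nat_one_div_lt hε
    exact ⟨d (ρ n (xz (w₀ j))), ⟨_, mem_iUnion.2 ⟨n, (hw₀' j).2 n⟩, rfl⟩, (hρ n _).trans hn⟩
  have hSep : SeparableSpace W := hWsep.separableSpace
  have hSC : SecondCountableTopology W := UniformSpace.secondCountable_of_separable W
  have hcard : #W ≤ ℵ₁ := by
    have h3 : Cardinal.lift.{0} #W ≤ Cardinal.lift.{u} #J' := by
      exact Cardinal.mk_image_le_lift
    have h4 : #J' ≤ ℵ₁ := by
      refine (mk_set_le J').trans ?_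
      rw [mk_toType, card_omega]
    have h5 := h3.trans (Cardinal.lift_le.2 h4)
    simpa using h5
  have hY : ∀ A : Set W, @MeasurableSet W (borel W) A := by
    intro A
    have h3 : A = (Subtype.val : W → X) ⁻¹'
        (⋃ i ∈ w₀ '' {j | j ∈ J' ∧ xz (w₀ j) ∈ Subtype.val '' A}, G i) := by
      ext ⟨y, hy⟩
      constructor
      · intro hyA
        obtain ⟨j, hj, rfl⟩ := hy
        refine mem_iUnion₂.2 ⟨w₀ j, ⟨j, ⟨hj, ⟨_, hyA, rfl⟩⟩, rfl⟩, ?_⟩
        exact hxz _ (hw₀' j).1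
      · intro h
        obtain ⟨_, ⟨j', ⟨hj', ⟨y', hy'A, hy'⟩⟩, rfl⟩, h4⟩ := mem_iUnion₂.1 h
        obtain ⟨j, hj, rfl⟩ := hy
        have h5 := hfree j hj j' hj' h4
        subst h5
        have h6 : y' = ⟨xz (w₀ j'), ⟨j', hj', rfl⟩⟩ := Subtype.ext hy'
        rw [← h6]
        exact hy'A
    rw [h3]
    have h4 := hG.meas (w₀ '' {j | j ∈ J' ∧ xz (w₀ j) ∈ Subtype.val '' A})
    let _ := borel X
    let _ := borel W
    have : BorelSpace X := ⟨rfl⟩
    have : BorelSpace W := ⟨rfl⟩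
    have h5 : Measurable (Subtype.val : W → X) := continuous_subtype_val.borel_measurable
    exact h5 h4
  obtain ⟨γ, hγ, hγ'⟩ := bounded_of_card hcard hY
  obtain ⟨g, hg, hg'⟩ := exists_w1_embedding hσ
  refine case4 hG T hsep hT (Y := W) (fun j => ⟨xz (w₀ (g j)), ⟨g j, hg' j, rfl⟩⟩) ?_ hγ hγ'
  intro a b hab
  have h3 : xz (w₀ (g a)) = xz (w₀ (g b)) := congrArg Subtype.val hab
  apply hg
  apply hfree (g b) (hg' b) (g a) (hg' a)
  rw [← h3]
  exact hxz _ (hw₀' _).1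

theorem dense_false (hG : PFB G) (T : (ω₁ : Ordinal.{0}).ToType → Set ι)
    (hsep : ∀ a b, (∀ j, a ∈ T j ↔ b ∈ T j) → a = b)
    (hT : ∀ j, ¬ Sg (ToType.toOrd j : Ordinal.{0}) (⋃ i ∈ T j, G i))
    (hI : SatIdeal (Nul G)) (hκ : QuasiMeasurable κ)
    (hadd : ∀ N ⊆ Nul G, #N < κ → ⋃₀ N ∈ Nul G)
    (d : κ.ord.ToType → X) (hd : DenseRange d) : False := by
  have hreg := hκ.isRegular
  -- the least index of a nearby point of the dense set
  have h1 : ∀ (n : ℕ) (x : X), ∃ k, dist x (d k) < 1 / ((n : ℝ) + 1) ∧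
      ∀ l < k, 1 / ((n : ℝ) + 1) ≤ dist x (d l) := by
    intro n x
    have hne : {k | dist x (d k) < 1 / ((n : ℝ) + 1)}.Nonempty := by
      obtain ⟨k, hk⟩ := hd.exists_dist_lt x (show (0 : ℝ) < 1 / ((n : ℝ) + 1) by positivity)
      exact ⟨k, hk⟩
    obtain ⟨k, hk, hk'⟩ := WellFounded.has_min (wellFounded_lt (α := κ.ord.ToType)) _ hne
    exact ⟨k, hk, fun l hl => not_lt.1 (fun h => hk' l h hl)⟩
  choose ρ hρ1 hρ2 using h1
  have h2 : ∀ x : X, ∃ b, (∀ n, ρ n x < b) ∧ ∀ c, (∀ n, ρ n x < c) → b ≤ c := by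
    intro x
    have hne : {b | ∀ n, ρ n x < b}.Nonempty := by
      obtain ⟨b, hb⟩ := exists_bound hreg (s := range (fun n => ρ n x))
        ((countable_range _).le_aleph0.trans_lt hκ.lt)
      exact ⟨b, fun n => hb _ ⟨n, rfl⟩⟩
    obtain ⟨b, hb, hb'⟩ := WellFounded.has_min (wellFounded_lt (α := κ.ord.ToType)) _ hne
    exact ⟨b, hb, fun c hc => not_lt.1 (fun h => hb' c hc h)⟩
  choose h hh1 hh2 using h2
  have hXne : Nonempty X := by
    by_contra hX
    rw [not_nonempty_iff] at hX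
    apply hI.univ
    refine ⟨1, one_lt_w1, fun T' _ => ?_⟩
    have : (⋃ i ∈ T', G i) = ∅ := Set.eq_empty_of_isEmpty _
    rw [this]
    exact sg_empty le_rfl
  have h3 : ∀ z : ι, ∃ x : X, (G z).Nonempty → x ∈ G z ∧ ∀ y ∈ G z, h x ≤ h y := by
    intro z
    by_cases hz : (G z).Nonempty
    · obtain ⟨b, ⟨x, hx, hxb⟩, hb'⟩ := WellFounded.has_min
        (wellFounded_lt (α := κ.ord.ToType)) (h '' G z) (hz.image h)
      refine ⟨x, fun _ => ⟨hx, fun y hy => ?_⟩⟩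
      rw [hxb]
      exact not_lt.1 (hb' _ ⟨y, hy, rfl⟩)
    · exact ⟨hXne.some, fun h => absurd h hz⟩
  choose xz hxz using h3
  set E₀ : Set ι := {z | ¬ (G z).Nonempty} with hE₀
  have hE₀I : E₀ ∈ Nul G := by
    refine ⟨1, one_lt_w1, fun T' hT' => ?_⟩
    have : (⋃ i ∈ T', G i) = ∅ := by
      rw [eq_empty_iff_forall_notMem]
      intro x hx
      obtain ⟨i, hi, hxi⟩ := mem_iUnion₂.1 hx
      exact hT' hi ⟨x, hxi⟩
    rw [this]
    exact sg_empty le_rfl
  have hC : ∀ β, {z | (G z).Nonempty ∧ ∀ n, ρ n (xz z) < β} ∈ Nul G := fun β =>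
    claimC hG T hsep hT hI hadd ρ hρ1 xz (fun z hz => (hxz z hz.1).1) β (fun z hz => hz.2)
  -- large values
  set P : ℕ → Set κ.ord.ToType := fun n => {k | {z | (G z).Nonempty ∧ ρ n (xz z) = k} ∉ Nul G}
    with hP
  have hPc : ∀ n, (P n).Countable := by
    intro n
    apply hI.sat' (A := fun k => {z | (G z).Nonempty ∧ ρ n (xz z) = k}) (s := P n)
      (fun k hk => hk)
    intro k _ l _ hkl
    rw [disjoint_left]
    rintro z ⟨-, h1⟩ ⟨-, h2⟩
    exact hkl (h1.symm.trans h2)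
  obtain ⟨β₁, hβ₁⟩ := exists_bound hreg (s := ⋃ n, P n)
    ((countable_iUnion hPc).le_aleph0.trans_lt hκ.lt)
  set N₁ : Set ι := {z | (G z).Nonempty ∧ ∀ n, ρ n (xz z) ∈ P n} with hN₁
  have hN₁I : N₁ ∈ Nul G :=
    hI.mono _ (hC β₁) _ (fun z hz => ⟨hz.1, fun n => hβ₁ _ (mem_iUnion.2 ⟨n, hz.2 n⟩)⟩)
  set N₀ : Set ι := N₁ ∪ E₀ with hN₀
  have hN₀I : N₀ ∈ Nul G := hI.union hN₁I hE₀I
  have hne : ∀ z, z ∉ N₀ → (G z).Nonempty := by
    intro z hz
    by_contra h'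
    exact hz (Or.inr h')
  have h4 : ∀ z, ∃ n, z ∉ N₀ → ρ n (xz z) ∉ P n := by
    intro z
    by_cases hz : z ∈ N₀
    · exact ⟨0, fun h' => absurd hz h'⟩
    · by_contra hcon
      push Not at hcon
      exact hz (Or.inl ⟨hne z hz, fun n => (hcon n).2⟩)
  choose nz hnz using h4
  set R : κ.ord.ToType → Set ι := fun β => {z | z ∉ N₀ ∧ ρ (nz z) (xz z) ≤ β} with hR
  have hRI : ∀ β, R β ∈ Nul G := by
    intro β
    have h5 : ∀ n, (⋃ k ∈ Iic β, {z | ((G z).Nonempty ∧ ρ n (xz z) = k) ∧ k ∉ P n}) ∈ Nul G := by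
      intro n
      rw [← sUnion_image]
      refine hadd _ ?_ (mk_image_le.trans_lt (mk_Iic_lt' hκ.lt.le β))
      rintro _ ⟨k, -, rfl⟩
      change {z | ((G z).Nonempty ∧ ρ n (xz z) = k) ∧ k ∉ P n} ∈ Nul G
      by_cases hk : k ∈ P n
      · have : {z | ((G z).Nonempty ∧ ρ n (xz z) = k) ∧ k ∉ P n} = ∅ := by
          ext z; simp [hk]
        rw [this]
        exact hI.empty
      · have : {z | (G z).Nonempty ∧ ρ n (xz z) = k} ∈ Nul G := by
          by_contra h; exact hk h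
        exact hI.mono _ this _ (fun z hz => hz.1)
    refine hI.mono _ (hI.iUnion_nat _ h5) _ ?_
    rintro z ⟨hz, hzβ⟩
    exact mem_iUnion.2 ⟨nz z, mem_iUnion₂.2 ⟨_, hzβ, ⟨hne z hz, rfl⟩, hnz z hz⟩⟩
  have hRmono : ∀ β β', β ≤ β' → R β ⊆ R β' := fun β β' hββ z hz => ⟨hz.1, hz.2.trans hββ⟩
  -- a uniform bound
  obtain ⟨γ, hγ, hγ'⟩ : ∃ γ : Ordinal.{0}, γ < ω₁ ∧ ∀ β, ∀ T' ⊆ R β, Sg γ (⋃ i ∈ T', G i) := by
    by_contra hcon
    push Not at hcon
    have h5 : ∀ j : (ω₁ : Ordinal.{0}).ToType, ∃ β, ∃ T' ⊆ R β,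
        ¬ Sg (ToType.toOrd j : Ordinal.{0}) (⋃ i ∈ T', G i) := fun j =>
      hcon _ (ToType.toOrd j).2
    choose β T' hT'1 hT'2 using h5
    have hcard : #(range β) < κ := by
      have h6 : Cardinal.lift.{0} #(range β) ≤ Cardinal.lift.{u} #(ω₁ : Ordinal.{0}).ToType :=
        Cardinal.mk_range_le_lift
      rw [mk_toType, card_omega] at h6
      have h7 : #(range β) ≤ ℵ₁ := by simpa using h6
      exact h7.trans_lt hκ.aleph_one_lt
    obtain ⟨b, hb⟩ := exists_bound hreg hcard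
    obtain ⟨γ, hγ, hγ'⟩ := hRI b
    apply hT'2 (ToType.mk ⟨γ, hγ⟩)
    have := hγ' (T' (ToType.mk ⟨γ, hγ⟩))
      ((hT'1 _).trans (hRmono _ _ (hb _ ⟨_, rfl⟩).le))
    simpa using this
  -- the discrete pieces
  let E : ℕ → ℕ → κ.ord.ToType → Set X := fun n m k =>
    {x | dist x (d k) ≤ 1 / ((n : ℝ) + 1) - 1 / ((m : ℝ) + 1) ∧
      ∀ l < k, 1 / ((n : ℝ) + 1) ≤ dist x (d l)}
  have hEclosed : ∀ n m k, IsClosed (E n m k) := by
    intro n m k
    have h5 : E n m k = {x | dist x (d k) ≤ 1 / ((n : ℝ) + 1) - 1 / ((m : ℝ) + 1)} ∩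
        ⋂ l ∈ Iio k, {x | 1 / ((n : ℝ) + 1) ≤ dist x (d l)} := by
      ext x
      simp [E]
    rw [h5]
    refine (isClosed_le (by fun_prop) continuous_const).inter ?_
    exact isClosed_biInter (fun l _ => isClosed_le continuous_const (by fun_prop))
  have hEdist : ∀ n m k l, k < l → ∀ x ∈ E n m k, ∀ y ∈ E n m l,
      1 / ((m : ℝ) + 1) ≤ dist x y := by
    intro n m k l hkl x hx y hy
    have h5 := hy.2 k hkl
    have h6 := hx.1
    have h7 := dist_triangle y x (d k)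
    rw [dist_comm y x] at h7
    linarith
  let O : ℕ → ℕ → κ.ord.ToType → Set X := fun n m k =>
    Metric.thickening (1 / ((m : ℝ) + 1) / 2) (E n m k)
  have hOopen : ∀ n m k, IsOpen (O n m k) := fun n m k => Metric.isOpen_thickening
  have hEO : ∀ n m k, E n m k ⊆ O n m k := fun n m k =>
    Metric.self_subset_thickening (by positivity) _
  have hOd : ∀ n m, Pairwise (fun k l => Disjoint (O n m k) (O n m l)) := by
    intro n m
    have key : ∀ k l, k < l → Disjoint (O n m k) (O n m l) := by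
      intro k l hkl
      rw [disjoint_left]
      intro x hx hx'
      obtain ⟨y, hy, hxy⟩ := Metric.mem_thickening_iff.1 hx
      obtain ⟨y', hy', hxy'⟩ := Metric.mem_thickening_iff.1 hx'
      have h5 := hEdist n m k l hkl y hy y' hy'
      have h6 := dist_triangle_left y y' x
      linarith
    intro k l hkl
    rcases lt_or_gt_of_ne hkl with h5 | h5
    · exact key k l h5
    · exact (key l k h5).symm
  -- conclusion
  have hγ1 : 1 ≤ γ := by
    have := hγ' β₁ ∅ (empty_subset _)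
    exact this.one_le
  set δ : Ordinal.{0} := max γ (1 + 1) with hδ
  have hδ1 : 1 ≤ δ := le_max_of_le_left hγ1
  have hδ2 : δ < ω₁ := max_lt hγ (add_one_lt_w1 one_lt_w1)
  apply hI.univ
  have hfin : N₀ᶜ ∈ Nul G := by
    refine ⟨δ, hδ2, fun T' hT' => ?_⟩
    have h5 : (⋃ i ∈ T', G i) = ⋃ n : ℕ, ⋃ m : ℕ, ⋃ k ∈ (Set.univ : Set κ.ord.ToType),
        O n m k ∩ (E n m k ∩ ⋃ i ∈ T' ∩ R k, G i) := by
      ext x
      constructor
      · intro hx
        obtain ⟨z, hz, hxz'⟩ := mem_iUnion₂.1 hx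
        have hzN := hT' hz
        have h6 : ∃ n, ρ (nz z) (xz z) ≤ ρ n x := by
          by_contra hcon
          push Not at hcon
          have h7 := hh2 x _ hcon
          have h8 := hh1 (xz z) (nz z)
          have h9 := (hxz z (hne z hzN)).2 x hxz'
          exact absurd (h8.trans_le (h9.trans h7)) (lt_irrefl _)
        obtain ⟨n, hn⟩ := h6
        have h7 := hρ1 n x
        obtain ⟨m, hm⟩ := exists_nat_one_div_lt (sub_pos.2 h7)
        have hxE : x ∈ E n m (ρ n x) := ⟨by linarith, hρ2 n x⟩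
        exact mem_iUnion.2 ⟨n, mem_iUnion.2 ⟨m, mem_iUnion₂.2 ⟨ρ n x, trivial, hEO _ _ _ hxE, hxE,
          mem_iUnion₂.2 ⟨z, ⟨hz, hzN, hn⟩, hxz'⟩⟩⟩⟩
      · intro hx
        obtain ⟨n, hx⟩ := mem_iUnion.1 hx
        obtain ⟨m, hx⟩ := mem_iUnion.1 hx
        obtain ⟨k, -, -, -, hx⟩ := mem_iUnion₂.1 hx
        obtain ⟨z, hz, hxz'⟩ := mem_iUnion₂.1 hx
        exact mem_iUnion₂.2 ⟨z, hz.1, hxz'⟩
    rw [h5]
    refine Sg.iUnion_nat fun n => Sg.iUnion_nat fun m => ?_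
    refine Sg.iUnion_disjoint (hOopen n m) (hOd n m) hδ1 hδ2 (fun k _ => ?_)
    refine Sg.inter ?_ ((hγ' k _ inter_subset_right).mono (le_max_left _ _))
    have h6 : Sg (1 + 1) (E n m k) := by
      have := (Sg.isOpen (hEclosed n m k).isOpen_compl).compl
      rwa [compl_compl] at this
    exact h6.mono (le_max_right _ _)
  rw [← union_compl_self N₀]
  exact hI.union hN₀I hfin

end

/-- A family of unbounded class exists only if every separable metric space all of whose subsets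
are Borel is countable. -/
theorem countable_of_unbounded {X : Type u} [MetricSpace X] {ι : Type u} {G : ι → Set X}
    (hG : PFB G) (T : (ω₁ : Ordinal.{0}).ToType → Set ι)
    (hsep : ∀ a b, (∀ j, a ∈ T j ↔ b ∈ T j) → a = b)
    (hT : ∀ j, ¬ Sg (ToType.toOrd j : Ordinal.{0}) (⋃ i ∈ T j, G i))
    (Y : Type u) [MetricSpace Y] [SeparableSpace Y]
    (hY : ∀ A : Set Y, @MeasurableSet Y (borel Y) A) : Countable Y := by
  by_contra hcon
  have h1 : ¬ (Set.univ : Set Y).Countable := fun h => hcon (countable_univ_iff.1 h)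
  obtain ⟨w, hw, -⟩ := exists_w1_embedding h1
  have hSC : SecondCountableTopology Y := UniformSpace.secondCountable_of_separable Y
  have hcard : #(range w) ≤ ℵ₁ := by
    have h6 : Cardinal.lift.{0} #(range w) ≤ Cardinal.lift.{u} #(ω₁ : Ordinal.{0}).ToType :=
      Cardinal.mk_range_le_lift
    rw [mk_toType, card_omega] at h6
    simpa using h6
  have hW : ∀ A : Set (range w), @MeasurableSet (range w) (borel (range w)) A := by
    intro A
    have h3 : A = (Subtype.val : range w → Y) ⁻¹' (Subtype.val '' A) :=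
      (preimage_image_eq A Subtype.val_injective).symm
    rw [h3]
    have h4 := hY (Subtype.val '' A)
    let _ := borel Y
    let _ := borel (range w)
    have : BorelSpace Y := ⟨rfl⟩
    have : BorelSpace (range w) := ⟨rfl⟩
    have h5 : Measurable (Subtype.val : range w → Y) := continuous_subtype_val.borel_measurable
    exact h5 h4
  obtain ⟨γ, hγ, hγ'⟩ := bounded_of_card hcard hW
  exact case4 hG T hsep hT (Y := range w) (fun j => ⟨w j, j, rfl⟩)
    (fun a b hab => hw (congrArg Subtype.val hab)) hγ hγ'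

/-- The dichotomy for indexed families. -/
theorem dichotomy {X : Type u} [MetricSpace X] {ι : Type u} {F : ι → Set X} (hF : PFB F) :
    (∃ α : Ordinal.{0}, α < ω₁ ∧ ∀ T : Set ι, Sg α (⋃ i ∈ T, F i)) ∨
    ((∃ κ : Cardinal.{u}, QuasiMeasurable κ ∧ κ ≤ #ι ∧ κ ≤ 𝔠 ∧ ∀ D : Set X, Dense D → κ < #D) ∧
      ∀ (Y : Type u) [MetricSpace Y] [SeparableSpace Y],
        (∀ A : Set Y, @MeasurableSet Y (borel Y) A) → Countable Y) := by
  by_cases h : ∃ α : Ordinal.{0}, α < ω₁ ∧ ∀ T : Set ι, Sg α (⋃ i ∈ T, F i)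
  · exact Or.inl h
  · right
    obtain ⟨κι, G, T, κ, hG, hsep, hT, hI, hκ, hκι, hκc, hadd⟩ := data hF h
    refine ⟨⟨κ, hκ, hκι, hκc, fun D hD => ?_⟩, countable_of_unbounded hG T hsep hT⟩
    by_contra hcon
    rw [not_lt] at hcon
    have hXne : Nonempty X := by
      by_contra hX
      rw [not_nonempty_iff] at hX
      apply hI.univ
      refine ⟨1, one_lt_w1, fun T' _ => ?_⟩
      have : (⋃ i ∈ T', G i) = ∅ := Set.eq_empty_of_isEmpty _
      rw [this]
      exact sg_empty le_rfl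
    have hDne : Nonempty D := hD.nonempty.to_subtype
    have hle : #D ≤ #κ.ord.ToType := by rw [mk_ord_toType]; exact hcon
    obtain ⟨g⟩ := hle
    obtain ⟨s, hsurj⟩ : ∃ s : κ.ord.ToType → D, Function.Surjective s :=
      ⟨Function.invFun g, Function.invFun_surjective g.injective⟩
    refine dense_false hG T hsep hT hI hκ hadd (fun k => (s k : X)) ?_
    have h1 : range (fun k => (s k : X)) = D := by
      ext x
      constructor
      · rintro ⟨k, rfl⟩
        exact (s k).2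
      · intro hx
        obtain ⟨k, hk⟩ := hsurj ⟨x, hx⟩
        exact ⟨k, by simp only [hk]⟩
    rw [DenseRange, h1]
    exact hD

/-- The dichotomy for families of sets, with any hierarchy satisfying the usual equations. -/
theorem dichotomy_set (X : Type u) [MetricSpace X] (𝒳 : Set (Set X))
    (hfin : ∀ x : X, {A : Set X | A ∈ 𝒳 ∧ x ∈ A}.Finite)
    (hadd : ∀ 𝒴 ⊆ 𝒳, @MeasurableSet X (borel X) (⋃₀ 𝒴))
    (S : Ordinal.{0} → Set (Set X)) (hS1 : S 1 = {U : Set X | IsOpen U})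
    (hS2 : ∀ α : Ordinal.{0}, 1 < α → α < (Cardinal.aleph 1).ord →
        S α = {A : Set X | ∃ f : ℕ → Set X, A = (⋃ n, f n) ∧
          ∀ n, ∃ β : Ordinal.{0}, 1 ≤ β ∧ β < α ∧ (f n)ᶜ ∈ S β}) :
    (∃ α : Ordinal.{0}, 1 ≤ α ∧ α < (Cardinal.aleph 1).ord ∧ ∀ 𝒴 ⊆ 𝒳, ⋃₀ 𝒴 ∈ S α) ∨
    ((∃ κ : Cardinal.{u}, QuasiMeasurable κ ∧ κ.IsRegular ∧ Order.IsSuccLimit κ ∧
        κ ≤ #𝒳 ∧ κ ≤ 𝔠 ∧ ∀ D : Set X, Dense D → κ < #D) ∧
      ∀ (Y : Type u) [MetricSpace Y] [SeparableSpace Y],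
        (∀ A : Set Y, @MeasurableSet Y (borel Y) A) → Countable Y) := by
  have hF : PFB (fun A : 𝒳 => (A : Set X)) := by
    refine ⟨fun x => ?_, fun T => ?_⟩
    · refine ((hfin x).preimage (f := (Subtype.val : 𝒳 → Set X))
        Subtype.val_injective.injOn).subset ?_
      intro A hA
      exact ⟨A.2, hA⟩
    · have := hadd (Subtype.val '' T) (by rintro _ ⟨A, -, rfl⟩; exact A.2)
      rwa [sUnion_image] at this
  rcases dichotomy hF with ⟨α, hα, h⟩ | ⟨⟨κ, hκ, h1, h2, h3⟩, h4⟩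
  · left
    have hα' : α < (Cardinal.aleph 1).ord := by simpa using hα
    refine ⟨α, (h ∅).one_le, hα', fun 𝒴 h𝒴 => ?_⟩
    rw [eq_sg S hS1 hS2 α (h ∅).one_le hα']
    have h5 := h (Subtype.val ⁻¹' 𝒴)
    have h6 : (⋃ i ∈ (Subtype.val ⁻¹' 𝒴 : Set 𝒳), (i : Set X)) = ⋃₀ 𝒴 := by
      ext x
      simp only [mem_iUnion, mem_preimage, exists_prop, mem_sUnion]
      constructor
      · rintro ⟨A, hA, hx⟩
        exact ⟨A, hA, hx⟩
      · rintro ⟨A, hA, hx⟩
        exact ⟨⟨A, h𝒴 hA⟩, hA, hx⟩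
    rwa [h6] at h5
  · exact Or.inr ⟨⟨κ, hκ, hκ.isRegular, hκ.isSuccLimit, h1, h2, h3⟩, h4⟩

end Pool.Agent.Helper66.PF
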