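import Mathlib

/-!
Definitions for the problem on minimality of the degree of a `Σ_n` cut: formulas of arithmetic,
the classes `Σ_n`, the theory `PA⁻ + IΣ₀ + BΣ_n`, coded sets, Turing reducibility over a model.
-/

set_option autoImplicit false

namespace Pool.Agent.Helper66.Arith

open Function

/-- Terms of the language of arithmetic `0, 1, +, *`; variables are named by natural numbers. -/
inductive Tm : Type
  | var (i : ℕ) : Tm
  | zero : Tm
  | one : Tm
  | add (s t : Tm) : Tm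
  | mul (s t : Tm) : Tm

/-- First-order formulas of the language `0, 1, +, *, <`. Here `ball i t φ` is the bounded
quantifier `∀ x_i < t, φ` and `all i φ` is the unbounded quantifier `∀ x_i, φ`. -/
inductive Fm : Type
  | eq (s t : Tm) : Fm
  | lt (s t : Tm) : Fm
  | neg (φ : Fm) : Fm
  | and (φ ψ : Fm) : Fm
  | ball (i : ℕ) (t : Tm) (φ : Fm) : Fm
  | all (i : ℕ) (φ : Fm) : Fm

/-- The unbounded quantifier `∃ x_i, φ`. -/
def Fm.ex (i : ℕ) (φ : Fm) : Fm := Fm.neg (Fm.all i (Fm.neg φ))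

/-- Value of a term under an assignment `v` of elements to the variables. -/
def Tm.val {M : Type} [CommSemiring M] (v : ℕ → M) : Tm → M
  | .var i => v i
  | .zero => 0
  | .one => 1
  | .add s t => s.val v + t.val v
  | .mul s t => s.val v * t.val v

/-- Truth of a formula in `M` under an assignment `v` of elements (parameters) to the variables. -/
def Fm.Holds {M : Type} [CommSemiring M] [LinearOrder M] : (ℕ → M) → Fm → Prop
  | v, .eq s t => s.val v = t.val v
  | v, .lt s t => s.val v < t.val v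
  | v, .neg φ => ¬ Fm.Holds v φ
  | v, .and φ ψ => Fm.Holds v φ ∧ Fm.Holds v ψ
  | v, .ball i t φ => ∀ x : M, x < t.val v → Fm.Holds (update v i x) φ
  | v, .all i φ => ∀ x : M, Fm.Holds (update v i x) φ

/-- Bounded (that is, `Σ₀`) formulas: no unbounded quantifier. -/
inductive Fm.IsBounded : Fm → Prop
  | eq (s t : Tm) : Fm.IsBounded (.eq s t)
  | lt (s t : Tm) : Fm.IsBounded (.lt s t)
  | neg {φ : Fm} : Fm.IsBounded φ → Fm.IsBounded (.neg φ)
  | and {φ ψ : Fm} : Fm.IsBounded φ → Fm.IsBounded ψ → Fm.IsBounded (.and φ ψ)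
  | ball {φ : Fm} (i : ℕ) (t : Tm) : Fm.IsBounded φ → Fm.IsBounded (.ball i t φ)

/-- Formulas `∃ x_{i₁} ... ∃ x_{iₘ}, φ` with `φ` in the class `P` (`m ≥ 0`). -/
inductive ExBlock (P : Fm → Prop) : Fm → Prop
  | base {φ : Fm} : P φ → ExBlock P φ
  | ex {φ : Fm} (i : ℕ) : ExBlock P φ → ExBlock P (φ.ex i)

/-- Formulas `∀ x_{i₁} ... ∀ x_{iₘ}, φ` with `φ` in the class `P` (`m ≥ 0`). -/
inductive AllBlock (P : Fm → Prop) : Fm → Prop
  | base {φ : Fm} : P φ → AllBlock P φ
  | all {φ : Fm} (i : ℕ) : AllBlock P φ → AllBlock P (Fm.all i φ)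

/-- The pair of classes `(Σ_n, Π_n)` of formulas. -/
def SigmaPi : ℕ → (Fm → Prop) × (Fm → Prop)
  | 0 => (Fm.IsBounded, Fm.IsBounded)
  | n + 1 => (ExBlock (SigmaPi n).2, AllBlock (SigmaPi n).1)

/-- The class of `Σ_n` formulas. -/
def IsSigma (n : ℕ) : Fm → Prop := (SigmaPi n).1

section Theory

variable (M : Type) [CommSemiring M] [LinearOrder M]

/-- `M` is (the non-negative part of) a discretely ordered ring: a model of `PA⁻`. -/
structure IsPAMinus [IsStrictOrderedRing M] : Prop where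
  zero_le : ∀ x : M, 0 ≤ x
  one_le : ∀ x : M, 0 < x → 1 ≤ x
  exists_add : ∀ x y : M, x ≤ y → ∃ z : M, x + z = y

/-- The scheme `IΣ₀`: induction for bounded formulas with parameters. -/
def BoundedInduction : Prop :=
  ∀ φ : Fm, φ.IsBounded → ∀ (v : ℕ → M) (i : ℕ), φ.Holds (update v i 0) →
    (∀ x : M, φ.Holds (update v i x) → φ.Holds (update v i (x + 1))) →
    ∀ x : M, φ.Holds (update v i x)

/-- The scheme `BΣ_n`: collection for `Σ_n` formulas with parameters. -/
def SigmaCollection (n : ℕ) : Prop :=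
  ∀ φ : Fm, IsSigma n φ → ∀ (v : ℕ → M) (i j : ℕ) (a : M),
    (∀ x : M, x < a → ∃ y : M, φ.Holds (update (update v i x) j y)) →
    ∃ b : M, ∀ x : M, x < a → ∃ y : M, y < b ∧ φ.Holds (update (update v i x) j y)

/-- `M` is a `BΣ_n` model: a model of `PA⁻ + IΣ₀ + BΣ_n`. -/
structure IsBSigmaModel [IsStrictOrderedRing M] (n : ℕ) : Prop where
  pa : IsPAMinus M
  ind : BoundedInduction M
  coll : SigmaCollection M n

end Theory

section Degrees

variable {M : Type} [CommSemiring M] [LinearOrder M]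

/-- An (injective) pairing function of arithmetic. -/
def pr (x y : M) : M := (x + y) * (x + y) + x

/-- `x` belongs to the set coded by `e`: the element `e = ⟨⟨u, v⟩, w⟩` codes the set of all
`x < w` such that `(x + 1) v + 1` divides `u`. -/
def Mem (x e : M) : Prop :=
  ∃ u v w : M, e = pr (pr u v) w ∧ x < w ∧ ∃ q : M, q * ((x + 1) * v + 1) = u

/-- The set coded by `e`. The `M`-finite sets are the sets `Coded e`, for `e` in `M`. -/
def Coded (e : M) : Set M := {x | Mem x e}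

/-- `A` is `Σ_n`-definable over `M` with parameters. -/
def SigmaDef (n : ℕ) (A : Set M) : Prop :=
  ∃ φ : Fm, IsSigma n φ ∧ ∃ v : ℕ → M, ∀ x : M, x ∈ A ↔ φ.Holds (update v 0 x)

/-- `I` is a `Σ_n` cut: a proper initial segment of `M`, closed under successor (and containing
`0`), that is `Σ_n`-definable with parameters. -/
structure IsSigmaCut (n : ℕ) (I : Set M) : Prop where
  zero_mem : (0 : M) ∈ I
  down : ∀ x ∈ I, ∀ y : M, y ≤ x → y ∈ I
  succ : ∀ x ∈ I, x + 1 ∈ I
  proper : I ≠ Set.univ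
  definable : SigmaDef n I

/-- The quadruple `⟨k, i, s, t⟩`. -/
def quad (k i s t : M) : M := pr k (pr i (pr s t))

/-- Turing reducibility `X ≤_T Y` over `M`: there is a c.e. (that is, `Σ₁`-definable with
parameters) set `W` such that for every `M`-finite set `K` (with code `k`), `K ⊆ X` iff
`⟨K, 1, σ, τ⟩ ∈ W` for some `M`-finite `σ ⊆ Y` and `τ ⊆ M \ Y`, and `K ⊆ M \ X` iff
`⟨K, 0, σ, τ⟩ ∈ W` for some `M`-finite `σ ⊆ Y` and `τ ⊆ M \ Y`. -/
def TuringLE (X Y : Set M) : Prop :=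
  ∃ W : Set M, SigmaDef 1 W ∧ ∀ k : M,
    (Coded k ⊆ X ↔ ∃ s t : M, Coded s ⊆ Y ∧ Coded t ⊆ Yᶜ ∧ quad k 1 s t ∈ W) ∧
    (Coded k ⊆ Xᶜ ↔ ∃ s t : M, Coded s ⊆ Y ∧ Coded t ⊆ Yᶜ ∧ quad k 0 s t ∈ W)

/-- Strict Turing reducibility `X <_T Y`. -/
def TuringLT (X Y : Set M) : Prop := TuringLE X Y ∧ ¬ TuringLE Y X

end Degrees

end Pool.Agent.Helper66.Arith
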