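import Mathlib
import Pool.Agent.Helper66.ArithDefs

/-!
Formulas with all unbounded quantifiers restricted to `≤ B`; locality of truth.
-/

set_option autoImplicit false

namespace Pool.Agent.Helper66.Arith

open Function

deriving instance Countable for Tm
deriving instance Countable for Fm

section

variable {M : Type} [CommSemiring M] [LinearOrder M]

/-- Truth with all unbounded quantifiers restricted to `≤ B`. -/
def Fm.HoldsLe (B : M) : (ℕ → M) → Fm → Prop
  | v, .eq s t => s.val v = t.val v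
  | v, .lt s t => s.val v < t.val v
  | v, .neg φ => ¬ Fm.HoldsLe B v φ
  | v, .and φ ψ => Fm.HoldsLe B v φ ∧ Fm.HoldsLe B v ψ
  | v, .ball i t φ => ∀ x : M, x < t.val v → Fm.HoldsLe B (update v i x) φ
  | v, .all i φ => ∀ x : M, x ≤ B → Fm.HoldsLe B (update v i x) φ

theorem holdsLe_iff_of_bounded {φ : Fm} (h : φ.IsBounded) (B : M) (v : ℕ → M) :
    φ.HoldsLe B v ↔ φ.Holds v := by
  induction h generalizing v with
  | eq s t => exact Iff.rfl
  | lt s t => exact Iff.rfl
  | neg _ ih => simp only [Fm.HoldsLe, Fm.Holds, ih]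
  | and _ _ ih₁ ih₂ => simp only [Fm.HoldsLe, Fm.Holds, ih₁, ih₂]
  | ball i t _ ih => simp only [Fm.HoldsLe, Fm.Holds, ih]

theorem holds_ex (φ : Fm) (i : ℕ) (v : ℕ → M) :
    (φ.ex i).Holds v ↔ ∃ x : M, φ.Holds (update v i x) := by
  simp only [Fm.ex, Fm.Holds, not_forall, not_not]

theorem holdsLe_ex (φ : Fm) (i : ℕ) (B : M) (v : ℕ → M) :
    (φ.ex i).HoldsLe B v ↔ ∃ x : M, x ≤ B ∧ φ.HoldsLe B (update v i x) := by
  simp only [Fm.ex, Fm.HoldsLe]
  push Not
  rfl

theorem holdsLe_mono {φ : Fm} (h : ExBlock Fm.IsBounded φ) {B B' : M} (hB : B ≤ B')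
    {v : ℕ → M} (hv : φ.HoldsLe B v) : φ.HoldsLe B' v := by
  induction h generalizing v with
  | base h => rwa [holdsLe_iff_of_bounded h] at hv ⊢
  | ex i _ ih =>
    rw [holdsLe_ex] at hv ⊢
    obtain ⟨x, hx, hv⟩ := hv
    exact ⟨x, hx.trans hB, ih hv⟩

theorem holds_iff_exists_holdsLe {φ : Fm} (h : ExBlock Fm.IsBounded φ) (v : ℕ → M) :
    φ.Holds v ↔ ∃ B : M, φ.HoldsLe B v := by
  induction h generalizing v with
  | base h =>
    simp only [holdsLe_iff_of_bounded h]
    exact ⟨fun h => ⟨0, h⟩, fun ⟨_, h⟩ => h⟩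
  | ex i hφ ih =>
    simp only [holds_ex, holdsLe_ex]
    constructor
    · rintro ⟨x, hx⟩
      obtain ⟨B, hB⟩ := (ih _).1 hx
      exact ⟨max x B, x, le_max_left _ _, holdsLe_mono hφ (le_max_right _ _) hB⟩
    · rintro ⟨B, x, -, hx⟩
      exact ⟨x, (ih _).2 ⟨B, hx⟩⟩

/-- A bound on the variables of a term. -/
def Tm.bd : Tm → ℕ
  | .var i => i + 1
  | .zero => 0
  | .one => 0
  | .add s t => max s.bd t.bd
  | .mul s t => max s.bd t.bd

/-- A bound on the variables of a formula. -/
def Fm.bd : Fm → ℕ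
  | .eq s t => max s.bd t.bd
  | .lt s t => max s.bd t.bd
  | .neg φ => φ.bd
  | .and φ ψ => max φ.bd ψ.bd
  | .ball _ t φ => max t.bd φ.bd
  | .all _ φ => φ.bd

theorem val_congr (t : Tm) {v v' : ℕ → M} (h : ∀ i < t.bd, v i = v' i) :
    t.val v = t.val v' := by
  induction t with
  | var i => exact h i (Nat.lt_succ_self i)
  | zero => rfl
  | one => rfl
  | add s t ihs iht =>
    simp only [Tm.val]
    rw [ihs (fun i hi => h i (lt_of_lt_of_le hi (le_max_left _ _))),
      iht (fun i hi => h i (lt_of_lt_of_le hi (le_max_right _ _)))]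
  | mul s t ihs iht =>
    simp only [Tm.val]
    rw [ihs (fun i hi => h i (lt_of_lt_of_le hi (le_max_left _ _))),
      iht (fun i hi => h i (lt_of_lt_of_le hi (le_max_right _ _)))]

theorem update_congr {v v' : ℕ → M} {N : ℕ} (h : ∀ i < N, v i = v' i) (i : ℕ) (x : M) :
    ∀ j < N, update v i x j = update v' i x j := by
  intro j hj
  rcases eq_or_ne j i with e | e
  · subst e; simp
  · rw [update_of_ne e, update_of_ne e, h j hj]

theorem holdsLe_congr (φ : Fm) (B : M) {v v' : ℕ → M} (h : ∀ i < φ.bd, v i = v' i) :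
    φ.HoldsLe B v ↔ φ.HoldsLe B v' := by
  induction φ generalizing v v' with
  | eq s t =>
    simp only [Fm.HoldsLe]
    rw [val_congr s (fun i hi => h i (lt_of_lt_of_le hi (le_max_left _ _))),
      val_congr t (fun i hi => h i (lt_of_lt_of_le hi (le_max_right _ _)))]
  | lt s t =>
    simp only [Fm.HoldsLe]
    rw [val_congr s (fun i hi => h i (lt_of_lt_of_le hi (le_max_left _ _))),
      val_congr t (fun i hi => h i (lt_of_lt_of_le hi (le_max_right _ _)))]
  | neg φ ih => simp only [Fm.HoldsLe]; rw [ih h]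
  | and φ ψ ih₁ ih₂ =>
    simp only [Fm.HoldsLe]
    rw [ih₁ (fun i hi => h i (lt_of_lt_of_le hi (le_max_left _ _))),
      ih₂ (fun i hi => h i (lt_of_lt_of_le hi (le_max_right _ _)))]
  | ball i t φ ih =>
    simp only [Fm.HoldsLe]
    rw [val_congr t (fun i hi => h i (lt_of_lt_of_le hi (le_max_left _ _)))]
    refine forall_congr' (fun x => imp_congr_right (fun _ => ih ?_))
    exact update_congr (fun j hj => h j (lt_of_lt_of_le hj (le_max_right _ _))) i x
  | all i φ ih =>
    simp only [Fm.HoldsLe]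
    refine forall_congr' (fun x => imp_congr_right (fun _ => ih ?_))
    exact update_congr h i x

/-! Derived connectives. -/

/-- Disjunction. -/
def Fm.or (φ ψ : Fm) : Fm := .neg (.and (.neg φ) (.neg ψ))
/-- Implication. -/
def Fm.imp (φ ψ : Fm) : Fm := .neg (.and φ (.neg ψ))
/-- Bounded existential quantifier. -/
def Fm.bex (i : ℕ) (t : Tm) (φ : Fm) : Fm := .neg (.ball i t (.neg φ))

theorem holds_or (φ ψ : Fm) (v : ℕ → M) : (φ.or ψ).Holds v ↔ φ.Holds v ∨ ψ.Holds v := by
  simp only [Fm.or, Fm.Holds]; tauto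

theorem holds_imp (φ ψ : Fm) (v : ℕ → M) : (φ.imp ψ).Holds v ↔ (φ.Holds v → ψ.Holds v) := by
  simp only [Fm.imp, Fm.Holds]; tauto

theorem holds_bex (i : ℕ) (t : Tm) (φ : Fm) (v : ℕ → M) :
    (Fm.bex i t φ).Holds v ↔ ∃ x : M, x < t.val v ∧ φ.Holds (update v i x) := by
  simp only [Fm.bex, Fm.Holds]
  push Not
  rfl

theorem holds_and (φ ψ : Fm) (v : ℕ → M) : (φ.and ψ).Holds v ↔ φ.Holds v ∧ ψ.Holds v := Iff.rfl
theorem holds_neg (φ : Fm) (v : ℕ → M) : (φ.neg).Holds v ↔ ¬ φ.Holds v := Iff.rfl
theorem holds_eq (s t : Tm) (v : ℕ → M) : (Fm.eq s t).Holds v ↔ s.val v = t.val v := Iff.rfl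
theorem holds_lt (s t : Tm) (v : ℕ → M) : (Fm.lt s t).Holds v ↔ s.val v < t.val v := Iff.rfl
theorem holds_ball (i : ℕ) (t : Tm) (φ : Fm) (v : ℕ → M) :
    (Fm.ball i t φ).Holds v ↔ ∀ x : M, x < t.val v → φ.Holds (update v i x) := Iff.rfl

end

theorem Fm.IsBounded.or {φ ψ : Fm} (h₁ : φ.IsBounded) (h₂ : ψ.IsBounded) : (φ.or ψ).IsBounded :=
  .neg (.and (.neg h₁) (.neg h₂))
theorem Fm.IsBounded.imp {φ ψ : Fm} (h₁ : φ.IsBounded) (h₂ : ψ.IsBounded) :
    (φ.imp ψ).IsBounded := .neg (.and h₁ (.neg h₂))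
theorem Fm.IsBounded.bex {φ : Fm} (i : ℕ) (t : Tm) (h : φ.IsBounded) :
    (Fm.bex i t φ).IsBounded := .neg (.ball i t (.neg h))

/-- The term `⟨s, t⟩`. -/
def Tm.pr (s t : Tm) : Tm := .add (.mul (.add s t) (.add s t)) s

theorem val_pr {M : Type} [CommSemiring M] (s t : Tm) (v : ℕ → M) :
    (Tm.pr s t).val v = Arith.pr (s.val v) (t.val v) := rfl

/-- The formula `a ∈ Coded e`, using the auxiliary variables `n, n+1, n+2, n+3`. -/
def memF (n : ℕ) (a e : Tm) : Fm :=
  .bex n (.add e .one) (.bex (n + 1) (.add e .one) (.bex (n + 2) (.add e .one)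
    (.and (.eq e (.pr (.pr (.var n) (.var (n + 1))) (.var (n + 2))))
      (.and (.lt a (.var (n + 2)))
        (.bex (n + 3) (.add (.var n) .one)
          (.eq (.mul (.var (n + 3)) (.add (.mul (.add a .one) (.var (n + 1))) .one))
            (.var n)))))))

theorem memF_bounded (n : ℕ) (a e : Tm) : (memF n a e).IsBounded :=
  .bex _ _ (.bex _ _ (.bex _ _ (.and (.eq _ _) (.and (.lt _ _) (.bex _ _ (.eq _ _))))))

section

variable {M : Type} [CommSemiring M] [LinearOrder M] [IsStrictOrderedRing M]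

theorem val_update_of_bd (t : Tm) {n : ℕ} (h : t.bd ≤ n) (v : ℕ → M) (x : M) :
    t.val (update v n x) = t.val v :=
  val_congr t (fun i hi => update_of_ne (by omega) _ _)

theorem IsPAMinus.lt_add_one_iff (hM : IsPAMinus M) {x y : M} : x < y + 1 ↔ x ≤ y := by
  constructor
  · intro h
    by_contra hlt
    have hlt : y < x := not_le.1 hlt
    obtain ⟨z, rfl⟩ := hM.exists_add y x hlt.le
    have hz : 0 < z := by
      rcases (hM.zero_le z).eq_or_lt with h | h
      · subst h; simp at hlt
      · exact h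
    have := hM.one_le z hz
    have h2 : y + 1 ≤ y + z := add_le_add_right this y
    exact absurd h (not_lt.2 h2)
  · intro h
    exact lt_of_le_of_lt h (lt_add_one y)

theorem IsPAMinus.left_le_pr (hM : IsPAMinus M) (x y : M) : x ≤ pr x y := by
  unfold pr
  have h1 := hM.zero_le ((x + y) * (x + y))
  exact le_add_of_nonneg_left h1

theorem IsPAMinus.right_le_pr (hM : IsPAMinus M) (x y : M) : y ≤ pr x y := by
  unfold pr
  have h1 : y ≤ x + y := le_add_of_nonneg_left (hM.zero_le x)
  have h2 : x + y ≤ (x + y) * (x + y) := by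
    rcases (hM.zero_le (x + y)).eq_or_lt with h | h
    · rw [← h]; simp
    · have := hM.one_le _ h
      calc x + y = 1 * (x + y) := by ring
        _ ≤ (x + y) * (x + y) := mul_le_mul_of_nonneg_right this h.le
  exact (h1.trans h2).trans (le_add_of_nonneg_right (hM.zero_le x))

theorem holds_memF (hM : IsPAMinus M) {n : ℕ} {a e : Tm} (ha : a.bd ≤ n) (he : e.bd ≤ n)
    (v : ℕ → M) : (memF n a e).Holds v ↔ Mem (a.val v) (e.val v) := by
  have hva : ∀ (w : ℕ → M), (∀ i < n, w i = v i) → a.val w = a.val v := fun w hw =>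
    val_congr a (fun i hi => hw i (by omega))
  have hve : ∀ (w : ℕ → M), (∀ i < n, w i = v i) → e.val w = e.val v := fun w hw =>
    val_congr e (fun i hi => hw i (by omega))
  have hne1 : n + 1 ≠ n := by omega
  have hne2 : n + 2 ≠ n := by omega
  have hne3 : n + 2 ≠ n + 1 := by omega
  have hne4 : n + 3 ≠ n := by omega
  have hne5 : n + 3 ≠ n + 1 := by omega
  have hne6 : n + 3 ≠ n + 2 := by omega
  simp only [memF, holds_bex, holds_and, holds_eq, holds_lt, Tm.val, val_pr]
  unfold Mem
  constructor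
  · rintro ⟨u, -, y, -, w, -, h1, h2, q, -, h3⟩
    refine ⟨u, y, w, ?_, ?_, q, ?_⟩
    · rw [hve _ (fun i hi => by
        rw [update_of_ne (by omega), update_of_ne (by omega), update_of_ne (by omega)])] at h1
      simpa [update_of_ne hne1.symm, update_of_ne hne2.symm, update_of_ne hne3.symm] using h1
    · rw [hva _ (fun i hi => by
        rw [update_of_ne (by omega), update_of_ne (by omega), update_of_ne (by omega)])] at h2
      simpa using h2
    · rw [hva _ (fun i hi => by
        rw [update_of_ne (by omega), update_of_ne (by omega), update_of_ne (by omega),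
          update_of_ne (by omega)])] at h3
      simpa [update_of_ne hne1.symm, update_of_ne hne2.symm, update_of_ne hne3.symm,
        update_of_ne hne4.symm, update_of_ne hne5.symm, update_of_ne hne6.symm] using h3
  · rintro ⟨u, y, w, h1, h2, q, h3⟩
    have hu : u ≤ e.val v := by
      rw [h1]
      exact (hM.left_le_pr u y).trans (hM.left_le_pr _ _)
    have hy : y ≤ e.val v := by
      rw [h1]
      exact (hM.right_le_pr u y).trans (hM.left_le_pr _ _)
    have hw : w ≤ e.val v := by
      rw [h1]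
      exact hM.right_le_pr _ _
    have hq : q ≤ u := by
      have h5 : 0 ≤ (a.val v + 1) * y := hM.zero_le _
      have h6 : q * 1 ≤ q * ((a.val v + 1) * y + 1) :=
        mul_le_mul_of_nonneg_left (le_add_of_nonneg_left h5) (hM.zero_le q)
      rw [mul_one, h3] at h6
      exact h6
    refine ⟨u, hM.lt_add_one_iff.2 hu, y, ?_, w, ?_, ?_, ?_, q, ?_, ?_⟩
    · rw [hve _ (fun i hi => by rw [update_of_ne (by omega)])]
      exact hM.lt_add_one_iff.2 hy
    · rw [hve _ (fun i hi => by rw [update_of_ne (by omega), update_of_ne (by omega)])]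
      exact hM.lt_add_one_iff.2 hw
    · rw [hve _ (fun i hi => by
        rw [update_of_ne (by omega), update_of_ne (by omega), update_of_ne (by omega)])]
      simpa [update_of_ne hne1.symm, update_of_ne hne2.symm, update_of_ne hne3.symm] using h1
    · rw [hva _ (fun i hi => by
        rw [update_of_ne (by omega), update_of_ne (by omega), update_of_ne (by omega)])]
      simpa using h2
    · simpa [update_of_ne hne1.symm, update_of_ne hne2.symm, update_of_ne hne3.symm] using
        hM.lt_add_one_iff.2 hq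
    · rw [hva _ (fun i hi => by
        rw [update_of_ne (by omega), update_of_ne (by omega), update_of_ne (by omega),
          update_of_ne (by omega)])]
      simpa [update_of_ne hne1.symm, update_of_ne hne2.symm, update_of_ne hne3.symm,
        update_of_ne hne4.symm, update_of_ne hne5.symm, update_of_ne hne6.symm] using h3

end

theorem isPAMinus_nat : IsPAMinus ℕ where
  zero_le := Nat.zero_le
  one_le := fun _ h => h
  exists_add := fun x y h => ⟨y - x, by omega⟩

end Pool.Agent.Helper66.Arith
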