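import Mathlib
import Pool.Agent.Helper66.ArithDefs

/-!
Coding of finite sets of natural numbers, and bounds by towers of exponentials.
-/

set_option autoImplicit false

namespace Pool.Agent.Helper66.Arith

open Function

theorem pr_inj {x y x' y' : ℕ} (h : pr x y = pr x' y') : x = x' ∧ y = y' := by
  unfold pr at h
  have key : ∀ {a b a' b' : ℕ}, (a + b) * (a + b) + a = (a' + b') * (a' + b') + a' →
      a + b ≤ a' + b' := by
    intro a b a' b' h
    by_contra hlt
    have h1 : a' + b' + 1 ≤ a + b := by omega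
    have h2 : (a' + b' + 1) * (a' + b' + 1) ≤ (a + b) * (a + b) := Nat.mul_le_mul h1 h1
    nlinarith
  have h1 := key h
  have h2 := key h.symm
  have h3 : x + y = x' + y' := le_antisymm h1 h2
  rw [h3] at h
  omega

theorem left_le_pr (x y : ℕ) : x ≤ pr x y := by unfold pr; omega

theorem right_le_pr (x y : ℕ) : y ≤ pr x y := by
  unfold pr
  nlinarith [Nat.zero_le x, Nat.zero_le y, mul_self_nonneg ((x : ℤ) + y)]

theorem pr_mono {x y x' y' : ℕ} (h1 : x ≤ x') (h2 : y ≤ y') : pr x y ≤ pr x' y' := by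
  unfold pr
  have : x + y ≤ x' + y' := by omega
  have := Nat.mul_le_mul this this
  omega

/-- The standard code of a finite set of numbers below `w`. -/
def codeOf (S : Finset ℕ) (w : ℕ) : ℕ :=
  pr (pr (∏ x ∈ S, ((x + 1) * w.factorial + 1)) w.factorial) w

theorem coprime_factor {w x y : ℕ} (hx : x < w) (hy : y < w) (hxy : x ≠ y) :
    Nat.Coprime ((x + 1) * w.factorial + 1) ((y + 1) * w.factorial + 1) := by
  wlog h : x < y
  · exact (this hy hx hxy.symm (by omega)).symm
  · apply Nat.coprime_mul_succ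
    apply Nat.dvd_factorial <;> omega

theorem mem_codeOf {S : Finset ℕ} {w : ℕ} (hS : ∀ x ∈ S, x < w) (x : ℕ) :
    Mem x (codeOf S w) ↔ x ∈ S := by
  constructor
  · rintro ⟨u, v, w', he, hx, q, hq⟩
    obtain ⟨h1, h2⟩ := pr_inj he
    obtain ⟨h3, h4⟩ := pr_inj h1
    subst h2
    subst h4
    subst h3
    by_contra hxS
    have hcop : Nat.Coprime ((x + 1) * w.factorial + 1)
        (∏ y ∈ S, ((y + 1) * w.factorial + 1)) := by
      apply Nat.Coprime.prod_right
      intro y hy
      exact coprime_factor hx (hS y hy) (fun h => hxS (h ▸ hy))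
    have hdvd : ((x + 1) * w.factorial + 1) ∣ (∏ y ∈ S, ((y + 1) * w.factorial + 1)) :=
      ⟨q, by rw [← hq]; ring⟩
    have h1 := Nat.Coprime.eq_one_of_dvd hcop hdvd
    have h2 : 0 < (x + 1) * w.factorial := Nat.mul_pos (Nat.succ_pos _) (Nat.factorial_pos _)
    omega
  · intro hx
    refine ⟨_, _, _, rfl, hS x hx, ?_⟩
    obtain ⟨q, hq⟩ := Finset.dvd_prod_of_mem (fun y => (y + 1) * w.factorial + 1) hx
    exact ⟨q, by rw [hq]; ring⟩

theorem Mem.lt {x e : ℕ} (h : Mem x e) : x < e := by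
  obtain ⟨u, v, w, he, hx, -⟩ := h
  exact lt_of_lt_of_le hx (he ▸ right_le_pr _ _)

/-- Code of a singleton. -/
def sing (x : ℕ) : ℕ := codeOf {x} (x + 1)

theorem mem_sing (x y : ℕ) : Mem y (sing x) ↔ y = x := by
  unfold sing
  rw [mem_codeOf (by simp)]
  simp

theorem not_mem_zero (y : ℕ) : ¬ Mem y (0 : ℕ) := fun h => by
  have := h.lt
  omega

/-- Iterated exponential. -/
def tow : ℕ → ℕ → ℕ
  | 0, x => x
  | k + 1, x => 2 ^ tow k x

theorem tow_lt_succ (k x : ℕ) : tow k x < tow (k + 1) x := Nat.lt_two_pow_self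

theorem tow_strictMono (x : ℕ) : StrictMono (fun k => tow k x) :=
  strictMono_nat_of_lt_succ (fun k => tow_lt_succ k x)

theorem tow_mono {k l : ℕ} (h : k ≤ l) (x : ℕ) : tow k x ≤ tow l x :=
  (tow_strictMono x).monotone h

theorem self_le_tow (k x : ℕ) : x ≤ tow k x := tow_mono (Nat.zero_le k) x

/-- The staircase function: it dominates `2 ^ x` and has a simple bounded definition. -/
def stairE (x : ℕ) : ℕ := ∏ d ∈ Finset.range x, ((d + 1) * x.factorial + 1)

/-- The relation `R x y`. -/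
def StairR (x y : ℕ) : Prop :=
  0 < y ∧ ∃ z ≤ y, 0 < z ∧ (∀ d < x, (d + 1) ∣ z) ∧ ∀ d < x, ((d + 1) * z + 1) ∣ y

theorem stairR_stairE (x : ℕ) : StairR x (stairE x) := by
  have hpos : 0 < stairE x := Finset.prod_pos (fun d _ => Nat.succ_pos _)
  refine ⟨hpos, x.factorial, ?_, Nat.factorial_pos _, ?_, ?_⟩
  · rcases Nat.eq_zero_or_pos x with h | h
    · subst h; simp [stairE]
    · have h1 : (0 + 1) * x.factorial + 1 ∣ stairE x :=
        Finset.dvd_prod_of_mem (fun d => (d + 1) * x.factorial + 1) (Finset.mem_range.2 h)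
      have := Nat.le_of_dvd hpos h1
      omega
  · intro d hd
    exact Nat.dvd_factorial (Nat.succ_pos _) (by omega)
  · intro d hd
    exact Finset.dvd_prod_of_mem (fun d => (d + 1) * x.factorial + 1) (Finset.mem_range.2 hd)

theorem StairR.two_pow_le {x y : ℕ} (h : StairR x y) : 2 ^ x ≤ y := by
  obtain ⟨hy, z, -, hz, hdz, hdy⟩ := h
  have hcop : ∀ d ∈ Finset.range x, ∀ d' ∈ Finset.range x, d ≠ d' →
      Nat.Coprime ((d + 1) * z + 1) ((d' + 1) * z + 1) := by
    intro d hd d' hd' hne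
    rw [Finset.mem_range] at hd hd'
    rcases lt_or_gt_of_ne hne with h | h
    · apply Nat.coprime_mul_succ
      have := hdz (d' - d - 1) (by omega)
      rwa [show d' + 1 - (d + 1) = d' - d - 1 + 1 by omega]
    · apply Nat.Coprime.symm
      apply Nat.coprime_mul_succ
      have := hdz (d - d' - 1) (by omega)
      rwa [show d + 1 - (d' + 1) = d - d' - 1 + 1 by omega]
  have hprod : (∏ d ∈ Finset.range x, ((d + 1) * z + 1)) ∣ y := by
    apply Finset.prod_dvd_of_isRelPrime
    · intro d hd d' hd' hne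
      exact Nat.coprime_iff_isRelPrime.1 (hcop d hd d' hd' hne)
    · intro d hd
      exact hdy d (Finset.mem_range.1 hd)
  have h1 := Nat.le_of_dvd hy hprod
  have h2 : (2 : ℕ) ^ x ≤ ∏ d ∈ Finset.range x, ((d + 1) * z + 1) := by
    calc (2 : ℕ) ^ x = ∏ d ∈ Finset.range x, 2 := by simp
      _ ≤ _ := by
        apply Finset.prod_le_prod'
        intro d _
        have : 0 < (d + 1) * z := Nat.mul_pos (Nat.succ_pos _) hz
        omega
  exact h2.trans h1

end Pool.Agent.Helper66.Arith
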