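import Mathlib
import Pool.Agent.Helper66.ArithDefs
import Pool.Agent.Helper66.NatCode
import Pool.Agent.Helper66.FmLe

/-!
A countable class of functions on finite sequences of rationals closed under the operations needed
to build the model.
-/

set_option autoImplicit false

namespace Pool.Agent.Helper66.Arith

open Function

/-- The index set. -/
abbrev Idx := List ℚ

/-- The (natural number) approximation `⌊j_s D⌋` with `D = length j + 1`. -/
def ghat (j : Idx) (s : ℕ) : ℕ := ⌊j.getD s 0 * ((j.length : ℚ) + 1)⌋₊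

/-- The finite graph of `ghat j`. -/
def gset (j : Idx) : Finset ℕ := (Finset.range j.length).image (fun s => pr s (ghat j s))

/-- A code of the graph. -/
def e0 (j : Idx) : ℕ := codeOf (gset j) ((gset j).sup id + 1)

theorem mem_e0 (j : Idx) (z : ℕ) : Mem z (e0 j) ↔ z ∈ gset j := by
  unfold e0
  apply mem_codeOf
  intro x hx
  exact Nat.lt_succ_of_le (Finset.le_sup (f := id) hx)

theorem mem_e0_pr (j : Idx) (s y : ℕ) : Mem (pr s y) (e0 j) ↔ s < j.length ∧ y = ghat j s := by
  rw [mem_e0, gset, Finset.mem_image]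
  constructor
  · rintro ⟨s', hs', h⟩
    obtain ⟨h1, h2⟩ := pr_inj h
    subst h1
    exact ⟨Finset.mem_range.1 hs', h2.symm⟩
  · rintro ⟨hs, rfl⟩
    exact ⟨s, Finset.mem_range.2 hs, rfl⟩

/-- The base of the towers. -/
def cc (j : Idx) : ℕ := e0 j + j.length + 2

/-- The towers. -/
def TT (k : ℕ) (j : Idx) : ℕ := tow k (cc j)

/-- Least element below `n` with property `P`, or `n`. -/
noncomputable def leastOr (n : ℕ) (P : ℕ → Prop) : ℕ := by
  classical exact if h : ∃ x, x < n ∧ P x then Nat.find h else n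

theorem leastOr_le (n : ℕ) (P : ℕ → Prop) : leastOr n P ≤ n := by
  classical
  unfold leastOr
  split_ifs with h
  · exact (Nat.find_spec h).1.le
  · exact le_rfl

theorem leastOr_spec {n : ℕ} {P : ℕ → Prop} (h : ∃ x, x < n ∧ P x) :
    leastOr n P < n ∧ P (leastOr n P) := by
  classical
  unfold leastOr
  rw [dif_pos h]
  exact Nat.find_spec h

theorem leastOr_min {n : ℕ} {P : ℕ → Prop} {y : ℕ} (h : y < leastOr n P) : ¬ P y := by
  classical
  intro hy
  unfold leastOr at h
  split_ifs at h with hex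
  · exact Nat.find_min hex h ⟨h.trans (Nat.find_spec hex).1, hy⟩
  · exact hex ⟨y, h, hy⟩

theorem leastOr_le_of {n : ℕ} {P : ℕ → Prop} {y : ℕ} (h : P y) : leastOr n P ≤ y := by
  by_contra hlt
  exact leastOr_min (not_le.1 hlt) h

theorem le_leastOr {n : ℕ} {P : ℕ → Prop} {k : ℕ} (hk : k ≤ n) (h : ∀ y < k, ¬ P y) :
    k ≤ leastOr n P := by
  classical
  by_contra hlt
  have hlt : leastOr n P < k := not_le.1 hlt
  have hex : ∃ x, x < n ∧ P x := by
    by_contra hno
    unfold leastOr at hlt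
    rw [dif_neg hno] at hlt
    omega
  exact h _ hlt (leastOr_spec hex).2

/-- Assignment given by a list. -/
def valL (l : List ℕ) : ℕ → ℕ := fun i => l.getD i 0

/-- Greatest number `≤ n` with the property `P`, or `0`. -/
noncomputable def greatest (P : ℕ → Prop) (n : ℕ) : ℕ := by
  classical exact Nat.findGreatest P n

theorem greatest_le (P : ℕ → Prop) (n : ℕ) : greatest P n ≤ n := by
  classical exact Nat.findGreatest_le n

theorem le_greatest {P : ℕ → Prop} {n m : ℕ} (hm : m ≤ n) (h : P m) : m ≤ greatest P n := by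
  classical exact Nat.le_findGreatest hm h

theorem greatest_spec {P : ℕ → Prop} {n m : ℕ} (hm : m ≤ n) (h : P m) : P (greatest P n) := by
  classical exact Nat.findGreatest_spec hm h

/-- The matrix of the predicate used for the function `hB`. -/
def RB (φ : Fm) (l : List ℕ) (j : Idx) (a b : ℚ) (m i s t : ℕ) : Prop :=
  (∀ x : ℕ, Mem x s → (x : ℚ) < a * ((j.length : ℚ) + 1)) ∧
    (∀ x : ℕ, Mem x t → b * ((j.length : ℚ) + 1) < (x : ℚ)) ∧
    φ.HoldsLe (TT m j) (update (valL l) 0 (quad (sing i) 0 s t))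

/-- The predicate used for the function `hB`. -/
def QB (φ : Fm) (l : List ℕ) (j : Idx) (a b : ℚ) (m i : ℕ) : Prop :=
  ∃ s ≤ TT m j, ∃ t ≤ TT m j, RB φ l j a b m i s t

/-- The function used to show that the cut is not computable from the generic initial segment. -/
noncomputable def hB (φ : Fm) (l : List ℕ) (j : Idx) (a b : ℚ) (m : ℕ) : ℕ :=
  leastOr j.length (QB φ l j a b m)

/-- The matrix of the predicate used for the function `hC`. -/
def RC (φ : Fm) (l : List ℕ) (j : Idx) (b : ℚ) (m s t : ℕ) : Prop :=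
  (∀ x : ℕ, ¬ Mem x s) ∧
    φ.HoldsLe (TT m j) (update (valL l) 0 (quad (sing ⌊b * ((j.length : ℚ) + 1)⌋₊) 1 s t))

/-- The predicate used for the function `hC`. -/
def QC (φ : Fm) (l : List ℕ) (j : Idx) (b : ℚ) (m : ℕ) : Prop :=
  ∃ s ≤ TT m j, ∃ t ≤ TT m j, RC φ l j b m s t

/-- Witness for `QB`. -/
noncomputable def wS (φ : Fm) (a b : ℚ) (m i : ℕ) (l : List ℕ) (j : Idx) : ℕ :=
  leastOr (TT m j + 1) (fun s => ∃ t ≤ TT m j, RB φ l j a b m i s t)

/-- Witness for `QB`. -/
noncomputable def wT (φ : Fm) (a b : ℚ) (m i : ℕ) (l : List ℕ) (j : Idx) : ℕ :=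
  leastOr (TT m j + 1) (fun t => RB φ l j a b m i (wS φ a b m i l j) t)

/-- Witness for `QC`. -/
noncomputable def wS' (φ : Fm) (b : ℚ) (m : ℕ) (l : List ℕ) (j : Idx) : ℕ :=
  leastOr (TT m j + 1) (fun s => ∃ t ≤ TT m j, RC φ l j b m s t)

/-- Witness for `QC`. -/
noncomputable def wT' (φ : Fm) (b : ℚ) (m : ℕ) (l : List ℕ) (j : Idx) : ℕ :=
  leastOr (TT m j + 1) (fun t => RC φ l j b m (wS' φ b m l j) t)

/-- The function used to show that the generic initial segment is not computable. -/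
noncomputable def hC (φ : Fm) (l : List ℕ) (j : Idx) (_a b : ℚ) (m : ℕ) : ℕ := by
  classical exact if QC φ l j b m then 0 else j.length

/-- The function used to show that the generic initial segment has no gap. -/
noncomputable def hA (x : ℕ) (j : Idx) (a b : ℚ) (_m : ℕ) : ℕ := by
  classical exact if (x : ℚ) < a * ((j.length : ℚ) + 1) ∨ b * ((j.length : ℚ) + 1) < (x : ℚ)
    then 0 else j.length

/-- The staircase codes. -/
def stairSet (k c : ℕ) : Finset ℕ := (Finset.range (k + 1)).image (fun i => pr i (stairE^[i] c))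

/-- The staircase codes. -/
def stairCode (k c : ℕ) : ℕ := codeOf (stairSet k c) (pr k (stairE^[k] c) + 1)

/-- The operations. -/
inductive Op : Type
  | const (n : ℕ)
  | len
  | e0
  | tower (k : ℕ)
  | add
  | mul
  | sub
  | skol (φ : Fm) (i : ℕ)
  | coll (φ : Fm) (i i' : ℕ)
  | maxE
  | minE
  | ovP
  | ovN
  | b0 (φ : Fm) (a b : ℚ)
  | setc (φ : Fm) (i : ℕ)
  | single
  | stair (k : ℕ)
  | flr (b : ℚ)
  | gh (s : ℕ)
  | wS (φ : Fm) (a b : ℚ) (m i : ℕ)
  | wT (φ : Fm) (a b : ℚ) (m i : ℕ)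
  | wS' (φ : Fm) (b : ℚ) (m : ℕ)
  | wT' (φ : Fm) (b : ℚ) (m : ℕ)
  deriving Countable

/-- Predicate for `coll`. -/
def Qcoll (φ : Fm) (i i' : ℕ) (l : List ℕ) (j : Idx) (k x : ℕ) : Prop :=
  ∃ y ≤ TT k j, φ.HoldsLe (TT k j) (update (update (valL l) i x) i' y)

/-- The action of the operations. -/
noncomputable def Op.run : Op → List ℕ → Idx → ℕ
  | .const n, _, _ => n
  | .len, _, j => j.length
  | .e0, _, j => Arith.e0 j
  | .tower k, _, j => TT k j
  | .add, l, _ => l.getD 0 0 + l.getD 1 0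
  | .mul, l, _ => l.getD 0 0 * l.getD 1 0
  | .sub, l, _ => l.getD 0 0 - l.getD 1 0
  | .skol φ i, l, _ => leastOr (l.getD 0 0)
      (fun x => ¬ φ.HoldsLe (l.getD 1 0) (update (valL (l.drop 2)) i x))
  | .coll φ i i', l, j => leastOr (l.getD 0 0)
      (fun x => ¬ Qcoll φ i i' (l.drop 1) j
        (greatest (fun k => ∃ x < l.getD 0 0, ¬ Qcoll φ i i' (l.drop 1) j k x) j.length) x)
  | .maxE, l, _ => greatest (fun x => Mem x (l.getD 0 0)) (l.getD 0 0)
  | .minE, l, _ => leastOr (l.getD 0 0) (fun x => Mem x (l.getD 0 0))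
  | .ovP, l, j => leastOr j.length (fun s => l.getD 1 0 ≤ s ∧
      ¬ ∀ x, Mem x (l.getD 0 0) → l.getD 1 0 * x + (j.length + 1) < l.getD 1 0 * ghat j s)
  | .ovN, l, j => leastOr j.length (fun s => l.getD 1 0 ≤ s ∧
      ¬ ∀ x, Mem x (l.getD 0 0) → l.getD 1 0 * ghat j s + (j.length + 1) < l.getD 1 0 * x)
  | .b0 φ a b, l, j => greatest (fun n => ∀ τ : ℚ × ℚ × ℕ, Encodable.encode τ < n → a ≤ τ.1 →
      τ.1 < τ.2.1 → τ.2.1 ≤ b → n ≤ hB φ l j τ.1 τ.2.1 τ.2.2) j.length
  | .setc φ i, l, _ => by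
      classical exact codeOf ((Finset.range (l.getD 0 0)).filter
        (fun x => φ.HoldsLe (l.getD 1 0) (update (valL (l.drop 2)) i x))) (l.getD 0 0)
  | .single, l, _ => sing (l.getD 0 0)
  | .stair k, _, j => stairCode k (cc j)
  | .flr b, _, j => ⌊b * ((j.length : ℚ) + 1)⌋₊
  | .gh s, _, j => ghat j s
  | .wS φ a b m i, l, j => Arith.wS φ a b m i l j
  | .wT φ a b m i, l, j => Arith.wT φ a b m i l j
  | .wS' φ b m, l, j => Arith.wS' φ b m l j
  | .wT' φ b m, l, j => Arith.wT' φ b m l j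

/-- Stages of the closure. -/
def Fstage : ℕ → Set (Idx → ℕ)
  | 0 => ∅
  | n + 1 => {g | ∃ (o : Op) (l : List (Idx → ℕ)), (∀ f ∈ l, f ∈ Fstage n) ∧
      g = fun j => o.run (l.map (fun f => f j)) j}

/-- The countable closed class of functions. -/
def InF (f : Idx → ℕ) : Prop := ∃ n, f ∈ Fstage n

theorem Fstage_mono (n : ℕ) : Fstage n ⊆ Fstage (n + 1) := by
  induction n with
  | zero => intro f hf; exact absurd hf (by simp [Fstage])
  | succ n ih =>
    rintro f ⟨o, l, hl, rfl⟩
    exact ⟨o, l, fun g hg => ih (hl g hg), rfl⟩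

theorem Fstage_mono' {m n : ℕ} (h : m ≤ n) : Fstage m ⊆ Fstage n := by
  induction n, h using Nat.le_induction with
  | base => exact subset_rfl
  | succ n _ ih => exact ih.trans (Fstage_mono n)

theorem InF.run (o : Op) (l : List (Idx → ℕ)) (h : ∀ f ∈ l, InF f) :
    InF (fun j => o.run (l.map (fun f => f j)) j) := by
  obtain ⟨n, hn⟩ : ∃ n, ∀ f ∈ l, f ∈ Fstage n := by
    induction l with
    | nil => exact ⟨0, by simp⟩
    | cons f l ih =>
      obtain ⟨n, hn⟩ := ih (fun g hg => h g (List.mem_cons_of_mem _ hg))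
      obtain ⟨m, hm⟩ := h f List.mem_cons_self
      refine ⟨max m n, fun g hg => ?_⟩
      rcases List.mem_cons.1 hg with e | e
      · exact Fstage_mono' (le_max_left _ _) (e ▸ hm)
      · exact Fstage_mono' (le_max_right _ _) (hn g e)
  exact ⟨n + 1, o, l, hn, rfl⟩

theorem Fstage_countable (n : ℕ) : (Fstage n).Countable := by
  induction n with
  | zero => simp [Fstage]
  | succ n ih =>
    have : Countable (Fstage n) := ih.to_subtype
    have hsub : Fstage (n + 1) ⊆ Set.range (fun (x : Op × List (Fstage n)) => fun j =>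
        x.1.run ((x.2.map Subtype.val).map (fun f => f j)) j) := by
      rintro g ⟨o, l, hl, rfl⟩
      refine ⟨(o, l.attach.map (fun f => ⟨f.1, hl f.1 f.2⟩)), ?_⟩
      simp [List.map_map, Function.comp_def]
    exact (Set.countable_range _).mono hsub

theorem InF_countable : {f | InF f}.Countable := by
  have : {f | InF f} = ⋃ n, Fstage n := by
    ext f; simp [InF]
  rw [this]
  exact Set.countable_iUnion Fstage_countable

end Pool.Agent.Helper66.Arith
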