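import Mathlib
import Pool.Agent.Helper66.Ops

/-!
Closure properties of the class of functions and of the growth bounds.
-/

set_option autoImplicit false

namespace Pool.Agent.Helper66.Arith

open Function

theorem InF.const (n : ℕ) : InF (fun _ => n) := InF.run (.const n) [] (by simp)
theorem InF.len : InF (fun j => j.length) := InF.run .len [] (by simp)
theorem InF.e0 : InF (fun j => Arith.e0 j) := InF.run .e0 [] (by simp)
theorem InF.tower (k : ℕ) : InF (fun j => TT k j) := InF.run (.tower k) [] (by simp)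
theorem InF.flr (b : ℚ) : InF (fun j => ⌊b * ((j.length : ℚ) + 1)⌋₊) :=
  InF.run (.flr b) [] (by simp)
theorem InF.stair (k : ℕ) : InF (fun j => stairCode k (cc j)) := InF.run (.stair k) [] (by simp)

theorem InF.add {f g : Idx → ℕ} (hf : InF f) (hg : InF g) : InF (fun j => f j + g j) :=
  InF.run .add [f, g] (by simp [hf, hg])
theorem InF.mul {f g : Idx → ℕ} (hf : InF f) (hg : InF g) : InF (fun j => f j * g j) :=
  InF.run .mul [f, g] (by simp [hf, hg])
theorem InF.sub {f g : Idx → ℕ} (hf : InF f) (hg : InF g) : InF (fun j => f j - g j) :=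
  InF.run .sub [f, g] (by simp [hf, hg])
theorem InF.sing {f : Idx → ℕ} (hf : InF f) : InF (fun j => Arith.sing (f j)) :=
  InF.run .single [f] (by simp [hf])
theorem InF.maxE {f : Idx → ℕ} (hf : InF f) :
    InF (fun j => greatest (fun x => Mem x (f j)) (f j)) := InF.run .maxE [f] (by simp [hf])
theorem InF.minE {f : Idx → ℕ} (hf : InF f) :
    InF (fun j => leastOr (f j) (fun x => Mem x (f j))) := InF.run .minE [f] (by simp [hf])
theorem InF.ovP {f g : Idx → ℕ} (hf : InF f) (hg : InF g) :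
    InF (fun j => leastOr j.length (fun s => g j ≤ s ∧
      ¬ ∀ x, Mem x (f j) → g j * x + (j.length + 1) < g j * ghat j s)) :=
  InF.run .ovP [f, g] (by simp [hf, hg])
theorem InF.ovN {f g : Idx → ℕ} (hf : InF f) (hg : InF g) :
    InF (fun j => leastOr j.length (fun s => g j ≤ s ∧
      ¬ ∀ x, Mem x (f j) → g j * ghat j s + (j.length + 1) < g j * x)) :=
  InF.run .ovN [f, g] (by simp [hf, hg])

/-- The list of the first `N` functions. -/
def vlist (N : ℕ) (f : ℕ → Idx → ℕ) : List (Idx → ℕ) := (List.range N).map f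

theorem mem_vlist {N : ℕ} {f : ℕ → Idx → ℕ} (hf : ∀ i, InF (f i)) : ∀ g ∈ vlist N f, InF g := by
  intro g hg
  simp only [vlist, List.mem_map] at hg
  obtain ⟨i, -, rfl⟩ := hg
  exact hf i

theorem valL_vlist (N : ℕ) (f : ℕ → Idx → ℕ) (j : Idx) :
    ∀ i < N, valL ((vlist N f).map (fun f => f j)) i = f i j := by
  intro i hi
  simp only [valL, vlist, List.map_map]
  rw [List.getD_eq_getElem _ _ (by simpa using hi)]
  simp

theorem holdsLe_valL (φ : Fm) {N : ℕ} (hN : φ.bd ≤ N) (B : ℕ) (f : ℕ → Idx → ℕ) (j : Idx)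
    (i x : ℕ) : φ.HoldsLe B (update (valL ((vlist N f).map (fun f => f j))) i x) ↔
      φ.HoldsLe B (update (fun i => f i j) i x) :=
  holdsLe_congr φ B (update_congr (fun k hk => valL_vlist N f j k (lt_of_lt_of_le hk hN)) i x)

theorem InF.skol (φ : Fm) (i : ℕ) {n B : Idx → ℕ} {f : ℕ → Idx → ℕ} (hn : InF n) (hB : InF B)
    (hf : ∀ i, InF (f i)) : InF (fun j => leastOr (n j)
      (fun x => ¬ φ.HoldsLe (B j) (update (fun i => f i j) i x))) := by
  have h := InF.run (.skol φ i) (n :: B :: vlist φ.bd f) (by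
    intro g hg
    simp only [List.mem_cons] at hg
    rcases hg with h | h | h
    · exact h ▸ hn
    · exact h ▸ hB
    · exact mem_vlist hf g h)
  convert h using 2 with j
  simp only [Op.run, List.map_cons, List.getD_cons_zero, List.getD_cons_succ, List.drop_succ_cons,
    List.drop_zero]
  congr 1
  funext x
  rw [holdsLe_valL φ le_rfl]

theorem InF.setc (φ : Fm) (i : ℕ) {n B : Idx → ℕ} {f : ℕ → Idx → ℕ} (hn : InF n) (hB : InF B)
    (hf : ∀ i, InF (f i)) [∀ j, DecidablePred
      (fun x => φ.HoldsLe (B j) (update (fun i => f i j) i x))] : InF (fun j =>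
      codeOf ((Finset.range (n j)).filter
        (fun x => φ.HoldsLe (B j) (update (fun i => f i j) i x))) (n j)) := by
  have h := InF.run (.setc φ i) (n :: B :: vlist φ.bd f) (by
    intro g hg
    simp only [List.mem_cons] at hg
    rcases hg with h | h | h
    · exact h ▸ hn
    · exact h ▸ hB
    · exact mem_vlist hf g h)
  convert h using 2 with j
  simp only [Op.run, List.map_cons, List.getD_cons_zero, List.getD_cons_succ, List.drop_succ_cons,
    List.drop_zero]
  congr 1
  ext x
  simp only [Finset.mem_filter, Finset.mem_range]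
  exact and_congr_right (fun _ => (holdsLe_valL φ le_rfl (B j) f j i x).symm)

theorem update_congr₂ {v v' : ℕ → ℕ} {N : ℕ} (h : ∀ i < N, v i = v' i) (i x i' y : ℕ) :
    ∀ j < N, update (update v i x) i' y j = update (update v' i x) i' y j :=
  update_congr (update_congr h i x) i' y

/-- The predicate for collection, in terms of a sequence of functions. -/
def Pcoll (φ : Fm) (i i' : ℕ) (f : ℕ → Idx → ℕ) (j : Idx) (k x : ℕ) : Prop :=
  ∃ y ≤ TT k j, φ.HoldsLe (TT k j) (update (update (fun i => f i j) i x) i' y)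

theorem InF.coll (φ : Fm) (i i' : ℕ) {n : Idx → ℕ} {f : ℕ → Idx → ℕ} (hn : InF n)
    (hf : ∀ i, InF (f i)) : InF (fun j => leastOr (n j) (fun x => ¬ Pcoll φ i i' f j
        (greatest (fun k => ∃ x < n j, ¬ Pcoll φ i i' f j k x) j.length) x)) := by
  have h := InF.run (.coll φ i i') (n :: vlist φ.bd f) (by
    intro g hg
    simp only [List.mem_cons] at hg
    rcases hg with h | h
    · exact h ▸ hn
    · exact mem_vlist hf g h)
  have key : ∀ j k x, Qcoll φ i i' ((vlist φ.bd f).map (fun f => f j)) j k x ↔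
      Pcoll φ i i' f j k x := by
    intro j k x
    unfold Qcoll Pcoll
    refine exists_congr (fun y => and_congr_right (fun _ => ?_))
    exact holdsLe_congr φ _ (update_congr₂ (fun m hm => valL_vlist _ f j m hm) i x i' y)
  convert h using 2 with j
  simp only [Op.run, List.map_cons, List.getD_cons_zero, List.drop_succ_cons,
    List.drop_zero, key]

theorem InF.b0 (φ : Fm) (a b : ℚ) {N : ℕ} {f : ℕ → Idx → ℕ} (hf : ∀ i, InF (f i)) :
    InF (fun j => greatest (fun n => ∀ τ : ℚ × ℚ × ℕ, Encodable.encode τ < n → a ≤ τ.1 →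
      τ.1 < τ.2.1 → τ.2.1 ≤ b → n ≤ hB φ ((vlist N f).map (fun f => f j)) j τ.1 τ.2.1 τ.2.2)
        j.length) :=
  InF.run (.b0 φ a b) (vlist N f) (mem_vlist hf)

theorem InF.gh (s : ℕ) : InF (fun j => ghat j s) := InF.run (.gh s) [] (by simp)

theorem InF.wS (φ : Fm) (a b : ℚ) (m i : ℕ) {N : ℕ} {f : ℕ → Idx → ℕ} (hf : ∀ i, InF (f i)) :
    InF (fun j => Arith.wS φ a b m i ((vlist N f).map (fun f => f j)) j) :=
  InF.run (.wS φ a b m i) (vlist N f) (mem_vlist hf)
theorem InF.wT (φ : Fm) (a b : ℚ) (m i : ℕ) {N : ℕ} {f : ℕ → Idx → ℕ} (hf : ∀ i, InF (f i)) :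
    InF (fun j => Arith.wT φ a b m i ((vlist N f).map (fun f => f j)) j) :=
  InF.run (.wT φ a b m i) (vlist N f) (mem_vlist hf)
theorem InF.wS' (φ : Fm) (b : ℚ) (m : ℕ) {N : ℕ} {f : ℕ → Idx → ℕ} (hf : ∀ i, InF (f i)) :
    InF (fun j => Arith.wS' φ b m ((vlist N f).map (fun f => f j)) j) :=
  InF.run (.wS' φ b m) (vlist N f) (mem_vlist hf)
theorem InF.wT' (φ : Fm) (b : ℚ) (m : ℕ) {N : ℕ} {f : ℕ → Idx → ℕ} (hf : ∀ i, InF (f i)) :
    InF (fun j => Arith.wT' φ b m ((vlist N f).map (fun f => f j)) j) :=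
  InF.run (.wT' φ b m) (vlist N f) (mem_vlist hf)

/-! Growth. -/

section Dom

variable {U : Ultrafilter Idx}

/-- `f` is eventually bounded by a tower of fixed height. -/
def Dom (U : Ultrafilter Idx) (f : Idx → ℕ) : Prop :=
  ∃ k : ℕ, ∀ᶠ j in (U : Filter Idx), f j ≤ TT k j

theorem TT_mono {k l : ℕ} (h : k ≤ l) (j : Idx) : TT k j ≤ TT l j := tow_mono h _

theorem TT_lt {k l : ℕ} (h : k < l) (j : Idx) : TT k j < TT l j := tow_strictMono _ h

theorem le_TT (k : ℕ) (j : Idx) : k ≤ TT k j := (tow_strictMono (cc j)).le_apply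

theorem Dom.mono {f g : Idx → ℕ} (hg : Dom U g) (h : ∀ᶠ j in (U : Filter Idx), f j ≤ g j) :
    Dom U f := by
  obtain ⟨k, hk⟩ := hg
  exact ⟨k, by filter_upwards [hk, h] with j h1 h2 using h2.trans h1⟩

theorem Dom.mono' {f g : Idx → ℕ} (hg : Dom U g) (h : ∀ j, f j ≤ g j) :
    Dom U f := hg.mono (Filter.Eventually.of_forall h)

theorem Dom.const (n : ℕ) : Dom U (fun _ => n) := ⟨n, Filter.Eventually.of_forall (le_TT n)⟩

theorem Dom.tower (k : ℕ) : Dom U (fun j => TT k j) :=
  ⟨k, Filter.Eventually.of_forall (fun _ => le_rfl)⟩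

theorem Dom.cc : Dom U (fun j => Arith.cc j) := Dom.tower 0

theorem Dom.len : Dom U (fun j => j.length) :=
  Dom.cc.mono' (fun j => by unfold Arith.cc; omega)

theorem Dom.e0 : Dom U (fun j => Arith.e0 j) :=
  Dom.cc.mono' (fun j => by unfold Arith.cc; omega)

theorem Dom.exp {f : Idx → ℕ} (hf : Dom U f) : Dom U (fun j => 2 ^ f j) := by
  obtain ⟨k, hk⟩ := hf
  exact ⟨k + 1, by filter_upwards [hk] with j h using Nat.pow_le_pow_right (by norm_num) h⟩

theorem two_mul_le_two_pow (x : ℕ) : 2 * x ≤ 2 ^ x := by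
  rcases Nat.eq_zero_or_pos x with h | h
  · subst h; simp
  · obtain ⟨y, rfl⟩ := Nat.exists_eq_succ_of_ne_zero h.ne'
    have : y < 2 ^ y := Nat.lt_two_pow_self
    rw [Nat.succ_eq_add_one, pow_succ]
    omega

theorem Dom.add {f g : Idx → ℕ} (hf : Dom U f) (hg : Dom U g) : Dom U (fun j => f j + g j) := by
  obtain ⟨k, hk⟩ := hf
  obtain ⟨l, hl⟩ := hg
  refine ⟨max k l + 1, ?_⟩
  filter_upwards [hk, hl] with j h1 h2
  have h3 := TT_mono (le_max_left k l) j
  have h4 := TT_mono (le_max_right k l) j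
  have h5 : TT (max k l + 1) j = 2 ^ TT (max k l) j := rfl
  have h6 := two_mul_le_two_pow (TT (max k l) j)
  omega

theorem Dom.mul {f g : Idx → ℕ} (hf : Dom U f) (hg : Dom U g) : Dom U (fun j => f j * g j) := by
  apply (hf.add hg).exp.mono'
  intro j
  rw [pow_add]
  exact Nat.mul_le_mul (Nat.lt_two_pow_self).le (Nat.lt_two_pow_self).le

theorem Dom.pow {f g : Idx → ℕ} (hf : Dom U f) (hg : Dom U g) : Dom U (fun j => f j ^ g j) := by
  apply (hf.mul hg).exp.mono'
  intro j
  rw [pow_mul]
  exact Nat.pow_le_pow_left (Nat.lt_two_pow_self).le _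

theorem Dom.factorial {f : Idx → ℕ} (hf : Dom U f) : Dom U (fun j => (f j).factorial) :=
  (hf.pow hf).mono' (fun j => Nat.factorial_le_pow (f j))

theorem Dom.pr {f g : Idx → ℕ} (hf : Dom U f) (hg : Dom U g) :
    Dom U (fun j => Arith.pr (f j) (g j)) :=
  ((hf.add hg).mul (hf.add hg)).add hf

theorem codeOf_le {S : Finset ℕ} {w : ℕ} (hS : ∀ x ∈ S, x < w) :
    codeOf S w ≤ pr (pr ((w * w.factorial + 1) ^ w) w.factorial) w := by
  unfold codeOf
  apply pr_mono _ le_rfl
  apply pr_mono _ le_rfl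
  calc (∏ x ∈ S, ((x + 1) * w.factorial + 1)) ≤ ∏ x ∈ S, (w * w.factorial + 1) := by
        apply Finset.prod_le_prod'
        intro x hx
        have := Nat.mul_le_mul_right w.factorial (hS x hx)
        have h2 : x.succ = x + 1 := rfl
        rw [h2] at this
        omega
    _ = (w * w.factorial + 1) ^ S.card := by simp
    _ ≤ (w * w.factorial + 1) ^ w := by
        apply Nat.pow_le_pow_right (Nat.succ_pos _)
        have : S ⊆ Finset.range w := fun x hx => Finset.mem_range.2 (hS x hx)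
        simpa using Finset.card_le_card this

theorem Dom.codeOf {S : Idx → Finset ℕ} {w : Idx → ℕ} (hw : Dom U w)
    (hS : ∀ j, ∀ x ∈ S j, x < w j) : Dom U (fun j => Arith.codeOf (S j) (w j)) :=
  ((((((hw.mul hw.factorial).add (Dom.const 1)).pow hw).pr hw.factorial).pr hw)).mono'
    (fun j => codeOf_le (hS j))

theorem Dom.sing {f : Idx → ℕ} (hf : Dom U f) : Dom U (fun j => Arith.sing (f j)) :=
  Dom.codeOf (S := fun j => {f j}) (w := fun j => f j + 1) (hf.add (Dom.const 1)) (by simp)

theorem stairE_le (x : ℕ) : stairE x ≤ (x * x.factorial + 1) ^ x := by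
  unfold stairE
  calc (∏ d ∈ Finset.range x, ((d + 1) * x.factorial + 1))
      ≤ ∏ d ∈ Finset.range x, (x * x.factorial + 1) := by
        apply Finset.prod_le_prod'
        intro d hd
        have := Nat.mul_le_mul_right x.factorial (Finset.mem_range.1 hd)
        have h2 : d.succ = d + 1 := rfl
        rw [h2] at this
        omega
    _ = (x * x.factorial + 1) ^ x := by simp

theorem Dom.stairE {f : Idx → ℕ} (hf : Dom U f) : Dom U (fun j => Arith.stairE (f j)) :=
  (((hf.mul hf.factorial).add (Dom.const 1)).pow hf).mono' (fun j => stairE_le _)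

theorem Dom.stairIter (k : ℕ) : Dom U (fun j => Arith.stairE^[k] (Arith.cc j)) := by
  induction k with
  | zero => exact Dom.cc
  | succ k ih =>
    simp only [Function.iterate_succ_apply']
    exact ih.stairE

theorem le_stairE (x : ℕ) : x ≤ stairE x :=
  (Nat.lt_two_pow_self).le.trans (stairR_stairE x).two_pow_le

theorem stairIter_mono {i k : ℕ} (h : i ≤ k) (c : ℕ) : stairE^[i] c ≤ stairE^[k] c := by
  induction k, h using Nat.le_induction with
  | base => exact le_rfl
  | succ k _ ih =>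
    rw [Function.iterate_succ_apply']
    exact ih.trans (le_stairE _)

theorem mem_stairCode (k c z : ℕ) : Mem z (stairCode k c) ↔ z ∈ stairSet k c := by
  unfold stairCode
  apply mem_codeOf
  intro x hx
  simp only [stairSet, Finset.mem_image, Finset.mem_range] at hx
  obtain ⟨i, hi, rfl⟩ := hx
  exact Nat.lt_succ_of_le (pr_mono (by omega) (stairIter_mono (by omega) c))

theorem Dom.stairCode (k : ℕ) : Dom U (fun j => Arith.stairCode k (Arith.cc j)) := by
  apply Dom.codeOf (((Dom.const k).pr (Dom.stairIter k)).add (Dom.const 1))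
  intro _ x hx
  simp only [stairSet, Finset.mem_image, Finset.mem_range] at hx
  obtain ⟨i, hi, rfl⟩ := hx
  exact Nat.lt_succ_of_le (pr_mono (by omega) (stairIter_mono (by omega) _))

end Dom

end Pool.Agent.Helper66.Arith
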