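import Mathlib

/-!
Combinatorial forcing: a generic ultrafilter on finite sequences of rationals.
-/

set_option autoImplicit false

namespace Pool.Agent.Helper66.GenU

/-- A condition: a finite sequence `u`, an open interval `(a, b)` of allowed further values and a
set `E` of finite sequences such that every allowed extension of `u` is a prefix of some member
of `E`. -/
structure Cond where
  u : List ℚ
  a : ℚ
  b : ℚ
  hab : a < b
  E : Set (List ℚ)
  full : ∀ e : List ℚ, (∀ q ∈ e, a < q ∧ q < b) → ∃ j ∈ E, (u ++ e) <+: j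

/-- `p'` extends `p`. -/
def Ext (p' p : Cond) : Prop :=
  (∃ e : List ℚ, (∀ q ∈ e, p.a < q ∧ q < p.b) ∧ p'.u = p.u ++ e) ∧
    p.a ≤ p'.a ∧ p'.b ≤ p.b ∧ p'.E ⊆ p.E

theorem Ext.refl (p : Cond) : Ext p p :=
  ⟨⟨[], by simp, by simp⟩, le_rfl, le_rfl, subset_rfl⟩

theorem Ext.trans {p q r : Cond} (h₁ : Ext p q) (h₂ : Ext q r) : Ext p r := by
  obtain ⟨⟨e₁, he₁, hu₁⟩, ha₁, hb₁, hE₁⟩ := h₁
  obtain ⟨⟨e₂, he₂, hu₂⟩, ha₂, hb₂, hE₂⟩ := h₂
  refine ⟨⟨e₂ ++ e₁, ?_, ?_⟩, ha₂.trans ha₁, hb₁.trans hb₂, hE₁.trans hE₂⟩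
  · intro q hq
    rcases List.mem_append.1 hq with h | h
    · exact he₂ q h
    · exact ⟨ha₂.trans_lt (he₁ q h).1, (he₁ q h).2.trans_le hb₂⟩
  · rw [hu₁, hu₂, List.append_assoc]

/-- Shrink the interval strictly, below a given length. -/
theorem exists_shrink (p : Cond) (ε : ℚ) (hε : 0 < ε) :
    ∃ p' : Cond, Ext p' p ∧ p.a < p'.a ∧ p'.b < p.b ∧ p'.b - p'.a < ε := by
  set m : ℚ := (p.a + p.b) / 2 with hm
  set δ : ℚ := min (ε / 3) ((p.b - p.a) / 4) with hδ
  have hab := p.hab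
  have hδ0 : 0 < δ := lt_min (by linarith) (by linarith)
  have hδ1 : δ ≤ ε / 3 := min_le_left _ _
  have hδ2 : δ ≤ (p.b - p.a) / 4 := min_le_right _ _
  refine ⟨⟨p.u, m - δ, m + δ, by linarith, p.E, ?_⟩, ⟨⟨[], by simp, by simp⟩, ?_, ?_, subset_rfl⟩,
    ?_, ?_, ?_⟩
  · intro e he
    apply p.full e
    intro q hq
    have := he q hq
    constructor <;> linarith [this.1, this.2]
  all_goals simp only; linarith

/-- Lengthen the sequence. -/
theorem exists_lengthen (p : Cond) :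
    ∃ p' : Cond, Ext p' p ∧ p.u.length < p'.u.length ∧ (∀ j ∈ p'.E, p'.u <+: j) ∧
      p'.a = p.a ∧ p'.b = p.b := by
  have hab := p.hab
  set q : ℚ := (p.a + p.b) / 2 with hq
  have hq1 : p.a < q := by linarith
  have hq2 : q < p.b := by linarith
  refine ⟨⟨p.u ++ [q], p.a, p.b, hab, {j ∈ p.E | (p.u ++ [q]) <+: j}, ?_⟩,
    ⟨⟨[q], by simp [hq1, hq2], rfl⟩, le_rfl, le_rfl, fun j hj => hj.1⟩, by simp, ?_, rfl, rfl⟩
  · intro e he
    obtain ⟨j, hj, hpre⟩ := p.full (q :: e) (by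
      intro r hr
      rcases List.mem_cons.1 hr with h | h
      · exact h ▸ ⟨hq1, hq2⟩
      · exact he r h)
    refine ⟨j, ⟨hj, ?_⟩, ?_⟩
    · exact (List.prefix_append (p.u ++ [q]) e).trans (by simpa using hpre)
    · simpa using hpre
  · intro j hj
    exact hj.2

/-- Finite step: if for every pair `(m, i)` in the list the set `S m i` is nowhere full, then some
extension is avoided by all of them. -/
theorem exists_avoid (u : List ℚ) (a b : ℚ) (S : (ℚ × ℚ × ℕ) → ℕ → Set (List ℚ))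
    (L : List ((ℚ × ℚ × ℕ) × ℕ))
    (hgood : ∀ τ ∈ L, a ≤ τ.1.1 ∧ τ.1.1 < τ.1.2.1 ∧ τ.1.2.1 ≤ b)
    (e : List ℚ)
    (hnf : ∀ τ ∈ L, ∀ e' : List ℚ, (∀ q ∈ e', a < q ∧ q < b) →
      ¬ ∀ e'' : List ℚ, (∀ q ∈ e'', τ.1.1 < q ∧ q < τ.1.2.1) →
        ∃ j ∈ S τ.1 τ.2, (u ++ (e ++ e') ++ e'') <+: j) :
    ∃ e' : List ℚ, (∀ q ∈ e', a < q ∧ q < b) ∧
      ∀ τ ∈ L, ¬ ∃ j ∈ S τ.1 τ.2, (u ++ (e ++ e')) <+: j := by
  induction L with
  | nil => exact ⟨[], by simp, by simp⟩
  | cons τ L ih =>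
    obtain ⟨e₁, he₁, h₁⟩ := ih (fun σ hσ => hgood σ (List.mem_cons_of_mem _ hσ))
      (fun σ hσ => hnf σ (List.mem_cons_of_mem _ hσ))
    have h2 := hnf τ (List.mem_cons_self) e₁ he₁
    push Not at h2
    obtain ⟨e₂, he₂, h₂⟩ := h2
    have hg := hgood τ (List.mem_cons_self)
    refine ⟨e₁ ++ e₂, ?_, ?_⟩
    · intro q hq
      rcases List.mem_append.1 hq with h | h
      · exact he₁ q h
      · exact ⟨hg.1.trans_lt (he₂ q h).1, (he₂ q h).2.trans_le hg.2.2⟩
    · intro σ hσ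
      rcases List.mem_cons.1 hσ with h | h
      · subst h
        rintro ⟨j, hj, hpre⟩
        exact h₂ j hj (by simpa [List.append_assoc] using hpre)
      · rintro ⟨j, hj, hpre⟩
        apply h₁ σ h
        refine ⟨j, hj, ?_⟩
        have : (u ++ (e ++ e₁)) <+: (u ++ (e ++ (e₁ ++ e₂))) := by
          rw [show u ++ (e ++ (e₁ ++ e₂)) = (u ++ (e ++ e₁)) ++ e₂ by simp [List.append_assoc]]
          exact List.prefix_append _ _
        exact this.trans hpre

/-- The decision step for a single function `h`. -/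
theorem exists_decide (p : Cond) (h : List ℚ → ℚ → ℚ → ℕ → ℕ) :
    ∃ p' : Cond, Ext p' p ∧
      ((∃ m i : ℕ, ∀ j ∈ p'.E, h j p'.a p'.b m = i) ∨
        (∀ a' b' : ℚ, p.a ≤ a' → a' < b' → b' ≤ p.b → ∀ m i : ℕ, p'.a = p.a ∧ p'.b = p.b ∧
          {j ∈ p'.E | h j a' b' m = i}.Finite)) := by
  classical
  obtain ⟨enum, henum⟩ : ∃ f : ℕ → ℚ × ℚ × ℕ, Function.Surjective f :=
    exists_surjective_nat _
  set G : ℕ → Prop := fun m => p.a ≤ (enum m).1 ∧ (enum m).1 < (enum m).2.1 ∧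
    (enum m).2.1 ≤ p.b with hG
  set En : ℕ → Set (List ℚ) := fun n => {j ∈ p.E | ∀ m < n, G m →
    n ≤ h j (enum m).1 (enum m).2.1 (enum m).2.2} with hEn
  have hanti : ∀ {n n' : ℕ}, n ≤ n' → En n' ⊆ En n := by
    intro n n' hnn j hj
    exact ⟨hj.1, fun m hm hg => hnn.trans (hj.2 m (hm.trans_le hnn) hg)⟩
  by_cases hall : ∀ n, ∀ e : List ℚ, (∀ q ∈ e, p.a < q ∧ q < p.b) →
      ∃ j ∈ En n, (p.u ++ e) <+: j
  · -- the thin case
    choose f hf1 hf2 using hall
    set g : {e : List ℚ // ∀ q ∈ e, p.a < q ∧ q < p.b} → List ℚ :=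
      fun e => f (Encodable.encode e.1) e.1 e.2 with hg
    refine ⟨⟨p.u, p.a, p.b, p.hab, Set.range g, ?_⟩, ⟨⟨[], by simp, by simp⟩, le_rfl, le_rfl, ?_⟩,
      Or.inr ?_⟩
    · intro e he
      exact ⟨g ⟨e, he⟩, ⟨_, rfl⟩, hf2 _ e he⟩
    · rintro j ⟨e, rfl⟩
      exact (hf1 _ e.1 e.2).1
    · intro a' b' ha' hab' hb' m i
      refine ⟨rfl, rfl, ?_⟩
      obtain ⟨k, hk⟩ := henum (a', b', m)
      set n := max (k + 1) (i + 1) with hn
      have hsub : {j ∈ Set.range g | h j a' b' m = i} ⊆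
          g '' {e | Encodable.encode e.1 < n} := by
        rintro j ⟨⟨e, rfl⟩, hj⟩
        refine ⟨e, ?_, rfl⟩
        by_contra hlt
        have hle : n ≤ Encodable.encode e.1 := not_lt.1 hlt
        have h1 : g e ∈ En n := hanti hle (hf1 _ e.1 e.2)
        have h2 := h1.2 k (by omega) (by simp only [hG, hk]; exact ⟨ha', hab', hb'⟩)
        rw [hk] at h2
        simp only at h2
        omega
      refine Set.Finite.subset (Set.Finite.image _ ?_) hsub
      apply Set.Finite.of_injOn (f := fun e : {e : List ℚ // ∀ q ∈ e, p.a < q ∧ q < p.b} =>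
        Encodable.encode e.1) (t := Set.Iio n)
      · intro e he
        exact he
      · intro e₁ _ e₂ _ h12
        exact Subtype.ext (Encodable.encode_injective h12)
      · exact Set.finite_Iio n
  · -- the decided case
    push Not at hall
    obtain ⟨n, e, he, hnone⟩ := hall
    set S : (ℚ × ℚ × ℕ) → ℕ → Set (List ℚ) := fun τ i =>
      {j ∈ p.E | h j τ.1 τ.2.1 τ.2.2 = i} with hS
    set L : List ((ℚ × ℚ × ℕ) × ℕ) :=
      (((List.range n).filter (fun m => G m)) ×ˢ (List.range n)).map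
        (fun x => (enum x.1, x.2)) with hL
    have hmemL : ∀ τ : (ℚ × ℚ × ℕ) × ℕ, τ ∈ L ↔
        ∃ m i, m < n ∧ G m ∧ i < n ∧ (enum m, i) = τ := by
      intro τ
      simp only [hL, List.mem_map, Prod.exists, List.mem_product, List.mem_filter,
        List.mem_range, decide_eq_true_eq]
      constructor
      · rintro ⟨m, i, ⟨⟨h1, h2⟩, h3⟩, h4⟩
        exact ⟨m, i, h1, h2, h3, h4⟩
      · rintro ⟨m, i, h1, h2, h3, h4⟩
        exact ⟨m, i, ⟨⟨h1, h2⟩, h3⟩, h4⟩
    have hgood : ∀ τ ∈ L, p.a ≤ τ.1.1 ∧ τ.1.1 < τ.1.2.1 ∧ τ.1.2.1 ≤ p.b := by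
      intro τ hτ
      obtain ⟨m, i, h1, h2, h3, rfl⟩ := (hmemL τ).1 hτ
      exact h2
    by_cases hex : ∃ τ ∈ L, ∃ e' : List ℚ, (∀ q ∈ e', p.a < q ∧ q < p.b) ∧
        ∀ e'' : List ℚ, (∀ q ∈ e'', τ.1.1 < q ∧ q < τ.1.2.1) →
        ∃ j ∈ S τ.1 τ.2, (p.u ++ (e ++ e') ++ e'') <+: j
    · obtain ⟨τ, hτ, e', he', hfull⟩ := hex
      have hg := hgood τ hτ
      refine ⟨⟨p.u ++ (e ++ e'), τ.1.1, τ.1.2.1, hg.2.1, S τ.1 τ.2, hfull⟩,
        ⟨⟨e ++ e', ?_, rfl⟩, hg.1, hg.2.2, fun j hj => hj.1⟩, Or.inl ⟨τ.1.2.2, τ.2, ?_⟩⟩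
      · intro q hq
        rcases List.mem_append.1 hq with h | h
        · exact he q h
        · exact he' q h
      · intro j hj
        exact hj.2
    · exfalso
      push Not at hex
      obtain ⟨e', he', hav⟩ := exists_avoid p.u p.a p.b S L hgood e (by
        intro τ hτ e' he' hfull
        obtain ⟨e'', he'', hno⟩ := hex τ hτ e' he'
        obtain ⟨j, hj, hpre⟩ := hfull e'' he''
        exact hno j hj hpre)
      obtain ⟨j, hj, hpre⟩ := p.full (e ++ e') (by
        intro q hq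
        rcases List.mem_append.1 hq with h | h
        · exact he q h
        · exact he' q h)
      have hpre' : (p.u ++ e) <+: j := by
        refine List.IsPrefix.trans ?_ hpre
        rw [← List.append_assoc]
        exact List.prefix_append _ _
      have hnot : j ∉ En n := fun hjn => hnone j hjn hpre'
      have : ¬ ∀ m < n, G m → n ≤ h j (enum m).1 (enum m).2.1 (enum m).2.2 :=
        fun hh => hnot ⟨hj, hh⟩
      push Not at this
      obtain ⟨m, hm, hgm, hlt⟩ := this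
      exact hav (enum m, h j (enum m).1 (enum m).2.1 (enum m).2.2)
        ((hmemL _).2 ⟨m, _, hm, hgm, hlt, rfl⟩) ⟨j, ⟨hj, rfl⟩, hpre⟩


/-- One full step. -/
theorem exists_step (p : Cond) (h : List ℚ → ℚ → ℚ → ℕ → ℕ) (ε : ℚ) (hε : 0 < ε) :
    ∃ p' : Cond, Ext p' p ∧ p.a < p'.a ∧ p'.b < p.b ∧ p'.b - p'.a < ε ∧
      p.u.length < p'.u.length ∧ (∀ j ∈ p'.E, p'.u <+: j) ∧
      ((∃ m i : ℕ, ∀ j ∈ p'.E, h j p'.a p'.b m = i) ∨
        (∀ a' b' : ℚ, p'.a ≤ a' → a' < b' → b' ≤ p'.b → ∀ m i : ℕ,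
          {j ∈ p'.E | h j a' b' m = i}.Finite)) := by
  obtain ⟨q₁, hq₁, ha₁, hb₁, hε₁⟩ := exists_shrink p ε hε
  obtain ⟨q₂, hq₂, hd⟩ := exists_decide q₁ h
  obtain ⟨q₃, hq₃, hlen, hpre, ha₃, hb₃⟩ := exists_lengthen q₂
  refine ⟨q₃, hq₃.trans (hq₂.trans hq₁), ?_, ?_, ?_, ?_, hpre, ?_⟩
  · rw [ha₃]; exact ha₁.trans_le hq₂.2.1
  · rw [hb₃]; exact hq₂.2.2.1.trans_lt hb₁
  · rw [ha₃, hb₃]
    have h1 := hq₂.2.1
    have h2 := hq₂.2.2.1
    linarith
  · obtain ⟨e, -, he⟩ := (hq₂.trans hq₁).1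
    rw [he] at hlen
    simp only [List.length_append] at hlen
    omega
  · rcases hd with ⟨m, i, hmi⟩ | hfin
    · left
      refine ⟨m, i, fun j hj => ?_⟩
      rw [ha₃, hb₃]
      exact hmi j (hq₃.2.2.2 hj)
    · right
      intro a' b' ha' hab' hb' m i
      rw [ha₃] at ha'
      rw [hb₃] at hb'
      have h1 := (hfin a' b' (hq₂.2.1.trans ha') hab' (hb'.trans hq₂.2.2.1) m i).2.2
      exact h1.subset (fun j hj => ⟨hq₃.2.2.2 hj.1, hj.2⟩)

/-- The initial condition. -/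
def initial : Cond where
  u := []
  a := 0
  b := 1
  hab := by norm_num
  E := Set.univ
  full := fun e _ => ⟨e, trivial, by simp⟩

/-- Existence of a generic ultrafilter for a countable family of functions. -/
theorem exists_generic (h : ℕ → List ℚ → ℚ → ℚ → ℕ → ℕ) :
    ∃ (U : Ultrafilter (List ℚ)) (a b : ℕ → ℚ),
      (∀ n, 0 < a n ∧ b n < 1 ∧ a n < a (n + 1) ∧ b (n + 1) < b n ∧ a n < b n ∧
        b n - a n < 1 / ((n : ℚ) + 1)) ∧
      (∀ L : ℕ, ∀ᶠ j in (U : Filter (List ℚ)), L ≤ j.length) ∧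
      (∀ n, ∃ N : ℕ, ∀ s ≥ N, ∀ᶠ j in (U : Filter (List ℚ)),
        s < j.length ∧ a n < j.getD s 0 ∧ j.getD s 0 < b n) ∧
      (∀ k, (∃ n m i : ℕ, ∀ᶠ j in (U : Filter (List ℚ)), h k j (a n) (b n) m = i) ∨
        (∃ n : ℕ, ∀ a' b' : ℚ, a n ≤ a' → a' < b' → b' ≤ b n → ∀ m i : ℕ,
          ∀ᶠ j in (U : Filter (List ℚ)), h k j a' b' m ≠ i)) := by
  classical
  choose step hstep using fun (n : ℕ) (p : Cond) =>
    exists_step p (h n) (1 / ((n : ℚ) + 1)) (by positivity)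
  set p : ℕ → Cond := fun n => Nat.rec initial (fun n q => step n q) n with hp
  have hps : ∀ n, p (n + 1) = step n (p n) := fun n => rfl
  have hext : ∀ n, Ext (p (n + 1)) (p n) := fun n => by
    rw [hps]; exact (hstep n (p n)).1
  have hext' : ∀ {m n}, m ≤ n → Ext (p n) (p m) := by
    intro m n hmn
    induction n, hmn using Nat.le_induction with
    | base => exact Ext.refl _
    | succ n _ ih => exact (hext n).trans ih
  have hne : ∀ n, (p n).E.Nonempty := by
    intro n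
    obtain ⟨j, hj, -⟩ := (p n).full [] (by simp)
    exact ⟨j, hj⟩
  have hneb : (⨅ n, Filter.principal (p n).E).NeBot := by
    apply Filter.iInf_neBot_of_directed'
    · intro m n
      refine ⟨max m n, ?_, ?_⟩
      · exact Filter.principal_mono.2 (hext' (le_max_left m n)).2.2.2
      · exact Filter.principal_mono.2 (hext' (le_max_right m n)).2.2.2
    · intro n
      exact Filter.principal_neBot_iff.2 (hne n)
  set U : Ultrafilter (List ℚ) := Ultrafilter.of (⨅ n, Filter.principal (p n).E) with hU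
  have hUE : ∀ n, ∀ᶠ j in (U : Filter (List ℚ)), j ∈ (p n).E := by
    intro n
    have h1 : (U : Filter (List ℚ)) ≤ Filter.principal (p n).E :=
      (Ultrafilter.of_le _).trans (iInf_le _ n)
    exact Filter.le_principal_iff.1 h1
  have hlen : ∀ n, n ≤ (p n).u.length := by
    intro n
    induction n with
    | zero => exact Nat.zero_le _
    | succ n ih =>
      have := (hstep n (p n)).2.2.2.2.1
      rw [← hps] at this
      omega
  have hpre : ∀ n, ∀ j ∈ (p (n + 1)).E, (p (n + 1)).u <+: j := by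
    intro n
    rw [hps]
    exact (hstep n (p n)).2.2.2.2.2.1
  have hUlen : ∀ L : ℕ, ∀ᶠ j in (U : Filter (List ℚ)), L ≤ j.length := by
    intro L
    filter_upwards [hUE (L + 1)] with j hj
    have h1 := (hpre L j hj).length_le
    have h2 := hlen (L + 1)
    omega
  refine ⟨U, fun n => (p (n + 1)).a, fun n => (p (n + 1)).b, ?_, hUlen, ?_, ?_⟩
  · intro n
    have h0 : 0 < (p (n + 1)).a := by
      have h1 := (hext' (Nat.zero_le n)).2.1
      have h2 := (hstep n (p n)).2.1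
      rw [← hps] at h2
      exact lt_of_le_of_lt h1 h2
    have h1' : (p (n + 1)).b < 1 := by
      have h1 := (hext' (Nat.zero_le n)).2.2.1
      have h2 := (hstep n (p n)).2.2.1
      rw [← hps] at h2
      exact lt_of_lt_of_le h2 h1
    have h3 := (hstep (n + 1) (p (n + 1))).2.1
    have h4 := (hstep (n + 1) (p (n + 1))).2.2.1
    have h5 := (hstep n (p n)).2.2.2.1
    rw [← hps] at h3 h4 h5
    exact ⟨h0, h1', h3, h4, (p (n + 1)).hab, h5⟩
  · intro n
    refine ⟨(p (n + 1)).u.length, fun s hs => ?_⟩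
    filter_upwards [hUE (max (n + 1) (s + 1) + 1)] with j hj
    have hpj := hpre _ j hj
    set k := max (n + 1) (s + 1) with hk
    have hkl := hlen (k + 1)
    have hsk : s + 1 ≤ k := le_max_right _ _
    obtain ⟨⟨e, he, hue⟩, -⟩ := hext' (show n + 1 ≤ k + 1 by
      have := le_max_left (n + 1) (s + 1); omega)
    have hsl : s < (p (k + 1)).u.length := by omega
    have hsj : s < j.length := lt_of_lt_of_le hsl hpj.length_le
    have hget : j.getD s 0 = (p (k + 1)).u.getD s 0 := by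
      rw [List.getD_eq_getElem _ _ hsj, List.getD_eq_getElem _ _ hsl]
      exact (List.IsPrefix.getElem hpj hsl).symm
    refine ⟨hsj, ?_⟩
    rw [hget]
    have hmem : (p (k + 1)).u.getD s 0 ∈ e := by
      rw [List.getD_eq_getElem _ _ hsl]
      have h1 : (p (n + 1)).u.length ≤ s := hs
      have h2 : s - (p (n + 1)).u.length < e.length := by
        have : (p (k + 1)).u.length = (p (n + 1)).u.length + e.length := by
          rw [hue, List.length_append]
        omega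
      have h3 : (p (k + 1)).u[s] = e[s - (p (n + 1)).u.length] := by
        have h4 : (p (k + 1)).u[s]'hsl = ((p (n + 1)).u ++ e)[s]'(by rw [← hue]; exact hsl) := by
          congr 1
        rw [h4, List.getElem_append_right h1]
      rw [h3]
      exact List.getElem_mem _
    exact he _ hmem
  · intro k
    have hk := (hstep k (p k)).2.2.2.2.2.2
    rw [← hps] at hk
    rcases hk with ⟨m, i, hmi⟩ | hfin
    · left
      refine ⟨k, m, i, ?_⟩
      filter_upwards [hUE (k + 1)] with j hj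
      exact hmi j hj
    · right
      refine ⟨k, fun a' b' ha' hab' hb' m i => ?_⟩
      have hf := hfin a' b' ha' hab' hb' m i
      obtain ⟨L, hL⟩ : ∃ L : ℕ, ∀ j ∈ {j ∈ (p (k + 1)).E | h k j a' b' m = i}, j.length < L := by
        obtain ⟨L, hL⟩ := (hf.image List.length).bddAbove
        exact ⟨L + 1, fun j hj => Nat.lt_succ_of_le (hL ⟨j, hj, rfl⟩)⟩
      filter_upwards [hUE (k + 1), hUlen L] with j hj hjL hji
      have := hL j ⟨hj, hji⟩
      omega

end Pool.Agent.Helper66.GenU
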