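import Mathlib
import Pool.Agent.Helper66.Dom

/-!
The model: germs of functions in the class, bounded by towers of finite height.
-/

set_option autoImplicit false

namespace Pool.Agent.Helper66.Arith

open Function

variable {U : Ultrafilter Idx}

/-- The model as a subsemiring of the ultrapower. -/
def Mod (U : Ultrafilter Idx) : Subsemiring ((U : Filter Idx).Germ ℕ) where
  carrier := {x | ∃ f : Idx → ℕ, InF f ∧ Dom U f ∧ (f : (U : Filter Idx).Germ ℕ) = x}
  mul_mem' := by
    rintro x y ⟨f, hf, hf', rfl⟩ ⟨g, hg, hg', rfl⟩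
    exact ⟨fun j => f j * g j, hf.mul hg, hf'.mul hg', rfl⟩
  one_mem' := ⟨fun _ => 1, InF.const 1, Dom.const 1, rfl⟩
  add_mem' := by
    rintro x y ⟨f, hf, hf', rfl⟩ ⟨g, hg, hg', rfl⟩
    exact ⟨fun j => f j + g j, hf.add hg, hf'.add hg', rfl⟩
  zero_mem' := ⟨fun _ => 0, InF.const 0, Dom.const 0, rfl⟩

/-- The model. -/
abbrev MM (U : Ultrafilter Idx) : Type := Mod U

/-- `f` represents `x`. -/
def Rep (x : MM U) (f : Idx → ℕ) : Prop :=
  InF f ∧ Dom U f ∧ (f : (U : Filter Idx).Germ ℕ) = (x : (U : Filter Idx).Germ ℕ)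

theorem exists_rep (x : MM U) : ∃ f, Rep x f := x.2

theorem exists_el {f : Idx → ℕ} (h1 : InF f) (h2 : Dom U f) : ∃ x : MM U, Rep x f :=
  ⟨⟨f, f, h1, h2, rfl⟩, h1, h2, rfl⟩

theorem Rep.eq_iff {x y : MM U} {f g : Idx → ℕ} (hx : Rep x f) (hy : Rep y g) :
    x = y ↔ ∀ᶠ j in (U : Filter Idx), f j = g j := by
  rw [Subtype.ext_iff, ← hx.2.2, ← hy.2.2, Filter.Germ.coe_eq]
  rfl

theorem Rep.lt_iff {x y : MM U} {f g : Idx → ℕ} (hx : Rep x f) (hy : Rep y g) :
    x < y ↔ ∀ᶠ j in (U : Filter Idx), f j < g j := by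
  rw [← Subtype.coe_lt_coe, ← hx.2.2, ← hy.2.2, Filter.Germ.coe_lt]

theorem Rep.le_iff {x y : MM U} {f g : Idx → ℕ} (hx : Rep x f) (hy : Rep y g) :
    x ≤ y ↔ ∀ᶠ j in (U : Filter Idx), f j ≤ g j := by
  rw [← Subtype.coe_le_coe, ← hx.2.2, ← hy.2.2, Filter.Germ.coe_le]
  rfl

theorem Rep.add {x y : MM U} {f g : Idx → ℕ} (hx : Rep x f) (hy : Rep y g) :
    Rep (x + y) (fun j => f j + g j) :=
  ⟨hx.1.add hy.1, hx.2.1.add hy.2.1, by
    rw [Subsemiring.coe_add, ← hx.2.2, ← hy.2.2]; rfl⟩

theorem Rep.mul {x y : MM U} {f g : Idx → ℕ} (hx : Rep x f) (hy : Rep y g) :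
    Rep (x * y) (fun j => f j * g j) :=
  ⟨hx.1.mul hy.1, hx.2.1.mul hy.2.1, by
    rw [Subsemiring.coe_mul, ← hx.2.2, ← hy.2.2]; rfl⟩

theorem Rep.zero : Rep (0 : MM U) (fun _ => 0) := ⟨InF.const 0, Dom.const 0, rfl⟩
theorem Rep.one : Rep (1 : MM U) (fun _ => 1) := ⟨InF.const 1, Dom.const 1, rfl⟩

theorem Rep.natCast (n : ℕ) : Rep (n : MM U) (fun _ => n) := by
  induction n with
  | zero => simpa using Rep.zero
  | succ n ih => simpa using ih.add Rep.one

theorem Rep.congr {x : MM U} {f g : Idx → ℕ} (hx : Rep x f) (hg : InF g)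
    (h : ∀ᶠ j in (U : Filter Idx), f j = g j) : Rep x g := by
  refine ⟨hg, hx.2.1.mono (by filter_upwards [h] with j hj using hj.symm.le), ?_⟩
  rw [← hx.2.2, Filter.Germ.coe_eq]
  filter_upwards [h] with j hj using hj.symm

theorem Rep.val {v : ℕ → MM U} {f : ℕ → Idx → ℕ} (h : ∀ i, Rep (v i) (f i)) (t : Tm) :
    Rep (t.val v) (fun j => t.val (fun i => f i j)) := by
  induction t with
  | var i => exact h i
  | zero => exact Rep.zero
  | one => exact Rep.one
  | add s t ihs iht => exact ihs.add iht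
  | mul s t ihs iht => exact ihs.mul iht

theorem rep_update {v : ℕ → MM U} {f : ℕ → Idx → ℕ} (h : ∀ i, Rep (v i) (f i)) (i : ℕ)
    {x : MM U} {g : Idx → ℕ} (hx : Rep x g) : ∀ k, Rep (update v i x k) (update f i g k) := by
  intro k
  rcases eq_or_ne k i with e | e
  · subst e; simpa using hx
  · simpa [update_of_ne e] using h k

theorem update_fun (f : ℕ → Idx → ℕ) (i : ℕ) (g : Idx → ℕ) (j : Idx) :
    (fun k => update f i g k j) = update (fun k => f k j) i (g j) := by
  funext k
  rcases eq_or_ne k i with e | e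
  · subst e; simp
  · simp [update_of_ne e]

/-- Łoś's theorem for formulas with restricted quantifiers. -/
theorem los_le (φ : Fm) {v : ℕ → MM U} {f : ℕ → Idx → ℕ} (h : ∀ i, Rep (v i) (f i))
    {B : MM U} {Bf : Idx → ℕ} (hB : Rep B Bf) :
    φ.HoldsLe B v ↔ ∀ᶠ j in (U : Filter Idx), φ.HoldsLe (Bf j) (fun i => f i j) := by
  induction φ generalizing v f with
  | eq s t => exact (Rep.val h s).eq_iff (Rep.val h t)
  | lt s t => exact (Rep.val h s).lt_iff (Rep.val h t)
  | neg φ ih =>
    simp only [Fm.HoldsLe]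
    rw [ih h, ← Ultrafilter.eventually_not]
  | and φ ψ ih₁ ih₂ =>
    simp only [Fm.HoldsLe]
    rw [ih₁ h, ih₂ h, Filter.eventually_and]
  | ball i t φ ih =>
    simp only [Fm.HoldsLe]
    constructor
    · intro hall
      by_contra hno
      rw [← Ultrafilter.eventually_not] at hno
      set y : Idx → ℕ := fun j => leastOr (t.val (fun i => f i j))
        (fun x => ¬ φ.HoldsLe (Bf j) (update (fun i => f i j) i x)) with hy
      obtain ⟨x, hx⟩ := exists_el (U := U) (f := y)
        (InF.skol φ i (Rep.val h t).1 hB.1 (fun i => (h i).1))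
        ((Rep.val h t).2.1.mono' (fun j => leastOr_le _ _))
      have hspec : ∀ᶠ j in (U : Filter Idx), y j < t.val (fun i => f i j) ∧
          ¬ φ.HoldsLe (Bf j) (update (fun i => f i j) i (y j)) := by
        filter_upwards [hno] with j hj
        push Not at hj
        exact leastOr_spec (P := fun x => ¬ φ.HoldsLe (Bf j) (update (fun i => f i j) i x)) hj
      have hlt : x < t.val v := by
        rw [hx.lt_iff (Rep.val h t)]
        filter_upwards [hspec] with j hj using hj.1
      have h1 := (ih (rep_update h i hx)).1 (hall x hlt)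
      have h2 : ∀ᶠ j in (U : Filter Idx), False := by
        filter_upwards [h1, hspec] with j hj1 hj2
        rw [update_fun] at hj1
        exact hj2.2 hj1
      exact h2.exists.elim (fun _ h => h)
    · intro hall x hlt
      obtain ⟨g, hg⟩ := exists_rep x
      rw [ih (rep_update h i hg)]
      rw [hg.lt_iff (Rep.val h t)] at hlt
      filter_upwards [hall, hlt] with j hj1 hj2
      rw [update_fun]
      exact hj1 _ hj2
  | all i φ ih =>
    simp only [Fm.HoldsLe]
    constructor
    · intro hall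
      by_contra hno
      rw [← Ultrafilter.eventually_not] at hno
      set y : Idx → ℕ := fun j => leastOr (Bf j + 1)
        (fun x => ¬ φ.HoldsLe (Bf j) (update (fun i => f i j) i x)) with hy
      obtain ⟨x, hx⟩ := exists_el (U := U) (f := y)
        (InF.skol φ i (hB.add Rep.one).1 hB.1 (fun i => (h i).1))
        ((hB.add Rep.one).2.1.mono' (fun j => leastOr_le _ _))
      have hspec : ∀ᶠ j in (U : Filter Idx), y j < Bf j + 1 ∧
          ¬ φ.HoldsLe (Bf j) (update (fun i => f i j) i (y j)) := by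
        filter_upwards [hno] with j hj
        push Not at hj
        obtain ⟨y, hy, hy'⟩ := hj
        exact leastOr_spec (n := Bf j + 1)
          (P := fun x => ¬ φ.HoldsLe (Bf j) (update (fun i => f i j) i x))
          ⟨y, Nat.lt_succ_of_le hy, hy'⟩
      have hlt : x ≤ B := by
        rw [hx.le_iff hB]
        filter_upwards [hspec] with j hj using Nat.le_of_lt_succ hj.1
      have h1 := (ih (rep_update h i hx)).1 (hall x hlt)
      have h2 : ∀ᶠ j in (U : Filter Idx), False := by
        filter_upwards [h1, hspec] with j hj1 hj2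
        rw [update_fun] at hj1
        exact hj2.2 hj1
      exact h2.exists.elim (fun _ h => h)
    · intro hall x hlt
      obtain ⟨g, hg⟩ := exists_rep x
      rw [ih (rep_update h i hg)]
      rw [hg.le_iff hB] at hlt
      filter_upwards [hall, hlt] with j hj1 hj2
      rw [update_fun]
      exact hj1 _ hj2

/-- Łoś's theorem for bounded formulas. -/
theorem los {φ : Fm} (hφ : φ.IsBounded) {v : ℕ → MM U} {f : ℕ → Idx → ℕ}
    (h : ∀ i, Rep (v i) (f i)) :
    φ.Holds v ↔ ∀ᶠ j in (U : Filter Idx), φ.Holds (fun i => f i j) := by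
  rw [← holdsLe_iff_of_bounded hφ 0, los_le φ h Rep.zero]
  simp only [holdsLe_iff_of_bounded hφ]

theorem isPAMinus_MM : IsPAMinus (MM U) where
  zero_le := by
    intro x
    obtain ⟨f, hf⟩ := exists_rep x
    rw [Rep.zero.le_iff hf]
    exact Filter.Eventually.of_forall (fun j => Nat.zero_le _)
  one_le := by
    intro x hx
    obtain ⟨f, hf⟩ := exists_rep x
    rw [Rep.zero.lt_iff hf] at hx
    rw [Rep.one.le_iff hf]
    filter_upwards [hx] with j hj using hj
  exists_add := by
    intro x y hxy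
    obtain ⟨f, hf⟩ := exists_rep x
    obtain ⟨g, hg⟩ := exists_rep y
    rw [hf.le_iff hg] at hxy
    obtain ⟨z, hz⟩ := exists_el (U := U) (hg.1.sub hf.1) (hg.2.1.mono' (fun j => Nat.sub_le _ _))
    refine ⟨z, ?_⟩
    rw [(hf.add hz).eq_iff hg]
    filter_upwards [hxy] with j hj
    omega

theorem boundedInduction_MM : BoundedInduction (MM U) := by
  intro φ hφ v i h0 hs x
  by_contra hx
  choose f hf using fun i => exists_rep (v i)
  obtain ⟨n, hn⟩ := exists_rep x
  rw [los hφ (rep_update hf i hn), ← Ultrafilter.eventually_not] at hx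
  set yf : Idx → ℕ := fun j => leastOr (n j + 1)
    (fun x => ¬ φ.HoldsLe 0 (update (fun i => f i j) i x)) with hyf
  obtain ⟨y, hy⟩ := exists_el (U := U) (f := yf)
    (InF.skol φ i (hn.add Rep.one).1 (InF.const 0) (fun i => (hf i).1))
    ((hn.add Rep.one).2.1.mono' (fun j => leastOr_le _ _))
  have hspec : ∀ᶠ j in (U : Filter Idx), yf j < n j + 1 ∧
      ¬ φ.HoldsLe 0 (update (fun i => f i j) i (yf j)) := by
    filter_upwards [hx] with j hj
    exact leastOr_spec (n := n j + 1)
      (P := fun x => ¬ φ.HoldsLe 0 (update (fun i => f i j) i x))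
      ⟨n j, Nat.lt_succ_self _, by
        rw [holdsLe_iff_of_bounded hφ, ← update_fun]; exact hj⟩
  have hyn : ¬ φ.Holds (update v i y) := by
    rw [los hφ (rep_update hf i hy), ← Ultrafilter.eventually_not]
    filter_upwards [hspec] with j hj
    rw [update_fun, ← holdsLe_iff_of_bounded hφ 0]
    exact hj.2
  have hy0 : y ≠ 0 := fun h => hyn (h ▸ h0)
  have hpos : (0 : MM U) < y := lt_of_le_of_ne (isPAMinus_MM.zero_le y) hy0.symm
  have hone := isPAMinus_MM.one_le y hpos
  obtain ⟨z, hz⟩ := isPAMinus_MM.exists_add 1 y hone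
  obtain ⟨g, hg⟩ := exists_rep z
  have hzy : ∀ᶠ j in (U : Filter Idx), 1 + g j = yf j := ((Rep.one.add hg).eq_iff hy).1 hz
  have hzh : φ.Holds (update v i z) := by
    rw [los hφ (rep_update hf i hg)]
    filter_upwards [hzy] with j hj
    rw [update_fun, ← holdsLe_iff_of_bounded hφ 0]
    by_contra hcon
    have hlt : g j < leastOr (n j + 1)
        (fun x => ¬ φ.HoldsLe 0 (update (fun i => f i j) i x)) := by
      change g j < yf j
      omega
    exact leastOr_min hlt hcon
  apply hyn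
  have := hs z hzh
  rwa [add_comm, hz] at this

theorem pcoll_iff (φ : Fm) (i i' : ℕ) (f : ℕ → Idx → ℕ) (j : Idx) (k x : ℕ) :
    Pcoll φ i i' f j k x ↔ (φ.ex i').HoldsLe (TT k j) (update (fun i => f i j) i x) := by
  rw [holdsLe_ex]; rfl

theorem rep_TT (k : ℕ) : ∃ B : MM U, Rep B (TT k) := exists_el (InF.tower k) (Dom.tower k)

theorem sigmaCollection_MM (hU : ∀ L : ℕ, ∀ᶠ j in (U : Filter Idx), L ≤ j.length) :
    SigmaCollection (MM U) 1 := by
  intro φ hφ v i i' a hall
  have hφ : ExBlock Fm.IsBounded φ := hφ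
  choose f hf using fun i => exists_rep (v i)
  obtain ⟨n, hn⟩ := exists_rep a
  have hclaim : ∃ k, ∀ᶠ j in (U : Filter Idx), ∀ x < n j, Pcoll φ i i' f j k x := by
    by_contra hno
    push Not at hno
    have hno' : ∀ k, ∀ᶠ j in (U : Filter Idx), ∃ x < n j, ¬ Pcoll φ i i' f j k x := hno
    set κ : Idx → ℕ := fun j =>
      greatest (fun k => ∃ x < n j, ¬ Pcoll φ i i' f j k x) j.length with hκdef
    set yf : Idx → ℕ := fun j => leastOr (n j) (fun x => ¬ Pcoll φ i i' f j (κ j) x) with hyf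
    obtain ⟨X, hX⟩ := exists_el (U := U) (f := yf) (InF.coll φ i i' hn.1 (fun i => (hf i).1))
      (hn.2.1.mono' (fun j => leastOr_le _ _))
    have hspec : ∀ᶠ j in (U : Filter Idx), yf j < n j ∧ ¬ Pcoll φ i i' f j (κ j) (yf j) := by
      filter_upwards [hno' 0] with j hj
      have h1 := greatest_spec (P := fun k => ∃ x < n j, ¬ Pcoll φ i i' f j k x)
        (n := j.length) (m := 0) (Nat.zero_le _) hj
      exact leastOr_spec (P := fun x => ¬ Pcoll φ i i' f j
        (greatest (fun k => ∃ x < n j, ¬ Pcoll φ i i' f j k x) j.length) x) h1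
    have hXa : X < a := by
      rw [hX.lt_iff hn]
      filter_upwards [hspec] with j hj using hj.1
    obtain ⟨y, hy⟩ := hall X hXa
    rw [holds_iff_exists_holdsLe hφ] at hy
    obtain ⟨B, hB⟩ := hy
    obtain ⟨g, hg⟩ := exists_rep y
    obtain ⟨Bf, hBf⟩ := exists_rep B
    rw [los_le φ (rep_update (rep_update hf i hX) i' hg) hBf] at hB
    obtain ⟨k₁, hk₁⟩ := hg.2.1
    obtain ⟨k₂, hk₂⟩ := hBf.2.1
    have : ∀ᶠ j in (U : Filter Idx), False := by
      filter_upwards [hB, hk₁, hk₂, hspec, hno' (max k₁ k₂), hU (max k₁ k₂)] with j h1 h2 h3 h4 h5 h6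
      rw [update_fun, update_fun] at h1
      have hκk : max k₁ k₂ ≤ κ j := le_greatest h6 h5
      apply h4.2
      refine ⟨g j, h2.trans (TT_mono ((le_max_left _ _).trans hκk) j), ?_⟩
      exact holdsLe_mono hφ (h3.trans (TT_mono ((le_max_right _ _).trans hκk) j)) h1
    exact this.exists.elim (fun _ h => h)
  obtain ⟨k, hk⟩ := hclaim
  obtain ⟨B, hB⟩ := rep_TT (U := U) k
  refine ⟨B + 1, fun x hx => ?_⟩
  obtain ⟨g, hg⟩ := exists_rep x
  rw [hg.lt_iff hn] at hx
  have h1 : (φ.ex i').HoldsLe B (update v i x) := by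
    rw [los_le _ (rep_update hf i hg) hB]
    filter_upwards [hk, hx] with j h1 h2
    rw [update_fun, ← pcoll_iff]
    exact h1 _ h2
  rw [holdsLe_ex] at h1
  obtain ⟨y, hy, hy'⟩ := h1
  exact ⟨y, isPAMinus_MM.lt_add_one_iff.2 hy, (holds_iff_exists_holdsLe hφ _).2 ⟨B, hy'⟩⟩

theorem mem_iff {x e : MM U} {f g : Idx → ℕ} (hx : Rep x f) (he : Rep e g) :
    Mem x e ↔ ∀ᶠ j in (U : Filter Idx), Mem (f j) (g j) := by
  have hv : ∀ i, Rep ((fun i => if i = 0 then x else e) i : MM U)
      ((fun i => if i = 0 then f else g) i) := by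
    intro i
    by_cases h : i = 0
    · simpa [h] using hx
    · simpa [h] using he
  have h1 := holds_memF (isPAMinus_MM (U := U)) (n := 2) (a := .var 0) (e := .var 1)
    (by simp [Tm.bd]) (by simp [Tm.bd]) (fun i => if i = 0 then x else e)
  simp only [Tm.val, if_true, one_ne_zero, if_false] at h1
  rw [← h1, los (memF_bounded _ _ _) hv]
  apply Filter.eventually_congr
  apply Filter.Eventually.of_forall
  intro j
  have h2 := holds_memF isPAMinus_nat (n := 2) (a := .var 0) (e := .var 1)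
    (by simp [Tm.bd]) (by simp [Tm.bd]) (fun i => (if i = 0 then f else g) j)
  simp only [Tm.val, if_true, one_ne_zero, if_false] at h2
  exact h2

theorem exists_code (φ : Fm) (hφ : φ.IsBounded) (v : ℕ → MM U) (a : MM U) :
    ∃ e : MM U, ∀ x : MM U, Mem x e ↔ x < a ∧ φ.Holds (update v 0 x) := by
  classical
  choose f hf using fun i => exists_rep (v i)
  obtain ⟨n, hn⟩ := exists_rep a
  obtain ⟨e, he⟩ := exists_el (U := U)
    (InF.setc φ 0 hn.1 (InF.const 0) (fun i => (hf i).1))
    (Dom.codeOf hn.2.1 (fun j x hx => by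
      simp only [Finset.mem_filter, Finset.mem_range] at hx; exact hx.1))
  refine ⟨e, fun x => ?_⟩
  obtain ⟨g, hg⟩ := exists_rep x
  rw [mem_iff hg he, hg.lt_iff hn, los hφ (rep_update hf 0 hg), ← Filter.eventually_and]
  apply Filter.eventually_congr
  apply Filter.Eventually.of_forall
  intro j
  rw [mem_codeOf (fun x hx => by
      simp only [Finset.mem_filter, Finset.mem_range] at hx; exact hx.1)]
  simp only [Finset.mem_filter, Finset.mem_range, update_fun, holdsLe_iff_of_bounded hφ]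

theorem countable_MM : Countable (MM U) := by
  have h1 : Countable {f | InF f} := InF_countable.to_subtype
  have : Set.Countable ((Mod U : Subsemiring _) : Set ((U : Filter Idx).Germ ℕ)) := by
    refine (Set.countable_range (fun f : {f | InF f} =>
      ((f.1 : Idx → ℕ) : (U : Filter Idx).Germ ℕ))).mono ?_
    rintro x ⟨f, hf, -, rfl⟩
    exact ⟨⟨f, hf⟩, rfl⟩
  exact this.to_subtype

end Pool.Agent.Helper66.Arith
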