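import Mathlib
import Pool.Agent.Helper66.Model

/-!
The standard cut of the model is `Σ₁`-definable.
-/

set_option autoImplicit false

namespace Pool.Agent.Helper66.Arith

open Function

variable {U : Ultrafilter Idx}

/-- The set of standard elements. -/
def stdCut (M : Type) [CommSemiring M] : Set M := {x | ∃ k : ℕ, x = (k : M)}

theorem eventually_const {f : Idx → ℕ} {k : ℕ} (h : ∀ᶠ j in (U : Filter Idx), f j ≤ k) :
    ∃ i ≤ k, ∀ᶠ j in (U : Filter Idx), f j = i := by
  induction k with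
  | zero => exact ⟨0, le_rfl, by filter_upwards [h] with j hj using Nat.le_zero.1 hj⟩
  | succ k ih =>
    by_cases h1 : ∀ᶠ j in (U : Filter Idx), f j ≤ k
    · obtain ⟨i, hi, h2⟩ := ih h1
      exact ⟨i, by omega, h2⟩
    · rw [← Ultrafilter.eventually_not] at h1
      exact ⟨k + 1, le_rfl, by filter_upwards [h, h1] with j h2 h3; omega⟩

theorem mem_stdCut_iff {x : MM U} {f : Idx → ℕ} (hx : Rep x f) :
    x ∈ stdCut (MM U) ↔ ∃ k : ℕ, ∀ᶠ j in (U : Filter Idx), f j ≤ k := by
  constructor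
  · rintro ⟨k, rfl⟩
    refine ⟨k, ?_⟩
    have := (hx.eq_iff (Rep.natCast k)).1 rfl
    filter_upwards [this] with j hj using hj.le
  · rintro ⟨k, hk⟩
    obtain ⟨i, -, hi⟩ := eventually_const hk
    exact ⟨i, (hx.eq_iff (Rep.natCast i)).2 hi⟩

/-- The bounded formula expressing `StairR x y`. -/
def stairF (n : ℕ) (x y : Tm) : Fm :=
  .and (.lt .zero y) (.bex n (.add y .one) (.and (.lt .zero (.var n))
    (.and (.ball (n + 1) x (.bex (n + 2) (.add (.var n) .one)
      (.eq (.mul (.var (n + 2)) (.add (.var (n + 1)) .one)) (.var n))))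
    (.ball (n + 1) x (.bex (n + 2) (.add y .one)
      (.eq (.mul (.var (n + 2)) (.add (.mul (.add (.var (n + 1)) .one) (.var n)) .one)) y))))))

theorem stairF_bounded (n : ℕ) (x y : Tm) : (stairF n x y).IsBounded :=
  .and (.lt _ _) (.bex _ _ (.and (.lt _ _) (.and (.ball _ _ (.bex _ _ (.eq _ _)))
    (.ball _ _ (.bex _ _ (.eq _ _))))))

theorem dvd_iff_exists_lt {a b : ℕ} (hb : 0 < b) : a ∣ b ↔ ∃ q, q < b + 1 ∧ q * a = b := by
  constructor
  · rintro ⟨q, rfl⟩
    have ha : 0 < a := Nat.pos_of_mul_pos_right hb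
    refine ⟨q, ?_, by ring⟩
    have : q * 1 ≤ a * q := by
      rw [mul_comm a q]; exact Nat.mul_le_mul_left q ha
    omega
  · rintro ⟨q, -, h⟩
    exact ⟨q, by rw [← h]; ring⟩

theorem holds_stairF {n : ℕ} {x y : Tm} (hx : x.bd ≤ n) (hy : y.bd ≤ n) (v : ℕ → ℕ) :
    (stairF n x y).Holds v ↔ StairR (x.val v) (y.val v) := by
  have hvx : ∀ (w : ℕ → ℕ), (∀ i < n, w i = v i) → x.val w = x.val v := fun w hw =>
    val_congr x (fun i hi => hw i (by omega))
  have hvy : ∀ (w : ℕ → ℕ), (∀ i < n, w i = v i) → y.val w = y.val v := fun w hw =>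
    val_congr y (fun i hi => hw i (by omega))
  have hne1 : n + 1 ≠ n := by omega
  have hne2 : n + 2 ≠ n := by omega
  have hne3 : n + 2 ≠ n + 1 := by omega
  have e1 : ∀ z : ℕ, x.val (update v n z) = x.val v := fun z => val_update_of_bd x hx v z
  have e3 : ∀ z d q : ℕ, y.val (update (update (update v n z) (n + 1) d) (n + 2) q) = y.val v :=
    fun z d q => hvy _ (fun i hi => by
      rw [update_of_ne (by omega), update_of_ne (by omega), update_of_ne (by omega)])
  have e4 : ∀ z d : ℕ, y.val (update (update v n z) (n + 1) d) = y.val v :=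
    fun z d => hvy _ (fun i hi => by
      rw [update_of_ne (by omega), update_of_ne (by omega)])
  simp only [stairF, holds_bex, holds_and, holds_eq, holds_lt, holds_ball, Tm.val, e1, e3, e4,
    update_self, update_of_ne hne1.symm, update_of_ne hne2.symm, update_of_ne hne3.symm]
  unfold StairR
  apply and_congr_right
  intro hypos
  constructor
  · rintro ⟨z, hz, hz0, h1, h2⟩
    refine ⟨z, by omega, hz0, fun d hd => ?_, fun d hd => ?_⟩
    · obtain ⟨q, -, hq⟩ := h1 d hd
      exact ⟨q, by rw [← hq]; ring⟩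
    · obtain ⟨q, -, hq⟩ := h2 d hd
      exact ⟨q, by rw [← hq]; ring⟩
  · rintro ⟨z, hz, hz0, h1, h2⟩
    refine ⟨z, by omega, hz0, fun d hd => ?_, fun d hd => ?_⟩
    · exact (dvd_iff_exists_lt hz0).1 (h1 d hd)
    · exact (dvd_iff_exists_lt hypos).1 (h2 d hd)

/-- The matrix of the definition of the standard cut. -/
def cutMatrix : Fm :=
  .and (.bex 2 (.var 1) (memF 20 (.pr (.var 0) (.var 2)) (.var 1)))
    (.ball 3 (.var 1) ((memF 20 (.var 3) (.var 1)).imp ((Fm.eq (.var 3) (.pr .zero (.var 10))).or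
      (.bex 4 (.var 1) (.bex 5 (.var 1) (.bex 6 (.var 1)
        ((Fm.eq (.var 3) (.pr (.add (.var 4) .one) (.var 5))).and
          ((memF 20 (.pr (.var 4) (.var 6)) (.var 1)).and (stairF 30 (.var 6) (.var 5))))))))))

theorem cutMatrix_bounded : cutMatrix.IsBounded :=
  .and (.bex _ _ (memF_bounded _ _ _)) (.ball _ _ (.imp (memF_bounded _ _ _) (.or (.eq _ _)
    (.bex _ _ (.bex _ _ (.bex _ _ (.and (.eq _ _) (.and (memF_bounded _ _ _)
      (stairF_bounded _ _ _)))))))))

/-- Meaning of the matrix over the natural numbers. -/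
def CutSem (k S c : ℕ) : Prop :=
  (∃ y, y < S ∧ Mem (pr k y) S) ∧ ∀ z, z < S → Mem z S → z = pr 0 c ∨
    ∃ i, i < S ∧ ∃ y'', y'' < S ∧ ∃ y', y' < S ∧ z = pr (i + 1) y'' ∧ Mem (pr i y') S ∧
      StairR y' y''

theorem holds_cutMatrix (v : ℕ → ℕ) : cutMatrix.Holds v ↔ CutSem (v 0) (v 1) (v 10) := by
  unfold cutMatrix CutSem
  simp (disch := decide) only [holds_and, holds_bex, holds_ball, holds_imp, holds_or,
    holds_eq, holds_memF isPAMinus_nat, holds_stairF, Tm.val, val_pr, update_self, update_of_ne]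

theorem CutSem.tow_le {k S c : ℕ} (h : CutSem k S c) : ∃ y, y < S ∧ tow k c ≤ y := by
  obtain ⟨⟨y, hy, hmem⟩, hj⟩ := h
  have key : ∀ i y, Mem (pr i y) S → tow i c ≤ y := by
    intro i
    induction i with
    | zero =>
      intro y hmem
      rcases hj _ hmem.lt hmem with h | ⟨i, -, y'', -, y', -, h, -, -⟩
      · exact (pr_inj h).2.symm.le
      · have := (pr_inj h).1
        omega
    | succ i ih =>
      intro y hmem
      rcases hj _ hmem.lt hmem with h | ⟨i', -, y'', -, y', -, h, h2, h3⟩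
      · have := (pr_inj h).1
        omega
      · obtain ⟨h4, h5⟩ := pr_inj h
        have h6 : i = i' := by omega
        subst h6
        subst h5
        exact (Nat.pow_le_pow_right (by norm_num) (ih _ h2)).trans h3.two_pow_le
  exact ⟨y, hy, key _ _ hmem⟩

theorem cutSem_stair (k c : ℕ) : CutSem k (stairCode k c) c := by
  constructor
  · have hmem : Mem (pr k (stairE^[k] c)) (stairCode k c) := by
      rw [mem_stairCode, stairSet, Finset.mem_image]
      exact ⟨k, Finset.mem_range.2 (Nat.lt_succ_self k), rfl⟩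
    exact ⟨_, lt_of_le_of_lt (right_le_pr _ _) hmem.lt, hmem⟩
  · intro z _ hz
    rw [mem_stairCode, stairSet, Finset.mem_image] at hz
    obtain ⟨i, hi, rfl⟩ := hz
    rcases i with _ | i
    · left; rfl
    · right
      have hi := Finset.mem_range.1 hi
      have hm1 : Mem (pr (i + 1) (stairE^[i + 1] c)) (stairCode k c) := by
        rw [mem_stairCode, stairSet, Finset.mem_image]
        exact ⟨i + 1, Finset.mem_range.2 hi, rfl⟩
      have hm2 : Mem (pr i (stairE^[i] c)) (stairCode k c) := by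
        rw [mem_stairCode, stairSet, Finset.mem_image]
        exact ⟨i, Finset.mem_range.2 (by omega), rfl⟩
      refine ⟨i, lt_of_le_of_lt (left_le_pr _ _) hm2.lt, stairE^[i + 1] c,
        lt_of_le_of_lt (right_le_pr _ _) hm1.lt, stairE^[i] c,
        lt_of_le_of_lt (right_le_pr _ _) hm2.lt, rfl, hm2, ?_⟩
      rw [Function.iterate_succ_apply']
      exact stairR_stairE _

theorem sigmaDef_stdCut : SigmaDef 1 (stdCut (MM U)) := by
  obtain ⟨c, hc⟩ := exists_el (U := U) (f := fun j => TT 0 j) (InF.tower 0) Dom.cc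
  refine ⟨cutMatrix.ex 1, ExBlock.ex 1 (.base cutMatrix_bounded), update (fun _ => 0) 10 c, ?_⟩
  intro x
  obtain ⟨f, hf⟩ := exists_rep x
  have hv : ∀ i, Rep (update (fun _ => (0 : MM U)) 10 c i)
      (update (fun _ => (fun _ : Idx => 0)) 10 (fun j => TT 0 j) i) :=
    rep_update (fun _ => Rep.zero) 10 hc
  rw [holds_ex]
  have key : ∀ (S : MM U) (g : Idx → ℕ), Rep S g →
      (cutMatrix.Holds (update (update (update (fun _ => 0) 10 c) 0 x) 1 S) ↔
        ∀ᶠ j in (U : Filter Idx), CutSem (f j) (g j) (cc j)) := by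
    intro S g hg
    rw [los cutMatrix_bounded (rep_update (rep_update hv 0 hf) 1 hg)]
    apply Filter.eventually_congr
    apply Filter.Eventually.of_forall
    intro j
    rw [holds_cutMatrix]
    simp [TT, tow]
  constructor
  · intro hx
    obtain ⟨k, hk⟩ := hx
    obtain ⟨S, hS⟩ := exists_el (U := U) (InF.stair k) (Dom.stairCode k)
    refine ⟨S, (key S _ hS).2 ?_⟩
    have := (hf.eq_iff (Rep.natCast k)).1 hk
    filter_upwards [this] with j hj
    rw [hj]
    exact cutSem_stair k _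
  · rintro ⟨S, hS⟩
    obtain ⟨g, hg⟩ := exists_rep S
    rw [key S g hg] at hS
    obtain ⟨m, hm⟩ := hg.2.1
    rw [mem_stdCut_iff hf]
    refine ⟨m, ?_⟩
    filter_upwards [hS, hm] with j h1 h2
    obtain ⟨y, hy1, hy2⟩ := h1.tow_le
    by_contra hlt
    have h3 := TT_lt (not_le.1 hlt) j
    have h4 : TT (f j) j = tow (f j) (cc j) := rfl
    omega

theorem isSigmaCut_stdCut (hU : ∀ L : ℕ, ∀ᶠ j in (U : Filter Idx), L ≤ j.length) :
    IsSigmaCut 1 (stdCut (MM U)) where
  zero_mem := ⟨0, by simp⟩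
  down := by
    intro x hx y hy
    obtain ⟨f, hf⟩ := exists_rep x
    obtain ⟨g, hg⟩ := exists_rep y
    rw [mem_stdCut_iff hf] at hx
    rw [mem_stdCut_iff hg]
    obtain ⟨k, hk⟩ := hx
    refine ⟨k, ?_⟩
    filter_upwards [hk, (hg.le_iff hf).1 hy] with j h1 h2 using h2.trans h1
  succ := by
    rintro x ⟨k, rfl⟩
    exact ⟨k + 1, by simp⟩
  proper := by
    intro h
    obtain ⟨c, hc⟩ := exists_el (U := U) InF.len Dom.len
    have hcI : c ∈ stdCut (MM U) := h ▸ Set.mem_univ c
    rw [mem_stdCut_iff hc] at hcI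
    obtain ⟨k, hk⟩ := hcI
    have : ∀ᶠ j in (U : Filter Idx), False := by
      filter_upwards [hk, hU (k + 1)] with j h1 h2
      omega
    exact this.exists.elim (fun _ h => h)
  definable := sigmaDef_stdCut

end Pool.Agent.Helper66.Arith
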