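import Mathlib
import Pool.Agent.Helper66.StdCut
import Pool.Agent.Helper66.GenericUltra

/-!
The generic initial segment and its basic properties.
-/

set_option autoImplicit false

namespace Pool.Agent.Helper66.Arith

open Function

/-- Decision property of a function `h` along the nested intervals `(a n, b n)`. -/
def Dec (U : Ultrafilter Idx) (a b : ℕ → ℚ) (h : Idx → ℚ → ℚ → ℕ → ℕ) : Prop :=
  (∃ n m i : ℕ, ∀ᶠ j in (U : Filter Idx), h j (a n) (b n) m = i) ∨
    (∃ n : ℕ, ∀ a' b' : ℚ, a n ≤ a' → a' < b' → b' ≤ b n → ∀ m i : ℕ,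
      ∀ᶠ j in (U : Filter Idx), h j a' b' m ≠ i)

/-- The generic properties that are used. -/
structure Gen (U : Ultrafilter Idx) (a b : ℕ → ℚ) : Prop where
  seq : ∀ n, 0 < a n ∧ b n < 1 ∧ a n < a (n + 1) ∧ b (n + 1) < b n ∧ a n < b n ∧
        b n - a n < 1 / ((n : ℚ) + 1)
  len : ∀ L : ℕ, ∀ᶠ j in (U : Filter Idx), L ≤ j.length
  lim : ∀ n, ∃ N : ℕ, ∀ s ≥ N, ∀ᶠ j in (U : Filter Idx),
        s < j.length ∧ a n < j.getD s 0 ∧ j.getD s 0 < b n
  decA : ∀ f : Idx → ℕ, InF f → Dec U a b (fun j a b m => hA (f j) j a b m)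
  decB : ∀ (φ : Fm) (l : List (Idx → ℕ)), (∀ f ∈ l, InF f) →
        Dec U a b (fun j a b m => hB φ (l.map (fun f => f j)) j a b m)
  decC : ∀ (φ : Fm) (l : List (Idx → ℕ)), (∀ f ∈ l, InF f) →
        Dec U a b (fun j a b m => hC φ (l.map (fun f => f j)) j a b m)

theorem exists_gen : ∃ (U : Ultrafilter Idx) (a b : ℕ → ℚ), Gen U a b := by
  have hc : Countable {f : Idx → ℕ // InF f} := InF_countable.to_subtype
  set S : Set (Idx → ℚ → ℚ → ℕ → ℕ) :=
    Set.range (fun f : {f : Idx → ℕ // InF f} => fun j a b m => hA (f.1 j) j a b m) ∪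
    (Set.range (fun p : Fm × List {f : Idx → ℕ // InF f} => fun j a b m =>
      hB p.1 ((p.2.map Subtype.val).map (fun f => f j)) j a b m) ∪
    Set.range (fun p : Fm × List {f : Idx → ℕ // InF f} => fun j a b m =>
      hC p.1 ((p.2.map Subtype.val).map (fun f => f j)) j a b m)) with hS
  have hScount : S.Countable :=
    (Set.countable_range _).union ((Set.countable_range _).union (Set.countable_range _))
  have hSne : S.Nonempty := ⟨_, Or.inl ⟨⟨_, InF.const 0⟩, rfl⟩⟩
  obtain ⟨h, hh⟩ := hScount.exists_eq_range hSne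
  obtain ⟨U, a, b, h1, h2, h3, h4⟩ := GenU.exists_generic h
  have hdec : ∀ g ∈ S, Dec U a b g := by
    intro g hg
    rw [hh] at hg
    obtain ⟨k, rfl⟩ := hg
    exact h4 k
  refine ⟨U, a, b, h1, h2, h3, ?_, ?_, ?_⟩
  · intro f hf
    exact hdec _ (Or.inl ⟨⟨f, hf⟩, rfl⟩)
  · intro φ l hl
    apply hdec
    refine Or.inr (Or.inl ⟨(φ, l.attach.map (fun f => ⟨f.1, hl f.1 f.2⟩)), ?_⟩)
    simp [List.map_map, Function.comp_def]
  · intro φ l hl
    apply hdec
    refine Or.inr (Or.inr ⟨(φ, l.attach.map (fun f => ⟨f.1, hl f.1 f.2⟩)), ?_⟩)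
    simp [List.map_map, Function.comp_def]

variable {U : Ultrafilter Idx} {a b : ℕ → ℚ}

theorem Gen.a_mono (hG : Gen U a b) {m n : ℕ} (h : m ≤ n) : a m ≤ a n :=
  monotone_nat_of_le_succ (fun n => (hG.seq n).2.2.1.le) h

theorem Gen.b_anti (hG : Gen U a b) {m n : ℕ} (h : m ≤ n) : b n ≤ b m :=
  antitone_nat_of_succ_le (fun n => (hG.seq n).2.2.2.1.le) h

theorem Gen.a_lt_b (hG : Gen U a b) (m n : ℕ) : a m < b n :=
  lt_of_le_of_lt (hG.a_mono (le_max_left m n))
    (lt_of_lt_of_le (hG.seq (max m n)).2.2.2.2.1 (hG.b_anti (le_max_right m n)))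

/-- The generic initial segment. -/
def JJ (U : Ultrafilter Idx) (a : ℕ → ℚ) : Set (MM U) :=
  {x | ∃ (n : ℕ) (f : Idx → ℕ), Rep x f ∧
    ∀ᶠ j in (U : Filter Idx), (f j : ℚ) < a n * ((j.length : ℚ) + 1)}

theorem mem_JJ {x : MM U} {f : Idx → ℕ} (hx : Rep x f) :
    x ∈ JJ U a ↔ ∃ n : ℕ, ∀ᶠ j in (U : Filter Idx), (f j : ℚ) < a n * ((j.length : ℚ) + 1) := by
  constructor
  · rintro ⟨n, g, hg, h⟩
    refine ⟨n, ?_⟩
    have := (hx.eq_iff hg).1 rfl
    filter_upwards [this, h] with j h1 h2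
    rwa [h1]
  · rintro ⟨n, h⟩
    exact ⟨n, f, hx, h⟩

theorem not_mem_JJ (hG : Gen U a b) {x : MM U} {f : Idx → ℕ} (hx : Rep x f) :
    x ∉ JJ U a ↔
      ∃ n : ℕ, ∀ᶠ j in (U : Filter Idx), b n * ((j.length : ℚ) + 1) < (f j : ℚ) := by
  constructor
  · intro hno
    rcases hG.decA f hx.1 with ⟨n, m, i, h⟩ | ⟨n, h⟩
    · have h1 : ∀ᶠ j in (U : Filter Idx), (f j : ℚ) < a n * ((j.length : ℚ) + 1) ∨
          b n * ((j.length : ℚ) + 1) < (f j : ℚ) := by
        filter_upwards [h, hG.len (i + 1)] with j h2 h3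
        by_contra hcon
        unfold hA at h2
        rw [if_neg hcon] at h2
        omega
      rw [Ultrafilter.eventually_or] at h1
      rcases h1 with h1 | h1
      · exact absurd ((mem_JJ hx).2 ⟨n, h1⟩) hno
      · exact ⟨n, h1⟩
    · exfalso
      have hab := (hG.seq n).2.2.2.2.1
      have h1 := h (a n) ((2 * a n + b n) / 3) le_rfl (by linarith) (by linarith) 0 0
      have h2 := h ((a n + 2 * b n) / 3) (b n) (by linarith) (by linarith) le_rfl 0 0
      have h3 : ∀ᶠ j in (U : Filter Idx), False := by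
        filter_upwards [h1, h2] with j h1 h2
        have h1' : ¬ ((f j : ℚ) < a n * ((j.length : ℚ) + 1) ∨
          (2 * a n + b n) / 3 * ((j.length : ℚ) + 1) < (f j : ℚ)) := by
          intro hc
          apply h1
          unfold hA
          rw [if_pos hc]
        have h2' : ¬ ((f j : ℚ) < (a n + 2 * b n) / 3 * ((j.length : ℚ) + 1) ∨
          b n * ((j.length : ℚ) + 1) < (f j : ℚ)) := by
          intro hc
          apply h2
          unfold hA
          rw [if_pos hc]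
        push Not at h1' h2'
        have hD : (0 : ℚ) < (j.length : ℚ) + 1 := by positivity
        nlinarith [h1'.2, h2'.1]
      exact h3.exists.elim (fun _ h => h)
  · rintro ⟨n, h⟩ hmem
    obtain ⟨m, hm⟩ := (mem_JJ hx).1 hmem
    have h3 : ∀ᶠ j in (U : Filter Idx), False := by
      filter_upwards [h, hm] with j h1 h2
      have hD : (0 : ℚ) < (j.length : ℚ) + 1 := by positivity
      have := hG.a_lt_b m n
      nlinarith
    exact h3.exists.elim (fun _ h => h)

theorem Gen.pos (hG : Gen U a b) (n : ℕ) : 0 < a n := (hG.seq n).1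

/-- A coded subset of the segment is uniformly below. -/
theorem coded_sub_JJ {k : MM U} {f : Idx → ℕ} (hk : Rep k f) :
    Coded k ⊆ JJ U a ↔ ∃ n : ℕ, ∀ᶠ j in (U : Filter Idx), ∀ x : ℕ, Mem x (f j) →
      (x : ℚ) < a n * ((j.length : ℚ) + 1) := by
  constructor
  · intro hsub
    by_cases hne : ∀ᶠ j in (U : Filter Idx), ∃ x, Mem x (f j)
    · obtain ⟨x, hx⟩ := exists_el (U := U) hk.1.maxE (hk.2.1.mono' (fun j => greatest_le _ _))
      have hspec : ∀ᶠ j in (U : Filter Idx),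
          Mem (greatest (fun x => Mem x (f j)) (f j)) (f j) := by
        filter_upwards [hne] with j hj
        obtain ⟨y, hy⟩ := hj
        exact greatest_spec (P := fun x => Mem x (f j)) hy.lt.le hy
      have hmem : x ∈ JJ U a := hsub ((mem_iff hx hk).2 hspec)
      obtain ⟨n, hn⟩ := (mem_JJ hx).1 hmem
      refine ⟨n, ?_⟩
      filter_upwards [hn] with j hj y hy
      have : y ≤ greatest (fun x => Mem x (f j)) (f j) := le_greatest hy.lt.le hy
      exact lt_of_le_of_lt (by exact_mod_cast this) hj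
    · rw [← Ultrafilter.eventually_not] at hne
      refine ⟨0, ?_⟩
      filter_upwards [hne] with j hj y hy
      exact absurd ⟨y, hy⟩ hj
  · rintro ⟨n, hn⟩ x hx
    obtain ⟨g, hg⟩ := exists_rep x
    rw [mem_JJ hg]
    refine ⟨n, ?_⟩
    filter_upwards [hn, (mem_iff hg hk).1 hx] with j h1 h2
    exact h1 _ h2

theorem coded_sub_JJc (hG : Gen U a b) {k : MM U} {f : Idx → ℕ} (hk : Rep k f) :
    Coded k ⊆ (JJ U a)ᶜ ↔ ∃ n : ℕ, ∀ᶠ j in (U : Filter Idx), ∀ x : ℕ, Mem x (f j) →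
      b n * ((j.length : ℚ) + 1) < (x : ℚ) := by
  constructor
  · intro hsub
    by_cases hne : ∀ᶠ j in (U : Filter Idx), ∃ x, Mem x (f j)
    · obtain ⟨x, hx⟩ := exists_el (U := U) hk.1.minE (hk.2.1.mono' (fun j => leastOr_le _ _))
      have hspec : ∀ᶠ j in (U : Filter Idx),
          Mem (leastOr (f j) (fun x => Mem x (f j))) (f j) := by
        filter_upwards [hne] with j hj
        obtain ⟨y, hy⟩ := hj
        exact (leastOr_spec (P := fun x => Mem x (f j)) ⟨y, hy.lt, hy⟩).2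
      have hmem : x ∉ JJ U a := hsub ((mem_iff hx hk).2 hspec)
      obtain ⟨n, hn⟩ := (not_mem_JJ hG hx).1 hmem
      refine ⟨n, ?_⟩
      filter_upwards [hn] with j hj y hy
      have : leastOr (f j) (fun x => Mem x (f j)) ≤ y := leastOr_le_of hy
      exact lt_of_lt_of_le hj (by exact_mod_cast this)
    · rw [← Ultrafilter.eventually_not] at hne
      refine ⟨0, ?_⟩
      filter_upwards [hne] with j hj y hy
      exact absurd ⟨y, hy⟩ hj
  · rintro ⟨n, hn⟩ x hx
    obtain ⟨g, hg⟩ := exists_rep x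
    change x ∉ JJ U a
    rw [not_mem_JJ hG hg]
    refine ⟨n, ?_⟩
    filter_upwards [hn, (mem_iff hg hk).1 hx] with j h1 h2
    exact h1 _ h2

theorem mem_sing_iff {x κ : MM U} {f : Idx → ℕ} (hx : Rep x f)
    (hκ : Rep κ (fun j => sing (f j))) (y : MM U) : y ∈ Coded κ ↔ y = x := by
  obtain ⟨g, hg⟩ := exists_rep y
  change Mem y κ ↔ y = x
  rw [mem_iff hg hκ, hg.eq_iff hx]
  simp only [mem_sing]

theorem Rep.pr {x y : MM U} {f g : Idx → ℕ} (hx : Rep x f) (hy : Rep y g) :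
    Rep (pr x y) (fun j => pr (f j) (g j)) :=
  ((hx.add hy).mul (hx.add hy)).add hx

theorem Rep.quad {k i s t : MM U} {f g p q : Idx → ℕ} (hk : Rep k f) (hi : Rep i g)
    (hs : Rep s p) (ht : Rep t q) :
    Rep (quad k i s t) (fun j => quad (f j) (g j) (p j) (q j)) :=
  hk.pr (hi.pr (hs.pr ht))

end Pool.Agent.Helper66.Arith
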