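import Mathlib
import Pool.Agent.Helper66.GenModel

/-!
The generic initial segment is reducible to the standard cut.
-/

set_option autoImplicit false

namespace Pool.Agent.Helper66.Arith

open Function

theorem quad_def {M : Type} [CommSemiring M] (k i s t : M) :
    quad k i s t = pr k (pr i (pr s t)) := rfl

/-- Body of the reduction formula, positive part. -/
def bodyP : Fm :=
  .ball 7 (.var 6) ((Fm.neg (.lt (.var 7) (.var 5))).imp (.ball 8 (.var 1)
    ((memF 20 (.var 8) (.var 1)).imp (.ball 9 (.var 10)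
      ((memF 20 (.pr (.var 7) (.var 9)) (.var 10)).imp
        (.lt (.add (.mul (.var 5) (.var 8)) (.var 11)) (.mul (.var 5) (.var 9))))))))

/-- Body of the reduction formula, negative part. -/
def bodyN : Fm :=
  .ball 7 (.var 6) ((Fm.neg (.lt (.var 7) (.var 5))).imp (.ball 8 (.var 1)
    ((memF 20 (.var 8) (.var 1)).imp (.ball 9 (.var 10)
      ((memF 20 (.pr (.var 7) (.var 9)) (.var 10)).imp
        (.lt (.add (.mul (.var 5) (.var 9)) (.var 11)) (.mul (.var 5) (.var 8))))))))

/-- The term `⟨x₁, x₂, x₃, x₄⟩`. -/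
def quadT : Tm := .pr (.var 1) (.pr (.var 2) (.pr (.var 3) (.var 4)))

/-- Existential closure over the components of a quadruple. -/
def quadEx (φ : Fm) : Fm :=
  .bex 1 (.add (.var 0) .one) (.bex 2 (.add (.var 0) .one) (.bex 3 (.add (.var 0) .one)
    (.bex 4 (.add (.var 0) .one) ((Fm.eq (.var 0) quadT).and φ))))

/-- Core of the reduction formula. -/
def redCore : Fm :=
  .bex 5 (.var 3) ((memF 20 (.var 5) (.var 3)).and
    (.bex 6 (.var 4) ((memF 20 (.var 6) (.var 4)).and
      (((Fm.eq (.var 2) .one).and bodyP).or ((Fm.eq (.var 2) .zero).and bodyN)))))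

/-- The reduction formula. -/
def redF : Fm := quadEx redCore

theorem quadEx_bounded {φ : Fm} (h : φ.IsBounded) : (quadEx φ).IsBounded :=
  .bex _ _ (.bex _ _ (.bex _ _ (.bex _ _ (.and (.eq _ _) h))))

theorem redF_bounded : redF.IsBounded :=
  quadEx_bounded (.bex _ _ (.and (memF_bounded _ _ _) (.bex _ _ (.and (memF_bounded _ _ _)
    (.or (.and (.eq _ _) (.ball _ _ (.imp (.neg (.lt _ _)) (.ball _ _ (.imp (memF_bounded _ _ _)
      (.ball _ _ (.imp (memF_bounded _ _ _) (.lt _ _))))))))
      (.and (.eq _ _) (.ball _ _ (.imp (.neg (.lt _ _)) (.ball _ _ (.imp (memF_bounded _ _ _)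
      (.ball _ _ (.imp (memF_bounded _ _ _) (.lt _ _)))))))))))))

section

variable {M : Type} [CommSemiring M] [LinearOrder M] [IsStrictOrderedRing M]

/-- Meaning of the core. -/
def RedSem (E D k i s t : M) : Prop :=
  ∃ m, m < s ∧ Mem m s ∧ ∃ b, b < t ∧ Mem b t ∧
    ((i = 1 ∧ ∀ s', s' < b → ¬ s' < m → ∀ x, x < k → Mem x k → ∀ y, y < E → Mem (pr s' y) E →
      m * x + D < m * y) ∨
    (i = 0 ∧ ∀ s', s' < b → ¬ s' < m → ∀ x, x < k → Mem x k → ∀ y, y < E → Mem (pr s' y) E →
      m * y + D < m * x))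

theorem IsPAMinus.mem_lt (hM : IsPAMinus M) {x e : M} (h : Mem x e) : x < e := by
  obtain ⟨u, v, w, rfl, hx, -⟩ := h
  exact lt_of_lt_of_le hx (hM.right_le_pr _ _)

theorem holds_quadEx (hM : IsPAMinus M)
    (hinj : ∀ x y x' y' : M, pr x y = pr x' y' → x = x' ∧ y = y') (φ : Fm) (v : ℕ → M)
    (k i s t : M) :
    (quadEx φ).Holds (update v 0 (quad k i s t)) ↔
      φ.Holds (update (update (update (update (update v 0 (quad k i s t)) 1 k) 2 i) 3 s) 4 t) := by
  have h1 : k ≤ quad k i s t := hM.left_le_pr _ _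
  have h2 : i ≤ quad k i s t := (hM.left_le_pr _ _).trans (hM.right_le_pr _ _)
  have h3 : s ≤ quad k i s t :=
    ((hM.left_le_pr _ _).trans (hM.right_le_pr _ _)).trans (hM.right_le_pr _ _)
  have h4 : t ≤ quad k i s t :=
    ((hM.right_le_pr _ _).trans (hM.right_le_pr _ _)).trans (hM.right_le_pr _ _)
  unfold quadEx quadT
  simp (disch := decide) only [holds_and, holds_bex, holds_eq, Tm.val, val_pr, update_self,
    update_of_ne]
  constructor
  · rintro ⟨k', -, i', -, s', -, t', -, he, h⟩
    obtain ⟨e1, he⟩ := hinj _ _ _ _ he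
    obtain ⟨e2, he⟩ := hinj _ _ _ _ he
    obtain ⟨e3, e4⟩ := hinj _ _ _ _ he
    subst e1 e2 e3 e4
    exact h
  · intro h
    exact ⟨k, hM.lt_add_one_iff.2 h1, i, hM.lt_add_one_iff.2 h2, s, hM.lt_add_one_iff.2 h3,
      t, hM.lt_add_one_iff.2 h4, rfl, h⟩

theorem holds_redF (hM : IsPAMinus M)
    (hinj : ∀ x y x' y' : M, pr x y = pr x' y' → x = x' ∧ y = y') (v : ℕ → M)
    (k i s t : M) :
    redF.Holds (update v 0 (quad k i s t)) ↔ RedSem (v 10) (v 11) k i s t := by
  rw [redF, holds_quadEx hM hinj]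
  unfold redCore bodyP bodyN RedSem
  simp (disch := decide) only [holds_and, holds_bex, holds_ball, holds_imp, holds_or, holds_neg,
    holds_eq, holds_lt, holds_memF hM, Tm.val, val_pr, update_self, update_of_ne]

end

variable {U : Ultrafilter Idx} {a b : ℕ → ℚ}

theorem pr_inj_MM (x y x' y' : MM U) (h : pr x y = pr x' y') : x = x' ∧ y = y' := by
  obtain ⟨f, hf⟩ := exists_rep x
  obtain ⟨g, hg⟩ := exists_rep y
  obtain ⟨f', hf'⟩ := exists_rep x'
  obtain ⟨g', hg'⟩ := exists_rep y'
  rw [(hf.pr hg).eq_iff (hf'.pr hg')] at h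
  rw [hf.eq_iff hf', hg.eq_iff hg', ← Filter.eventually_and]
  filter_upwards [h] with j hj using pr_inj hj

theorem redSem_iff {E D k i s t : MM U} {fE fD fk fi fs ft : Idx → ℕ} (hE : Rep E fE)
    (hD : Rep D fD) (hk : Rep k fk) (hi : Rep i fi) (hs : Rep s fs) (ht : Rep t ft) :
    RedSem E D k i s t ↔ ∀ᶠ j in (U : Filter Idx),
      RedSem (fE j) (fD j) (fk j) (fi j) (fs j) (ft j) := by
  have hv : ∀ n, Rep (update (update (fun _ => (0 : MM U)) 10 E) 11 D n)
      (update (update (fun _ => (fun _ : Idx => 0)) 10 fE) 11 fD n) :=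
    rep_update (rep_update (fun _ => Rep.zero) 10 hE) 11 hD
  have h1 := holds_redF isPAMinus_MM pr_inj_MM
    (update (update (fun _ => (0 : MM U)) 10 E) 11 D) k i s t
  simp (disch := decide) only [update_self, update_of_ne] at h1
  rw [← h1, los redF_bounded (rep_update hv 0 (hk.quad hi hs ht))]
  apply Filter.eventually_congr
  apply Filter.Eventually.of_forall
  intro j
  rw [update_fun]
  have h2 := holds_redF isPAMinus_nat (fun x y x' y' h => pr_inj h)
    (fun n => update (update (fun _ => (fun _ : Idx => 0)) 10 fE) 11 fD n j)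
    (fk j) (fi j) (fs j) (ft j)
  simp (disch := decide) only [update_self, update_of_ne] at h2
  exact h2

/-- The element `D`. -/
theorem rep_D : ∃ D : MM U, Rep D (fun j => j.length + 1) :=
  exists_el (InF.len.add (InF.const 1)) (Dom.len.add (Dom.const 1))

theorem rep_E : ∃ E : MM U, Rep E (fun j => e0 j) := exists_el InF.e0 Dom.e0

theorem ghat_lt_e0 {j : Idx} {s : ℕ} (hs : s < j.length) : pr s (ghat j s) < e0 j :=
  ((mem_e0_pr j s (ghat j s)).2 ⟨hs, rfl⟩).lt

theorem ghat_of_le {j : Idx} {s : ℕ} (hs : j.length ≤ s) : ghat j s = 0 := by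
  unfold ghat
  rw [List.getD_eq_default _ _ hs]
  simp

theorem rep_gh (s : ℕ) : ∃ y : MM U, Rep y (fun j => ghat j s) := by
  apply exists_el (InF.gh s)
  apply Dom.e0.mono'
  intro j
  rcases lt_or_ge s j.length with h | h
  · exact (right_le_pr s _).trans (ghat_lt_e0 h).le
  · rw [ghat_of_le h]; exact Nat.zero_le _

/-- Standard elements are below nonstandard ones. -/
theorem std_lt {β : MM U} (hβ : β ∉ stdCut (MM U)) (n : ℕ) : (n : MM U) < β := by
  by_contra hlt
  apply hβ
  obtain ⟨g, hg⟩ := exists_rep β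
  rw [mem_stdCut_iff hg]
  refine ⟨n, ?_⟩
  have := (hg.le_iff (Rep.natCast n)).1 (not_lt.1 hlt)
  exact this

theorem coded_sing_sub {x κ : MM U} {f : Idx → ℕ} (hx : Rep x f)
    (hκ : Rep κ (fun j => sing (f j))) (A : Set (MM U)) : Coded κ ⊆ A ↔ x ∈ A := by
  constructor
  · intro h
    exact h ((mem_sing_iff hx hκ x).2 rfl)
  · intro h y hy
    rw [mem_sing_iff hx hκ] at hy
    exact hy ▸ h

theorem not_std_of_tendsto {β : MM U} {f : Idx → ℕ} (hβ : Rep β f)
    (h : ∀ L : ℕ, ∀ᶠ j in (U : Filter Idx), L ≤ f j) : β ∉ stdCut (MM U) := by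
  rw [mem_stdCut_iff hβ]
  rintro ⟨k, hk⟩
  have : ∀ᶠ j in (U : Filter Idx), False := by
    filter_upwards [hk, h (k + 1)] with j h1 h2
    omega
  exact this.exists.elim (fun _ h => h)

theorem le_ghat {j : Idx} {s : ℕ} : j.getD s 0 * ((j.length : ℚ) + 1) - 1 < (ghat j s : ℚ) := by
  unfold ghat
  have := Nat.lt_floor_add_one (j.getD s 0 * ((j.length : ℚ) + 1))
  linarith

theorem ghat_le {j : Idx} {s : ℕ} (h : 0 ≤ j.getD s 0) :
    (ghat j s : ℚ) ≤ j.getD s 0 * ((j.length : ℚ) + 1) := by
  unfold ghat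
  exact Nat.floor_le (by positivity)

/-- The generic segment is reducible to the standard cut. -/
theorem JJ_le_std (hG : Gen U a b) : TuringLE (JJ U a) (stdCut (MM U)) := by
  obtain ⟨D, hD⟩ := rep_D (U := U)
  obtain ⟨E, hE⟩ := rep_E (U := U)
  set v : ℕ → MM U := update (update (fun _ => (0 : MM U)) 10 E) 11 D with hv
  have hW : ∀ k i s t : MM U, redF.Holds (update v 0 (quad k i s t)) ↔ RedSem E D k i s t := by
    intro k i s t
    have h1 := holds_redF isPAMinus_MM pr_inj_MM v k i s t
    simp (disch := decide) only [hv, update_self, update_of_ne] at h1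
    exact h1
  refine ⟨{x | redF.Holds (update v 0 x)}, ⟨redF, .base redF_bounded, v, fun x => Iff.rfl⟩, ?_⟩
  intro k
  obtain ⟨fk, hk⟩ := exists_rep k
  constructor
  · constructor
    · intro hsub
      obtain ⟨n, hn⟩ := (coded_sub_JJ hk).1 hsub
      obtain ⟨N, hN⟩ := hG.lim (n + 1)
      have hδ : 0 < a (n + 1) - a n := by linarith [(hG.seq n).2.2.1]
      obtain ⟨m₀, hm₀⟩ := exists_nat_gt (2 / (a (n + 1) - a n))
      set m : ℕ := max N m₀ + 1 with hm
      have hmN : N ≤ m := by have := le_max_left N m₀; omega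
      have hm₀m : (m₀ : ℚ) ≤ m := by
        have := le_max_right N m₀
        exact_mod_cast (by omega : m₀ ≤ m)
      have hmδ : 2 < (m : ℚ) * (a (n + 1) - a n) := by
        have h1 : 2 / (a (n + 1) - a n) < m := lt_of_lt_of_le hm₀ hm₀m
        rwa [div_lt_iff₀ hδ] at h1
      -- the inequality at standard places
      have hst : ∀ s' ≥ m, ∀ᶠ j in (U : Filter Idx), ∀ x, Mem x (fk j) →
          m * x + (j.length + 1) < m * ghat j s' := by
        intro s' hs'
        filter_upwards [hn, hN s' (hmN.trans hs'), hG.len m] with j h1 h2 h3 x hx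
        have h4 := h1 x hx
        have h5 := le_ghat (j := j) (s := s')
        have hDpos : (0 : ℚ) < (j.length : ℚ) + 1 := by positivity
        have h6 : a (n + 1) * ((j.length : ℚ) + 1) < j.getD s' 0 * ((j.length : ℚ) + 1) :=
          mul_lt_mul_of_pos_right h2.2.1 hDpos
        have h7 : (m : ℚ) ≤ (j.length : ℚ) := by exact_mod_cast h3
        have hm0 : (0 : ℚ) < m := by
          have : 0 < m := by omega
          exact_mod_cast this
        have h8 : (m : ℚ) * x + ((j.length : ℚ) + 1) < m * ghat j s' := by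
          have e1 : (m : ℚ) * x < m * (a n * ((j.length : ℚ) + 1)) :=
            mul_lt_mul_of_pos_left h4 hm0
          have e2 : (m : ℚ) * (a (n + 1) * ((j.length : ℚ) + 1) - 1) < m * ghat j s' :=
            mul_lt_mul_of_pos_left (by linarith) hm0
          have e3 : 2 * ((j.length : ℚ) + 1) < (m : ℚ) * (a (n + 1) - a n) *
            ((j.length : ℚ) + 1) := mul_lt_mul_of_pos_right hmδ hDpos
          nlinarith
        exact_mod_cast h8
      set βf : Idx → ℕ := fun j => leastOr j.length (fun s => m ≤ s ∧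
        ¬ ∀ x, Mem x (fk j) → m * x + (j.length + 1) < m * ghat j s) with hβf
      obtain ⟨β, hβ⟩ := exists_el (U := U) (f := βf) (hk.1.ovP (InF.const m))
        (Dom.len.mono' (fun j => leastOr_le _ _))
      have hβstd : β ∉ stdCut (MM U) := by
        apply not_std_of_tendsto hβ
        intro L
        have : ∀ᶠ j in (U : Filter Idx), ∀ s' ∈ Finset.range L, m ≤ s' → ∀ x, Mem x (fk j) →
            m * x + (j.length + 1) < m * ghat j s' := by
          rw [Filter.eventually_all_finset]
          intro s' _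
          by_cases h : m ≤ s'
          · filter_upwards [hst s' h] with j hj _ using hj
          · exact Filter.Eventually.of_forall (fun j h' => absurd h' h)
        filter_upwards [this, hG.len L] with j h1 h2
        apply le_leastOr h2
        rintro s' hs' ⟨h3, h4⟩
        exact h4 (h1 s' (Finset.mem_range.2 hs') h3)
      obtain ⟨s, hs⟩ := exists_el (U := U) (InF.const m).sing (Dom.const m).sing
      obtain ⟨t, ht⟩ := exists_el (U := U) hβ.1.sing hβ.2.1.sing
      refine ⟨s, t, ?_, ?_, ?_⟩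
      · rw [coded_sing_sub (Rep.natCast m) hs]
        exact ⟨m, rfl⟩
      · rw [coded_sing_sub hβ ht]
        exact hβstd
      · change redF.Holds _
        rw [hW, redSem_iff hE hD hk Rep.one hs ht]
        apply Filter.Eventually.of_forall
        intro j
        refine ⟨m, ?_, ?_, βf j, ?_, ?_, Or.inl ⟨rfl, ?_⟩⟩
        · exact Mem.lt ((mem_sing _ _).2 rfl)
        · exact (mem_sing _ _).2 rfl
        · exact Mem.lt ((mem_sing _ _).2 rfl)
        · exact (mem_sing _ _).2 rfl
        · intro s' hs' hms x _ hx y _ hy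
          obtain ⟨-, rfl⟩ := (mem_e0_pr j s' y).1 hy
          have h1 := leastOr_min hs'
          push Not at h1
          exact h1 (not_lt.1 hms) x hx
    · rintro ⟨s, t, hs, ht, hWk⟩
      change redF.Holds _ at hWk
      rw [hW] at hWk
      obtain ⟨m, -, hms, β, -, hβt, hcase⟩ := hWk
      obtain ⟨m₀, rfl⟩ := hs hms
      have hβ : β ∉ stdCut (MM U) := ht hβt
      rcases hcase with ⟨-, hin⟩ | ⟨h01, -⟩
      swap
      · exact absurd h01 one_ne_zero
      intro x hx
      obtain ⟨f, hf⟩ := exists_rep x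
      set n : ℕ := 2 * (m₀ + 1) with hn
      obtain ⟨N, hN⟩ := hG.lim n
      set s' : ℕ := max N m₀ with hs'
      obtain ⟨y, hy⟩ := rep_gh (U := U) s'
      have hpos : (0 : MM U) ≤ (s' : MM U) := isPAMinus_MM.zero_le _
      have hmem : Mem (pr (s' : MM U) y) E := by
        rw [mem_iff ((Rep.natCast s').pr hy) hE]
        filter_upwards [hG.len (s' + 1)] with j hj
        exact (mem_e0_pr j _ _).2 ⟨by omega, rfl⟩
      have hyE : y < E := lt_of_le_of_lt (isPAMinus_MM.right_le_pr _ _)
        (isPAMinus_MM.mem_lt hmem)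
      have hnlt : ¬ (s' : MM U) < (m₀ : MM U) := by
        rw [(Rep.natCast s').lt_iff (Rep.natCast m₀)]
        intro h
        obtain ⟨j, hj⟩ := h.exists
        have := le_max_right N m₀
        omega
      have h1 := hin s' (std_lt hβ s') hnlt x (isPAMinus_MM.mem_lt hx) hx y hyE hmem
      rw [(((Rep.natCast m₀).mul hf).add hD).lt_iff ((Rep.natCast m₀).mul hy)] at h1
      rw [mem_JJ hf]
      refine ⟨n, ?_⟩
      filter_upwards [h1, hN s' (le_max_left _ _)] with j h2 h3
      have h0 : 0 ≤ j.getD s' 0 := (hG.pos n).le.trans h3.2.1.le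
      have h4 := ghat_le (j := j) (s := s') h0
      have hDpos : (0 : ℚ) < (j.length : ℚ) + 1 := by positivity
      have h5 : j.getD s' 0 * ((j.length : ℚ) + 1) < b n * ((j.length : ℚ) + 1) :=
        mul_lt_mul_of_pos_right h3.2.2 hDpos
      have h6 : (m₀ : ℚ) * (f j) + ((j.length : ℚ) + 1) < m₀ * ghat j s' := by exact_mod_cast h2
      have hm0 : (0 : ℚ) ≤ m₀ := by positivity
      have h7 : (m₀ : ℚ) * ghat j s' ≤ m₀ * (b n * ((j.length : ℚ) + 1)) :=
        mul_le_mul_of_nonneg_left (h4.trans h5.le) hm0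
      have h8 := (hG.seq n).2.2.2.2.2
      have h9 : (n : ℚ) + 1 = 2 * (m₀ + 1) + 1 := by rw [hn]; push_cast; ring
      rw [h9] at h8
      have h10 : (m₀ : ℚ) * (b n - a n) ≤ 1 / 2 := by
        have e1 : (m₀ : ℚ) * (b n - a n) ≤ m₀ * (1 / (2 * (m₀ + 1) + 1)) :=
          mul_le_mul_of_nonneg_left h8.le hm0
        have e2 : (m₀ : ℚ) * (1 / (2 * (m₀ + 1) + 1)) ≤ 1 / 2 := by
          rw [mul_one_div, div_le_div_iff₀ (by positivity) (by norm_num)]
          linarith
        linarith
      have h11 : (m₀ : ℚ) * (b n - a n) * ((j.length : ℚ) + 1) ≤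
          1 / 2 * ((j.length : ℚ) + 1) := mul_le_mul_of_nonneg_right h10 hDpos.le
      have h12 : (m₀ : ℚ) * (f j) < m₀ * (a n * ((j.length : ℚ) + 1)) := by nlinarith
      exact lt_of_mul_lt_mul_left h12 hm0
  · constructor
    · intro hsub
      obtain ⟨n, hn⟩ := (coded_sub_JJc hG hk).1 hsub
      obtain ⟨N, hN⟩ := hG.lim (n + 1)
      have hδ : 0 < b n - b (n + 1) := by linarith [(hG.seq n).2.2.2.1]
      obtain ⟨m₀, hm₀⟩ := exists_nat_gt (2 / (b n - b (n + 1)))
      set m : ℕ := max N m₀ + 1 with hm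
      have hmN : N ≤ m := by have := le_max_left N m₀; omega
      have hm₀m : (m₀ : ℚ) ≤ m := by
        have := le_max_right N m₀
        exact_mod_cast (by omega : m₀ ≤ m)
      have hmδ : 2 < (m : ℚ) * (b n - b (n + 1)) := by
        have h1 : 2 / (b n - b (n + 1)) < m := lt_of_lt_of_le hm₀ hm₀m
        rwa [div_lt_iff₀ hδ] at h1
      have hst : ∀ s' ≥ m, ∀ᶠ j in (U : Filter Idx), ∀ x, Mem x (fk j) →
          m * ghat j s' + (j.length + 1) < m * x := by
        intro s' hs'
        filter_upwards [hn, hN s' (hmN.trans hs'), hG.len m] with j h1 h2 h3 x hx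
        have h4 := h1 x hx
        have h0 : 0 ≤ j.getD s' 0 := (hG.pos (n + 1)).le.trans h2.2.1.le
        have h5 := ghat_le (j := j) (s := s') h0
        have hDpos : (0 : ℚ) < (j.length : ℚ) + 1 := by positivity
        have h6 : j.getD s' 0 * ((j.length : ℚ) + 1) < b (n + 1) * ((j.length : ℚ) + 1) :=
          mul_lt_mul_of_pos_right h2.2.2 hDpos
        have hm0 : (0 : ℚ) < m := by
          have : 0 < m := by omega
          exact_mod_cast this
        have h8 : (m : ℚ) * ghat j s' + ((j.length : ℚ) + 1) < m * x := by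
          have e1 : (m : ℚ) * (b n * ((j.length : ℚ) + 1)) < m * x :=
            mul_lt_mul_of_pos_left h4 hm0
          have e2 : (m : ℚ) * ghat j s' ≤ m * (b (n + 1) * ((j.length : ℚ) + 1)) :=
            mul_le_mul_of_nonneg_left (h5.trans h6.le) hm0.le
          have e3 : 2 * ((j.length : ℚ) + 1) < (m : ℚ) * (b n - b (n + 1)) *
            ((j.length : ℚ) + 1) := mul_lt_mul_of_pos_right hmδ hDpos
          nlinarith
        exact_mod_cast h8
      set βf : Idx → ℕ := fun j => leastOr j.length (fun s => m ≤ s ∧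
        ¬ ∀ x, Mem x (fk j) → m * ghat j s + (j.length + 1) < m * x) with hβf
      obtain ⟨β, hβ⟩ := exists_el (U := U) (f := βf) (hk.1.ovN (InF.const m))
        (Dom.len.mono' (fun j => leastOr_le _ _))
      have hβstd : β ∉ stdCut (MM U) := by
        apply not_std_of_tendsto hβ
        intro L
        have : ∀ᶠ j in (U : Filter Idx), ∀ s' ∈ Finset.range L, m ≤ s' → ∀ x, Mem x (fk j) →
            m * ghat j s' + (j.length + 1) < m * x := by
          rw [Filter.eventually_all_finset]
          intro s' _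
          by_cases h : m ≤ s'
          · filter_upwards [hst s' h] with j hj _ using hj
          · exact Filter.Eventually.of_forall (fun j h' => absurd h' h)
        filter_upwards [this, hG.len L] with j h1 h2
        apply le_leastOr h2
        rintro s' hs' ⟨h3, h4⟩
        exact h4 (h1 s' (Finset.mem_range.2 hs') h3)
      obtain ⟨s, hs⟩ := exists_el (U := U) (InF.const m).sing (Dom.const m).sing
      obtain ⟨t, ht⟩ := exists_el (U := U) hβ.1.sing hβ.2.1.sing
      refine ⟨s, t, ?_, ?_, ?_⟩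
      · rw [coded_sing_sub (Rep.natCast m) hs]
        exact ⟨m, rfl⟩
      · rw [coded_sing_sub hβ ht]
        exact hβstd
      · change redF.Holds _
        rw [hW, redSem_iff hE hD hk Rep.zero hs ht]
        apply Filter.Eventually.of_forall
        intro j
        refine ⟨m, ?_, ?_, βf j, ?_, ?_, Or.inr ⟨rfl, ?_⟩⟩
        · exact Mem.lt ((mem_sing _ _).2 rfl)
        · exact (mem_sing _ _).2 rfl
        · exact Mem.lt ((mem_sing _ _).2 rfl)
        · exact (mem_sing _ _).2 rfl
        · intro s' hs' hms x _ hx y _ hy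
          obtain ⟨-, rfl⟩ := (mem_e0_pr j s' y).1 hy
          have h1 := leastOr_min hs'
          push Not at h1
          exact h1 (not_lt.1 hms) x hx
    · rintro ⟨s, t, hs, ht, hWk⟩
      change redF.Holds _ at hWk
      rw [hW] at hWk
      obtain ⟨m, -, hms, β, -, hβt, hcase⟩ := hWk
      obtain ⟨m₀, rfl⟩ := hs hms
      have hβ : β ∉ stdCut (MM U) := ht hβt
      rcases hcase with ⟨h01, -⟩ | ⟨-, hin⟩
      · exact absurd h01.symm one_ne_zero
      intro x hx
      change x ∉ JJ U a
      obtain ⟨f, hf⟩ := exists_rep x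
      set n : ℕ := 2 * (m₀ + 1) with hn
      obtain ⟨N, hN⟩ := hG.lim n
      set s' : ℕ := max N m₀ with hs'
      obtain ⟨y, hy⟩ := rep_gh (U := U) s'
      have hmem : Mem (pr (s' : MM U) y) E := by
        rw [mem_iff ((Rep.natCast s').pr hy) hE]
        filter_upwards [hG.len (s' + 1)] with j hj
        exact (mem_e0_pr j _ _).2 ⟨by omega, rfl⟩
      have hyE : y < E := lt_of_le_of_lt (isPAMinus_MM.right_le_pr _ _)
        (isPAMinus_MM.mem_lt hmem)
      have hnlt : ¬ (s' : MM U) < (m₀ : MM U) := by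
        rw [(Rep.natCast s').lt_iff (Rep.natCast m₀)]
        intro h
        obtain ⟨j, hj⟩ := h.exists
        have := le_max_right N m₀
        omega
      have h1 := hin s' (std_lt hβ s') hnlt x (isPAMinus_MM.mem_lt hx) hx y hyE hmem
      rw [(((Rep.natCast m₀).mul hy).add hD).lt_iff ((Rep.natCast m₀).mul hf)] at h1
      rw [not_mem_JJ hG hf]
      refine ⟨n, ?_⟩
      filter_upwards [h1, hN s' (le_max_left _ _), hG.len (2 * m₀)] with j h2 h3 hlen
      have h4 := le_ghat (j := j) (s := s')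
      have hDpos : (0 : ℚ) < (j.length : ℚ) + 1 := by positivity
      have hDm : 2 * (m₀ : ℚ) ≤ (j.length : ℚ) := by exact_mod_cast hlen
      have h5 : a n * ((j.length : ℚ) + 1) < j.getD s' 0 * ((j.length : ℚ) + 1) :=
        mul_lt_mul_of_pos_right h3.2.1 hDpos
      have h6 : (m₀ : ℚ) * ghat j s' + ((j.length : ℚ) + 1) < m₀ * (f j) := by exact_mod_cast h2
      have hm0 : (0 : ℚ) ≤ m₀ := by positivity
      have h7 : (m₀ : ℚ) * (a n * ((j.length : ℚ) + 1) - 1) ≤ m₀ * ghat j s' :=
        mul_le_mul_of_nonneg_left (by linarith) hm0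
      have h8 := (hG.seq n).2.2.2.2.2
      have h9 : (n : ℚ) + 1 = 2 * (m₀ + 1) + 1 := by rw [hn]; push_cast; ring
      rw [h9] at h8
      have h10 : (m₀ : ℚ) * (b n - a n) ≤ 1 / 2 := by
        have e1 : (m₀ : ℚ) * (b n - a n) ≤ m₀ * (1 / (2 * (m₀ + 1) + 1)) :=
          mul_le_mul_of_nonneg_left h8.le hm0
        have e2 : (m₀ : ℚ) * (1 / (2 * (m₀ + 1) + 1)) ≤ 1 / 2 := by
          rw [mul_one_div, div_le_div_iff₀ (by positivity) (by norm_num)]
          linarith
        linarith
      have h11 : (m₀ : ℚ) * (b n - a n) * ((j.length : ℚ) + 1) ≤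
          1 / 2 * ((j.length : ℚ) + 1) := mul_le_mul_of_nonneg_right h10 hDpos.le
      have h12 : (m₀ : ℚ) * (b n * ((j.length : ℚ) + 1)) < m₀ * (f j) := by nlinarith
      exact lt_of_mul_lt_mul_left h12 hm0

end Pool.Agent.Helper66.Arith
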