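import Mathlib
import Pool.Agent.Helper66.Reduc

/-!
The standard cut is not reducible to the generic initial segment, and the generic initial segment
is not computable.
-/

set_option autoImplicit false

namespace Pool.Agent.Helper66.Arith

open Function

variable {U : Ultrafilter Idx} {a b : ℕ → ℚ}

/-- Locality for the functions used in `hB` and `hC`. -/
theorem holdsLe_quad (φ : Fm) (B : ℕ) (f : ℕ → Idx → ℕ) (j : Idx) (x : ℕ) :
    φ.HoldsLe B (update (valL ((vlist φ.bd f).map (fun f => f j))) 0 x) ↔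
      φ.HoldsLe B (update (fun i => f i j) 0 x) := holdsLe_valL φ le_rfl B f j 0 x

/-- The witnesses for `QB` work. -/
theorem wST_spec {φ : Fm} {a b : ℚ} {m i : ℕ} {l : List ℕ} {j : Idx} (h : QB φ l j a b m i) :
    RB φ l j a b m i (wS φ a b m i l j) (wT φ a b m i l j) := by
  obtain ⟨s₀, hs₀, hs₁⟩ := h
  have h1 := leastOr_spec (n := TT m j + 1) (P := fun s => ∃ t ≤ TT m j,
    RB φ l j a b m i s t) ⟨s₀, Nat.lt_succ_of_le hs₀, hs₁⟩
  obtain ⟨t₀, ht₀, ht₁⟩ := h1.2
  exact (leastOr_spec (n := TT m j + 1) (P := fun t =>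
    RB φ l j a b m i (wS φ a b m i l j) t) ⟨t₀, Nat.lt_succ_of_le ht₀, ht₁⟩).2

/-- The witnesses for `QC` work. -/
theorem wST'_spec {φ : Fm} {b : ℚ} {m : ℕ} {l : List ℕ} {j : Idx} (h : QC φ l j b m) :
    RC φ l j b m (wS' φ b m l j) (wT' φ b m l j) := by
  obtain ⟨s₀, hs₀, hs₁⟩ := h
  have h1 := leastOr_spec (n := TT m j + 1) (P := fun s => ∃ t ≤ TT m j,
    RC φ l j b m s t) ⟨s₀, Nat.lt_succ_of_le hs₀, hs₁⟩
  obtain ⟨t₀, ht₀, ht₁⟩ := h1.2
  exact (leastOr_spec (n := TT m j + 1) (P := fun t =>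
    RC φ l j b m (wS' φ b m l j) t) ⟨t₀, Nat.lt_succ_of_le ht₀, ht₁⟩).2

/-- The standard cut is not reducible to the generic segment. -/
theorem not_std_le_JJ (hG : Gen U a b) : ¬ TuringLE (stdCut (MM U)) (JJ U a) := by
  rintro ⟨W, ⟨φ, hφ, v, hW⟩, hred⟩
  have hφ : ExBlock Fm.IsBounded φ := hφ
  choose f hf using fun i => exists_rep (v i)
  have hfF : ∀ i, InF (f i) := fun i => (hf i).1
  rcases hG.decB φ (vlist φ.bd f) (mem_vlist hfF) with ⟨n, m, i, h⟩ | ⟨n, h⟩
  · -- decided case: a standard element would be declared nonstandard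
    have hQ : ∀ᶠ j in (U : Filter Idx),
        QB φ ((vlist φ.bd f).map (fun f => f j)) j (a n) (b n) m i := by
      filter_upwards [h, hG.len (i + 1)] with j h1 h2
      have h1' : leastOr j.length
          (QB φ ((vlist φ.bd f).map (fun f => f j)) j (a n) (b n) m) = i := h1
      have h3 : leastOr j.length
          (QB φ ((vlist φ.bd f).map (fun f => f j)) j (a n) (b n) m) < j.length := by
        rw [h1']; omega
      by_contra hcon
      have hall : ∀ y < j.length,
          ¬ QB φ ((vlist φ.bd f).map (fun f => f j)) j (a n) (b n) m y := by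
        intro y hy hQy
        have h4 := leastOr_spec (P := QB φ ((vlist φ.bd f).map (fun f => f j)) j (a n) (b n) m)
          ⟨y, hy, hQy⟩
        rw [h1'] at h4
        exact hcon h4.2
      have := le_leastOr le_rfl hall
      omega
    set sf : Idx → ℕ := fun j => wS φ (a n) (b n) m i ((vlist φ.bd f).map (fun f => f j)) j
      with hsf
    set tf : Idx → ℕ := fun j => wT φ (a n) (b n) m i ((vlist φ.bd f).map (fun f => f j)) j
      with htf
    obtain ⟨B, hB⟩ := rep_TT (U := U) m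
    obtain ⟨s, hs⟩ := exists_el (U := U) (f := sf) (InF.wS φ (a n) (b n) m i hfF)
      ((hB.add Rep.one).2.1.mono' (fun j => leastOr_le _ _))
    obtain ⟨t, ht⟩ := exists_el (U := U) (f := tf) (InF.wT φ (a n) (b n) m i hfF)
      ((hB.add Rep.one).2.1.mono' (fun j => leastOr_le _ _))
    have hR : ∀ᶠ j in (U : Filter Idx),
        RB φ ((vlist φ.bd f).map (fun f => f j)) j (a n) (b n) m i (sf j) (tf j) := by
      filter_upwards [hQ] with j hj
      exact wST_spec hj
    obtain ⟨κ, hκ⟩ := exists_el (U := U) (InF.const i).sing (Dom.const i).sing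
    have h1 : Coded s ⊆ JJ U a := (coded_sub_JJ hs).2 ⟨n, by
      filter_upwards [hR] with j hj using hj.1⟩
    have h2 : Coded t ⊆ (JJ U a)ᶜ := (coded_sub_JJc hG ht).2 ⟨n, by
      filter_upwards [hR] with j hj using hj.2.1⟩
    have h3 : quad κ 0 s t ∈ W := by
      rw [hW, holds_iff_exists_holdsLe hφ]
      refine ⟨B, ?_⟩
      rw [los_le φ (rep_update hf 0 (hκ.quad Rep.zero hs ht)) hB]
      filter_upwards [hR] with j hj
      rw [update_fun, ← holdsLe_quad]
      exact hj.2.2
    have h4 := (hred κ).2.2 ⟨s, t, h1, h2, h3⟩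
    rw [coded_sing_sub (Rep.natCast i) hκ] at h4
    exact h4 ⟨i, rfl⟩
  · -- undecided case: overspill
    set bf : Idx → ℕ := fun j => greatest (fun N => ∀ τ : ℚ × ℚ × ℕ, Encodable.encode τ < N →
      a n ≤ τ.1 → τ.1 < τ.2.1 → τ.2.1 ≤ b n →
        N ≤ hB φ ((vlist φ.bd f).map (fun f => f j)) j τ.1 τ.2.1 τ.2.2) j.length with hbf
    have hbfF : InF bf := InF.b0 φ (a n) (b n) hfF
    have hbfD : Dom U bf := Dom.len.mono' (fun j => greatest_le _ _)
    have hbfL : ∀ L : ℕ, ∀ᶠ j in (U : Filter Idx), L ≤ bf j := by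
      intro L
      have hfin : {τ : ℚ × ℚ × ℕ | Encodable.encode τ < L}.Finite :=
        Set.Finite.of_injOn (f := Encodable.encode) (t := Set.Iio L) (fun _ h => h)
          (Encodable.encode_injective.injOn) (Set.finite_Iio L)
      have h1 : ∀ᶠ j in (U : Filter Idx), ∀ τ ∈ {τ : ℚ × ℚ × ℕ | Encodable.encode τ < L},
          a n ≤ τ.1 → τ.1 < τ.2.1 → τ.2.1 ≤ b n →
          L ≤ hB φ ((vlist φ.bd f).map (fun f => f j)) j τ.1 τ.2.1 τ.2.2 := by
        rw [Filter.eventually_all_finite hfin]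
        intro τ _
        by_cases hτ : a n ≤ τ.1 ∧ τ.1 < τ.2.1 ∧ τ.2.1 ≤ b n
        · have h2 : ∀ᶠ j in (U : Filter Idx), ∀ i ∈ Finset.range L,
              hB φ ((vlist φ.bd f).map (fun f => f j)) j τ.1 τ.2.1 τ.2.2 ≠ i := by
            rw [Filter.eventually_all_finset]
            intro i _
            exact h τ.1 τ.2.1 hτ.1 hτ.2.1 hτ.2.2 τ.2.2 i
          filter_upwards [h2] with j hj _ _ _
          by_contra hlt
          exact hj _ (Finset.mem_range.2 (not_le.1 hlt)) rfl
        · exact Filter.Eventually.of_forall (fun j h1 h2 h3 => absurd ⟨h1, h2, h3⟩ hτ)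
      filter_upwards [h1, hG.len L] with j h2 h3
      exact le_greatest h3 (fun τ hτ => h2 τ hτ)
    obtain ⟨β, hβ⟩ := exists_el (U := U) (f := fun j => bf j - 1) (hbfF.sub (InF.const 1))
      (hbfD.mono' (fun j => Nat.sub_le _ _))
    have hβstd : β ∉ stdCut (MM U) := by
      apply not_std_of_tendsto hβ
      intro L
      filter_upwards [hbfL (L + 1)] with j hj
      omega
    obtain ⟨κ, hκ⟩ := exists_el (U := U) hβ.1.sing hβ.2.1.sing
    obtain ⟨s, t, hs, ht, hst⟩ := (hred κ).2.1 ((coded_sing_sub hβ hκ _).2 hβstd)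
    rw [hW, holds_iff_exists_holdsLe hφ] at hst
    obtain ⟨B, hB'⟩ := hst
    obtain ⟨sf, hsf⟩ := exists_rep s
    obtain ⟨tf, htf⟩ := exists_rep t
    obtain ⟨Bf, hBf⟩ := exists_rep B
    rw [los_le φ (rep_update hf 0 (hκ.quad Rep.zero hsf htf)) hBf] at hB'
    obtain ⟨n₁, hn₁⟩ := (coded_sub_JJ hsf).1 hs
    obtain ⟨n₂, hn₂⟩ := (coded_sub_JJc hG htf).1 ht
    obtain ⟨m₁, hm₁⟩ := hsf.2.1
    obtain ⟨m₂, hm₂⟩ := htf.2.1
    obtain ⟨m₃, hm₃⟩ := hBf.2.1
    set m : ℕ := max m₁ (max m₂ m₃) with hm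
    set n' : ℕ := max n (max n₁ n₂) with hn'
    have hna : a n ≤ a n' := hG.a_mono (le_max_left _ _)
    have hnb : b n' ≤ b n := hG.b_anti (le_max_left _ _)
    have hn₁a : a n₁ ≤ a n' := hG.a_mono ((le_max_left _ _).trans (le_max_right _ _))
    have hn₂b : b n' ≤ b n₂ := hG.b_anti ((le_max_right _ _).trans (le_max_right _ _))
    have hab : a n' < b n' := (hG.seq n').2.2.2.2.1
    have hfinal : ∀ᶠ j in (U : Filter Idx), False := by
      filter_upwards [hB', hn₁, hn₂, hm₁, hm₂, hm₃,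
        hbfL (Encodable.encode ((a n', b n', m) : ℚ × ℚ × ℕ) + 1), hG.len 1] with
        j h1 h2 h3 h4 h5 h6 h7 h8
      have hD : (0 : ℚ) < (j.length : ℚ) + 1 := by positivity
      have hbj : bf j ≤ j.length := greatest_le _ _
      have hQ : QB φ ((vlist φ.bd f).map (fun f => f j)) j (a n') (b n') m (bf j - 1) := by
        refine ⟨sf j, h4.trans (TT_mono (le_max_left _ _) j), tf j,
          h5.trans (TT_mono ((le_max_left _ _).trans (le_max_right _ _)) j), ?_, ?_, ?_⟩
        · intro x hx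
          exact (h2 x hx).trans_le (mul_le_mul_of_nonneg_right hn₁a hD.le)
        · intro x hx
          exact (mul_le_mul_of_nonneg_right hn₂b hD.le).trans_lt (h3 x hx)
        · rw [holdsLe_quad]
          rw [update_fun] at h1
          exact holdsLe_mono hφ
            (h6.trans (TT_mono ((le_max_right _ _).trans (le_max_right _ _)) j)) h1
      have h9 : hB φ ((vlist φ.bd f).map (fun f => f j)) j (a n') (b n') m ≤ bf j - 1 :=
        leastOr_le_of hQ
      have h10 := greatest_spec (P := fun N => ∀ τ : ℚ × ℚ × ℕ, Encodable.encode τ < N →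
        a n ≤ τ.1 → τ.1 < τ.2.1 → τ.2.1 ≤ b n →
          N ≤ hB φ ((vlist φ.bd f).map (fun f => f j)) j τ.1 τ.2.1 τ.2.2) (n := j.length)
        (m := 0) (Nat.zero_le _) (fun τ hτ => absurd hτ (Nat.not_lt_zero _))
      have h11 : bf j ≤ hB φ ((vlist φ.bd f).map (fun f => f j)) j (a n') (b n') m :=
        h10 (a n', b n', m) h7 hna hab hnb
      omega
    exact hfinal.exists.elim (fun _ h => h)

/-- The generic segment is not computable. -/
theorem not_JJ_le_empty (hG : Gen U a b) : ¬ TuringLE (JJ U a) (∅ : Set (MM U)) := by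
  rintro ⟨W, ⟨φ, hφ, v, hW⟩, hred⟩
  have hφ : ExBlock Fm.IsBounded φ := hφ
  choose f hf using fun i => exists_rep (v i)
  have hfF : ∀ i, InF (f i) := fun i => (hf i).1
  have hxrep : ∀ q : ℚ, 0 ≤ q → q ≤ 1 →
      ∃ x : MM U, Rep x (fun j => ⌊q * ((j.length : ℚ) + 1)⌋₊) := by
    intro q hq0 hq1
    apply exists_el (InF.flr q)
    apply (Dom.len.add (Dom.const 1)).mono'
    intro j
    have h1 : (⌊q * ((j.length : ℚ) + 1)⌋₊ : ℚ) ≤ q * ((j.length : ℚ) + 1) :=
      Nat.floor_le (by positivity)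
    have h2 : q * ((j.length : ℚ) + 1) ≤ (j.length : ℚ) + 1 := by
      nlinarith [(by positivity : (0 : ℚ) ≤ (j.length : ℚ) + 1)]
    exact_mod_cast h1.trans h2
  rcases hG.decC φ (vlist φ.bd f) (mem_vlist hfF) with ⟨n, m, i, h⟩ | ⟨n, h⟩
  · have hQ : ∀ᶠ j in (U : Filter Idx),
        QC φ ((vlist φ.bd f).map (fun f => f j)) j (b n) m := by
      filter_upwards [h, hG.len (i + 1)] with j h1 h2
      by_contra hcon
      have h1' : hC φ ((vlist φ.bd f).map (fun f => f j)) j (a n) (b n) m = i := h1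
      unfold hC at h1'
      rw [if_neg hcon] at h1'
      omega
    set sf : Idx → ℕ := fun j => wS' φ (b n) m ((vlist φ.bd f).map (fun f => f j)) j with hsf
    set tf : Idx → ℕ := fun j => wT' φ (b n) m ((vlist φ.bd f).map (fun f => f j)) j with htf
    obtain ⟨B, hB⟩ := rep_TT (U := U) m
    obtain ⟨s, hs⟩ := exists_el (U := U) (f := sf) (InF.wS' φ (b n) m hfF)
      ((hB.add Rep.one).2.1.mono' (fun j => leastOr_le _ _))
    obtain ⟨t, ht⟩ := exists_el (U := U) (f := tf) (InF.wT' φ (b n) m hfF)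
      ((hB.add Rep.one).2.1.mono' (fun j => leastOr_le _ _))
    have hR : ∀ᶠ j in (U : Filter Idx),
        RC φ ((vlist φ.bd f).map (fun f => f j)) j (b n) m (sf j) (tf j) := by
      filter_upwards [hQ] with j hj
      exact wST'_spec hj
    have hb0 : 0 ≤ b n := (hG.pos n).le.trans (hG.seq n).2.2.2.2.1.le
    obtain ⟨x, hx⟩ := hxrep (b n) hb0 (hG.seq n).2.1.le
    obtain ⟨κ, hκ⟩ := exists_el (U := U) hx.1.sing hx.2.1.sing
    have h1 : Coded s ⊆ (∅ : Set (MM U)) := by
      intro y hy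
      obtain ⟨g, hg⟩ := exists_rep y
      have hy' := (mem_iff hg hs).1 hy
      have : ∀ᶠ j in (U : Filter Idx), False := by
        filter_upwards [hy', hR] with j h1 h2
        exact h2.1 _ h1
      exact this.exists.elim (fun _ h => h)
    have h2 : Coded t ⊆ (∅ : Set (MM U))ᶜ := by simp
    have h3 : quad κ 1 s t ∈ W := by
      rw [hW, holds_iff_exists_holdsLe hφ]
      refine ⟨B, ?_⟩
      rw [los_le φ (rep_update hf 0 (hκ.quad Rep.one hs ht)) hB]
      filter_upwards [hR] with j hj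
      rw [update_fun, ← holdsLe_quad]
      exact hj.2
    have h4 := (hred κ).1.2 ⟨s, t, h1, h2, h3⟩
    rw [coded_sing_sub hx hκ] at h4
    have h5 : x ∉ JJ U a := by
      rw [not_mem_JJ hG hx]
      refine ⟨n + 1, ?_⟩
      have hδ : 0 < b n - b (n + 1) := by linarith [(hG.seq n).2.2.2.1]
      obtain ⟨L, hL⟩ := exists_nat_gt (1 / (b n - b (n + 1)))
      filter_upwards [hG.len L] with j hj
      have h6 := Nat.lt_floor_add_one (b n * ((j.length : ℚ) + 1))
      have h7 : (L : ℚ) ≤ j.length := by exact_mod_cast hj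
      have h8 : 1 < (b n - b (n + 1)) * ((j.length : ℚ) + 1) := by
        rw [div_lt_iff₀ hδ] at hL
        nlinarith
      linarith
    exact h5 h4
  · have hb0 : 0 ≤ a (n + 1) := (hG.pos _).le
    have han : a n < a (n + 1) := (hG.seq n).2.2.1
    have hle1 : a (n + 1) ≤ b n := (hG.a_lt_b _ _).le
    obtain ⟨x, hx⟩ := hxrep (a (n + 1)) hb0 (hle1.trans (hG.seq n).2.1.le)
    have hxJ : x ∈ JJ U a := by
      rw [mem_JJ hx]
      refine ⟨n + 2, Filter.Eventually.of_forall (fun j => ?_)⟩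
      have h1 : (⌊a (n + 1) * ((j.length : ℚ) + 1)⌋₊ : ℚ) ≤ a (n + 1) * ((j.length : ℚ) + 1) :=
        Nat.floor_le (by positivity)
      have hD : (0 : ℚ) < (j.length : ℚ) + 1 := by positivity
      exact h1.trans_lt (mul_lt_mul_of_pos_right (hG.seq (n + 1)).2.2.1 hD)
    obtain ⟨κ, hκ⟩ := exists_el (U := U) hx.1.sing hx.2.1.sing
    obtain ⟨s, t, hs, ht, hst⟩ := (hred κ).1.1 ((coded_sing_sub hx hκ _).2 hxJ)
    rw [hW, holds_iff_exists_holdsLe hφ] at hst
    obtain ⟨B, hB'⟩ := hst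
    obtain ⟨sf, hsf⟩ := exists_rep s
    obtain ⟨tf, htf⟩ := exists_rep t
    obtain ⟨Bf, hBf⟩ := exists_rep B
    rw [los_le φ (rep_update hf 0 (hκ.quad Rep.one hsf htf)) hBf] at hB'
    obtain ⟨m₁, hm₁⟩ := hsf.2.1
    obtain ⟨m₂, hm₂⟩ := htf.2.1
    obtain ⟨m₃, hm₃⟩ := hBf.2.1
    have hsempty : ∀ᶠ j in (U : Filter Idx), ∀ x, ¬ Mem x (sf j) := by
      by_contra hno
      rw [← Ultrafilter.eventually_not] at hno
      obtain ⟨y, hy⟩ := exists_el (U := U) hsf.1.minE (hsf.2.1.mono' (fun j => leastOr_le _ _))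
      have : Mem y s := by
        rw [mem_iff hy hsf]
        filter_upwards [hno] with j hj
        push Not at hj
        obtain ⟨z, hz⟩ := hj
        exact (leastOr_spec (P := fun x => Mem x (sf j)) ⟨z, hz.lt, hz⟩).2
      exact hs this
    set m : ℕ := max m₁ (max m₂ m₃) with hm
    have h0 := h (a n) (a (n + 1)) le_rfl han hle1 m 0
    have hfinal : ∀ᶠ j in (U : Filter Idx), False := by
      filter_upwards [hB', hm₁, hm₂, hm₃, h0, hsempty] with j h1 h2 h3 h4 h5 h6
      apply h5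
      have hQ : QC φ ((vlist φ.bd f).map (fun f => f j)) j (a (n + 1)) m := by
        refine ⟨sf j, h2.trans (TT_mono (le_max_left _ _) j), tf j,
          h3.trans (TT_mono ((le_max_left _ _).trans (le_max_right _ _)) j), h6, ?_⟩
        rw [holdsLe_quad]
        rw [update_fun] at h1
        exact holdsLe_mono hφ
          (h4.trans (TT_mono ((le_max_right _ _).trans (le_max_right _ _)) j)) h1
      unfold hC
      rw [if_pos hQ]
    exact hfinal.exists.elim (fun _ h => h)

/-- Core of the trivial reduction. -/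
def trivCore : Fm :=
  ((Fm.eq (.var 2) .one).and (.ball 5 (.var 1) (.neg (memF 20 (.var 5) (.var 1))))).or
    (Fm.eq (.var 2) .zero)

theorem trivCore_bounded : trivCore.IsBounded :=
  .or (.and (.eq _ _) (.ball _ _ (.neg (memF_bounded _ _ _)))) (.eq _ _)

theorem empty_le (X : Set (MM U)) : TuringLE (∅ : Set (MM U)) X := by
  have hM := isPAMinus_MM (U := U)
  have hW : ∀ k i s t : MM U, (quadEx trivCore).Holds (update (fun _ => 0) 0 (quad k i s t)) ↔
      (i = 1 ∧ ∀ x, x < k → ¬ Mem x k) ∨ i = 0 := by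
    intro k i s t
    rw [holds_quadEx hM pr_inj_MM]
    unfold trivCore
    simp (disch := decide) only [holds_and, holds_ball, holds_or, holds_neg,
      holds_eq, holds_memF hM, Tm.val, update_self, update_of_ne]
  have h0 : Coded (0 : MM U) = ∅ := by
    ext x
    simp only [Set.mem_empty_iff_false, iff_false]
    intro hx
    have := hM.mem_lt hx
    exact absurd (hM.zero_le x) (not_le.2 this)
  refine ⟨{x | (quadEx trivCore).Holds (update (fun _ => 0) 0 x)},
    ⟨quadEx trivCore, .base (quadEx_bounded trivCore_bounded), fun _ => 0, fun x => Iff.rfl⟩, ?_⟩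
  intro k
  constructor
  · constructor
    · intro hk
      refine ⟨0, 0, by rw [h0]; exact Set.empty_subset _, by rw [h0]; exact Set.empty_subset _, ?_⟩
      change (quadEx trivCore).Holds _
      rw [hW]
      exact Or.inl ⟨rfl, fun x _ hx => hk hx⟩
    · rintro ⟨s, t, -, -, h⟩
      change (quadEx trivCore).Holds _ at h
      rw [hW] at h
      rcases h with ⟨-, h⟩ | h
      · intro x hx
        exact h x (hM.mem_lt hx) hx
      · exact absurd h one_ne_zero
  · constructor
    · intro hk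
      refine ⟨0, 0, by rw [h0]; exact Set.empty_subset _, by rw [h0]; exact Set.empty_subset _, ?_⟩
      change (quadEx trivCore).Holds _
      rw [hW]
      exact Or.inr rfl
    · intro _
      simp

/-- The main theorem. -/
theorem main :
    ∃ (M : Type) (_ : CommSemiring M) (_ : LinearOrder M) (_ : IsStrictOrderedRing M),
      Countable M ∧ IsBSigmaModel M 1 ∧
      (∀ φ : Fm, φ.IsBounded → ∀ (v : ℕ → M) (a : M), ∃ e : M, ∀ x : M,
        x ∈ Coded e ↔ x < a ∧ φ.Holds (update v 0 x)) ∧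
      ∃ I X : Set M, IsSigmaCut 1 I ∧ (∀ x : M, x ∈ I ↔ ∃ k : ℕ, x = (k : M)) ∧
        TuringLT (∅ : Set M) X ∧ TuringLT X I := by
  obtain ⟨U, a, b, hG⟩ := exists_gen
  refine ⟨MM U, inferInstance, inferInstance, inferInstance, countable_MM,
    ⟨isPAMinus_MM, boundedInduction_MM, sigmaCollection_MM hG.len⟩, ?_,
    stdCut (MM U), JJ U a, isSigmaCut_stdCut hG.len, fun x => Iff.rfl,
    ⟨empty_le _, not_JJ_le_empty hG⟩, ⟨JJ_le_std hG, not_std_le_JJ hG⟩⟩
  intro φ hφ v a
  exact exists_code φ hφ v a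

end Pool.Agent.Helper66.Arith
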